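import Mathlib

set_option autoImplicit false

/-! The generating tree of the semi-Baxter numbers, and two families growing along it. -/

namespace Pool.Agent.V11170.SemiBaxter

open Finset

/-- One step of the rule, on weights. -/
def nxt (f : ℕ → ℕ → ℕ) (h k : ℕ) : ℕ :=
  ∑ t ∈ range h, f (t + 1) (k + 1) + ∑ s ∈ range k, f (h + (s + 1)) (k + 1 - (s + 1))

/-- Total weight at level `n` of the generating tree. -/
def SB : ℕ → (ℕ → ℕ → ℕ) → ℕ
  | 0, f => f 1 1
  | n + 1, f => SB n (nxt f)

theorem sum_rank_ge (S : Finset ℕ) (F : ℕ → ℕ) :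
    ∑ v ∈ S, F ((S.filter (fun w => v ≤ w)).card) = ∑ t ∈ range S.card, F (t + 1) := by
  induction S using Finset.induction_on_min with
  | empty => simp
  | insert a s ha ih =>
    have hn : a ∉ s := fun h => lt_irrefl _ (ha a h)
    rw [sum_insert hn, card_insert_of_notMem hn, sum_range_succ, ← ih, add_comm]
    congr 1
    · apply sum_congr rfl
      intro v hv
      congr 2
      ext w
      simp only [mem_filter, mem_insert]
      constructor
      · rintro ⟨rfl | h, h'⟩
        · exact absurd h' (not_le.mpr (ha v hv))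
        · exact ⟨h, h'⟩
      · rintro ⟨h, h'⟩
        exact ⟨Or.inr h, h'⟩
    · congr 1
      rw [filter_true_of_mem, card_insert_of_notMem hn]
      intro w hw
      rcases mem_insert.mp hw with rfl | h
      · exact le_rfl
      · exact (ha w h).le

theorem sum_rank_le (S : Finset ℕ) (F : ℕ → ℕ) :
    ∑ v ∈ S, F ((S.filter (fun w => w ≤ v)).card) = ∑ t ∈ range S.card, F (t + 1) := by
  induction S using Finset.induction_on_max with
  | empty => simp
  | insert a s ha ih =>
    have hn : a ∉ s := fun h => lt_irrefl _ (ha a h)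
    rw [sum_insert hn, card_insert_of_notMem hn, sum_range_succ, ← ih, add_comm]
    congr 1
    · apply sum_congr rfl
      intro v hv
      congr 2
      ext w
      simp only [mem_filter, mem_insert]
      constructor
      · rintro ⟨rfl | h, h'⟩
        · exact absurd h' (not_le.mpr (ha v hv))
        · exact ⟨h, h'⟩
      · rintro ⟨h, h'⟩
        exact ⟨Or.inr h, h'⟩
    · congr 1
      rw [filter_true_of_mem, card_insert_of_notMem hn]
      intro w hw
      rcases mem_insert.mp hw with rfl | h
      · exact le_rfl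
      · exact (ha w h).le

/-! ### extension of finite sequences by zero -/

/-- A finite sequence as a total function. -/
def ex {n : ℕ} (e : Fin n → ℕ) (i : ℕ) : ℕ := if h : i < n then e ⟨i, h⟩ else 0

theorem ex_apply {n : ℕ} (e : Fin n → ℕ) (i : Fin n) : ex e i = e i := by
  unfold ex
  rw [dif_pos i.is_lt]

theorem ex_of_lt {n : ℕ} (e : Fin n → ℕ) {i : ℕ} (h : i < n) : ex e i = e ⟨i, h⟩ := dif_pos h

/-! ### family one: inversion sequences avoiding 101 and 201 -/

/-- The value `u` may be appended. -/
def ActI (n : ℕ) (e : ℕ → ℕ) (u : ℕ) : Prop := ∀ i j, i < j → j < n → ¬ (e j < u ∧ u ≤ e i)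

/-- No occurrence of 101 or 201. -/
def AvI (n : ℕ) (e : ℕ → ℕ) : Prop :=
  ∀ i j k, i < j → j < k → k < n → ¬ (e j < e k ∧ e k ≤ e i)

/-- Append `v`. -/
def app (n v : ℕ) (e : ℕ → ℕ) (i : ℕ) : ℕ := if i < n then e i else if i = n then v else 0

open scoped Classical in
/-- Active values that are at most the maximum. -/
noncomputable def HI (n : ℕ) (e : ℕ → ℕ) : Finset ℕ :=
  (range (n + 1)).filter (fun u => ActI n e u ∧ ∃ i, i < n ∧ u ≤ e i)

open scoped Classical in
/-- Values above the maximum. -/
noncomputable def KI (n : ℕ) (e : ℕ → ℕ) : Finset ℕ :=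
  (range (n + 1)).filter (fun u => ∀ i, i < n → e i < u)

theorem mem_HI {n : ℕ} {e : ℕ → ℕ} {u : ℕ} :
    u ∈ HI n e ↔ u ≤ n ∧ ActI n e u ∧ ∃ i, i < n ∧ u ≤ e i := by
  classical
  unfold HI
  rw [mem_filter, mem_range, Nat.lt_succ_iff]

theorem mem_KI {n : ℕ} {e : ℕ → ℕ} {u : ℕ} :
    u ∈ KI n e ↔ u ≤ n ∧ ∀ i, i < n → e i < u := by
  classical
  unfold KI
  rw [mem_filter, mem_range, Nat.lt_succ_iff]

theorem app_lt {n v : ℕ} {e : ℕ → ℕ} {i : ℕ} (h : i < n) : app n v e i = e i := if_pos h

theorem app_self {n v : ℕ} {e : ℕ → ℕ} : app n v e n = v := by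
  unfold app
  rw [if_neg (lt_irrefl n), if_pos rfl]

theorem avI_app {n v : ℕ} {e : ℕ → ℕ} :
    AvI (n + 1) (app n v e) ↔ AvI n e ∧ ActI n e v := by
  constructor
  · intro h
    refine ⟨fun i j k hij hjk hk => ?_, fun i j hij hj => ?_⟩
    · have := h i j k hij hjk (by omega)
      rwa [app_lt (i := i) (by omega), app_lt (i := j) (by omega), app_lt hk] at this
    · have := h i j n hij hj (by omega)
      rwa [app_lt (i := i) (by omega), app_self, app_lt (i := j) (by omega)] at this
  · rintro ⟨h1, h2⟩ i j k hij hjk hk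
    rcases Nat.lt_succ_iff_lt_or_eq.mp hk with h | rfl
    · rw [app_lt (i := i) (by omega), app_lt (i := j) (by omega), app_lt h]
      exact h1 i j k hij hjk h
    · rw [app_lt (i := i) (by omega), app_self, app_lt (i := j) (by omega)]
      exact h2 i j hij hjk

theorem actI_app {n v u : ℕ} {e : ℕ → ℕ} :
    ActI (n + 1) (app n v e) u ↔ ActI n e u ∧ (v < u → ∀ i, i < n → e i < u) := by
  constructor
  · intro h
    refine ⟨fun i j hij hj => ?_, fun hv i hi => ?_⟩
    · have := h i j hij (by omega)
      rwa [app_lt (i := i) (by omega), app_lt (i := j) (by omega)] at this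
    · have := h i n hi (by omega)
      rw [app_self, app_lt hi] at this
      omega
  · rintro ⟨h1, h2⟩ i j hij hj
    rcases Nat.lt_succ_iff_lt_or_eq.mp hj with h | h
    · rw [app_lt (i := i) (by omega), app_lt (i := j) (by omega)]
      exact h1 i j hij h
    · subst h
      rw [app_lt (i := i) (by omega), app_self]
      rintro ⟨h3, h4⟩
      have := h2 h3 i hij
      omega

theorem KI_app_low {n v : ℕ} {e : ℕ → ℕ} (hb : ∀ i, i < n → e i ≤ n) (hvn : v ≤ n)
    {i0 : ℕ} (hi0 : i0 < n) (hvi : v ≤ e i0) :
    KI (n + 1) (app n v e) = insert (n + 1) (KI n e) := by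
  ext u
  rw [mem_insert, mem_KI, mem_KI]
  constructor
  · rintro ⟨h1, h2⟩
    rcases Nat.lt_succ_iff_lt_or_eq.mp (Nat.lt_succ_of_le h1) with h | h
    · right
      refine ⟨by omega, fun i hi => ?_⟩
      have := h2 i (by omega)
      rwa [app_lt hi] at this
    · exact Or.inl h
  · rintro (rfl | ⟨h1, h2⟩)
    · refine ⟨le_rfl, fun i hi => ?_⟩
      rcases Nat.lt_succ_iff_lt_or_eq.mp hi with h | h
      · rw [app_lt h]
        have := hb i h
        omega
      · subst h
        rw [app_self]
        omega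
    · refine ⟨by omega, fun i hi => ?_⟩
      rcases Nat.lt_succ_iff_lt_or_eq.mp hi with h | h
      · rw [app_lt h]
        exact h2 i h
      · subst h
        rw [app_self]
        have := h2 i0 hi0
        omega

/-- Appending an active value at most the maximum. -/
theorem stepI_low {n v : ℕ} {e : ℕ → ℕ} (hb : ∀ i, i < n → e i ≤ n) (hv : v ∈ HI n e) :
    (HI (n + 1) (app n v e)).card = ((HI n e).filter (fun w => w ≤ v)).card ∧
    (KI (n + 1) (app n v e)).card = (KI n e).card + 1 := by
  rw [mem_HI] at hv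
  obtain ⟨hvn, hact, i0, hi0, hvi⟩ := hv
  constructor
  · congr 1
    ext u
    rw [mem_filter, mem_HI, mem_HI, actI_app]
    constructor
    · rintro ⟨h1, ⟨h2, h3⟩, i, hi, hu⟩
      have huv : u ≤ v := by
        by_contra hlt
        have h4 := h3 (by omega)
        rcases Nat.lt_succ_iff_lt_or_eq.mp hi with h | h
        · rw [app_lt h] at hu
          have := h4 i h
          omega
        · subst h
          rw [app_self] at hu
          omega
      exact ⟨⟨by omega, h2, i0, hi0, by omega⟩, huv⟩
    · rintro ⟨⟨h1, h2, i, hi, hu⟩, h3⟩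
      refine ⟨by omega, ⟨h2, fun h => absurd h3 (by omega)⟩, i, by omega, ?_⟩
      rwa [app_lt hi]
  · rw [KI_app_low hb hvn hi0 hvi, card_insert_of_notMem]
    rw [mem_KI]
    omega

/-- Appending a value above the maximum. -/
theorem stepI_high {n v : ℕ} {e : ℕ → ℕ} (hv : v ∈ KI n e) :
    (HI (n + 1) (app n v e)).card =
      (HI n e).card + ((KI n e).filter (fun w => w ≤ v)).card ∧
    (KI (n + 1) (app n v e)).card =
      (KI n e).card + 1 - ((KI n e).filter (fun w => w ≤ v)).card := by
  have hv' := hv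
  rw [mem_KI] at hv
  obtain ⟨hvn, hmax⟩ := hv
  have hactK : ∀ u, u ∈ KI n e → ActI n e u := by
    intro u hu i j hij hj h
    have := (mem_KI.mp hu).2 i (by omega)
    omega
  constructor
  · rw [← card_union_of_disjoint]
    · congr 1
      ext u
      rw [mem_union, mem_filter, mem_HI, mem_HI, mem_KI, actI_app]
      constructor
      · rintro ⟨h1, ⟨h2, h3⟩, i, hi, hu⟩
        have huv : u ≤ v := by
          rcases Nat.lt_succ_iff_lt_or_eq.mp hi with h | h
          · rw [app_lt h] at hu
            have := hmax i h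
            omega
          · subst h
            rwa [app_self] at hu
        by_cases hex : ∃ i, i < n ∧ u ≤ e i
        · exact Or.inl ⟨by omega, h2, hex⟩
        · push Not at hex
          exact Or.inr ⟨⟨by omega, hex⟩, huv⟩
      · rintro (⟨h1, h2, i, hi, hu⟩ | ⟨⟨h1, h2⟩, h3⟩)
        · have := hmax i hi
          refine ⟨by omega, ⟨h2, fun h => by omega⟩, n, by omega, ?_⟩
          rw [app_self]
          omega
        · refine ⟨by omega, ⟨hactK u (mem_KI.mpr ⟨h1, h2⟩), fun _ => h2⟩, n, by omega, ?_⟩
          rwa [app_self]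
    · rw [Finset.disjoint_left]
      intro u hu hu'
      rw [mem_HI] at hu
      rw [mem_filter, mem_KI] at hu'
      obtain ⟨_, _, i, hi, hui⟩ := hu
      have := hu'.1.2 i hi
      omega
  · have h1 : KI (n + 1) (app n v e) =
        insert (n + 1) ((KI n e).filter (fun w => ¬ w ≤ v)) := by
      ext u
      rw [mem_insert, mem_filter, mem_KI, mem_KI]
      constructor
      · rintro ⟨h1, h2⟩
        have h3 := h2 n (by omega)
        rw [app_self] at h3
        rcases Nat.lt_succ_iff_lt_or_eq.mp (Nat.lt_succ_of_le h1) with h | h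
        · right
          refine ⟨⟨by omega, fun i hi => ?_⟩, by omega⟩
          have := h2 i (by omega)
          rwa [app_lt hi] at this
        · exact Or.inl h
      · rintro (rfl | ⟨⟨h1, h2⟩, h3⟩)
        · refine ⟨le_rfl, fun i hi => ?_⟩
          rcases Nat.lt_succ_iff_lt_or_eq.mp hi with h | h
          · rw [app_lt h]
            have := hmax i h
            omega
          · subst h
            rw [app_self]
            omega
        · refine ⟨by omega, fun i hi => ?_⟩
          rcases Nat.lt_succ_iff_lt_or_eq.mp hi with h | h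
          · rw [app_lt h]
            exact h2 i h
          · subst h
            rw [app_self]
            omega
    have h2 := card_filter_add_card_filter_not (s := KI n e) (fun w => w ≤ v)
    rw [h1, card_insert_of_notMem]
    · omega
    · rw [mem_filter, mem_KI]
      omega

theorem sumI_step (n : ℕ) (e : ℕ → ℕ) (hb : ∀ i, i < n → e i ≤ n) (f : ℕ → ℕ → ℕ) :
    ∑ v ∈ range (n + 1), (open scoped Classical in if ActI n e v then
      f (HI (n + 1) (app n v e)).card (KI (n + 1) (app n v e)).card else 0) =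
    nxt f (HI n e).card (KI n e).card := by
  classical
  have h1 : (range (n + 1)).filter (fun v => ActI n e v) = HI n e ∪ KI n e := by
    ext u
    rw [mem_filter, mem_union, mem_HI, mem_KI, mem_range]
    constructor
    · rintro ⟨h1, h2⟩
      by_cases hex : ∃ i, i < n ∧ u ≤ e i
      · exact Or.inl ⟨by omega, h2, hex⟩
      · push Not at hex
        exact Or.inr ⟨by omega, hex⟩
    · rintro (⟨h1, h2, _⟩ | ⟨h1, h2⟩)
      · exact ⟨by omega, h2⟩
      · refine ⟨by omega, fun i j hij hj h => ?_⟩
        have := h2 i (by omega)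
        omega
  have h2 : Disjoint (HI n e) (KI n e) := by
    rw [Finset.disjoint_left]
    intro u hu hu'
    rw [mem_HI] at hu
    rw [mem_KI] at hu'
    obtain ⟨_, _, i, hi, hui⟩ := hu
    have := hu'.2 i hi
    omega
  rw [← sum_filter, h1, sum_union h2]
  unfold nxt
  congr 1
  · rw [← sum_rank_le (HI n e) (fun t => f t ((KI n e).card + 1))]
    apply sum_congr rfl
    intro v hv
    obtain ⟨h3, h4⟩ := stepI_low hb hv
    rw [h3, h4]
  · rw [← sum_rank_le (KI n e) (fun t => f ((HI n e).card + t) ((KI n e).card + 1 - t))]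
    apply sum_congr rfl
    intro v hv
    obtain ⟨h3, h4⟩ := stepI_high hv
    rw [h3, h4]

/-! ### family two: plane permutations (avoiding 2-14-3), by right insertion -/

/-- The new last entry may have value `u`. -/
def ActP (n : ℕ) (w : ℕ → ℕ) (u : ℕ) : Prop :=
  ∀ a b, a < b → b + 1 < n → ¬ (w b < w a ∧ w a < u ∧ u ≤ w (b + 1))

/-- No occurrence of 2-14-3. -/
def AvP (n : ℕ) (w : ℕ → ℕ) : Prop :=
  ∀ a b d, a < b → b + 1 < d → d < n → ¬ (w b < w a ∧ w a < w d ∧ w d < w (b + 1))

/-- Insert a new last entry of value `v`. -/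
def ins (n v : ℕ) (w : ℕ → ℕ) (i : ℕ) : ℕ :=
  if i < n then (if w i < v then w i else w i + 1) else if i = n then v else 0

theorem ins_lt {n v : ℕ} {w : ℕ → ℕ} {i : ℕ} (h : i < n) :
    ins n v w i = if w i < v then w i else w i + 1 := if_pos h

theorem ins_self {n v : ℕ} {w : ℕ → ℕ} : ins n v w n = v := by
  unfold ins
  rw [if_neg (lt_irrefl n), if_pos rfl]

theorem avP_ins {n v : ℕ} {w : ℕ → ℕ} :
    AvP (n + 1) (ins n v w) ↔ AvP n w ∧ ActP n w v := by
  constructor
  · intro h
    refine ⟨fun a b d hab hbd hd hc => ?_, fun a b hab hb hc => ?_⟩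
    · have h1 := h a b d hab hbd (by omega)
      rw [ins_lt (i := a) (by omega), ins_lt (i := b) (by omega), ins_lt (i := b + 1) (by omega),
        ins_lt (i := d) hd] at h1
      apply h1
      split_ifs <;> omega
    · have h1 := h a b n hab hb (by omega)
      rw [ins_lt (i := a) (by omega), ins_lt (i := b) (by omega), ins_lt (i := b + 1) (by omega),
        ins_self] at h1
      apply h1
      split_ifs <;> omega
  · rintro ⟨h1, h2⟩ a b d hab hbd hd
    rcases Nat.lt_succ_iff_lt_or_eq.mp hd with h | h
    · rw [ins_lt (i := a) (by omega), ins_lt (i := b) (by omega), ins_lt (i := b + 1) (by omega),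
        ins_lt (i := d) h]
      have h3 := h1 a b d hab hbd h
      split_ifs <;> omega
    · subst h
      rw [ins_lt (i := a) (by omega), ins_lt (i := b) (by omega), ins_lt (i := b + 1) (by omega),
        ins_self]
      have h3 := h2 a b hab hbd
      split_ifs <;> omega

/-- The old site below the new site `u`. -/
def old (v u : ℕ) : ℕ := if u ≤ v then u else u - 1

theorem actP_ins {n v u : ℕ} {w : ℕ → ℕ} :
    ActP (n + 2) (ins (n + 1) v w) u ↔ ActP (n + 1) w (old v u) ∧
      (w n < v → u ≤ v → ∀ a, a < n → ¬ (w n < w a ∧ w a < u)) := by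
  constructor
  · intro h
    refine ⟨fun a b hab hb hc => ?_, fun hv hu a ha hc => ?_⟩
    · have h1 := h a b hab (by omega)
      rw [ins_lt (i := a) (by omega), ins_lt (i := b) (by omega),
        ins_lt (i := b + 1) (by omega)] at h1
      apply h1
      unfold old at hc
      split_ifs at hc ⊢ <;> omega
    · have h1 := h a n ha (by omega)
      rw [ins_lt (i := a) (by omega), ins_lt (i := n) (by omega), ins_self] at h1
      apply h1
      split_ifs <;> omega
  · rintro ⟨h1, h2⟩ a b hab hb
    rcases Nat.lt_succ_iff_lt_or_eq.mp (show b + 1 < (n + 1) + 1 by omega) with h | h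
    · rw [ins_lt (i := a) (by omega), ins_lt (i := b) (by omega), ins_lt (i := b + 1) (by omega)]
      have h3 := h1 a b hab h
      unfold old at h3
      split_ifs at h3 ⊢ <;> omega
    · have hbn : b = n := by omega
      subst hbn
      rw [ins_lt (i := a) (by omega), ins_lt (i := b) (by omega), ins_self]
      have h3 := h2
      intro hc
      split_ifs at hc with h4 h5
      all_goals first | omega | exact h2 (by omega) (by omega) a hab (by omega)

open scoped Classical in
/-- Active sites above the last entry. -/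
noncomputable def HP (n : ℕ) (w : ℕ → ℕ) : Finset ℕ :=
  (range (n + 2)).filter (fun u => ActP (n + 1) w u ∧ w n < u)

open scoped Classical in
/-- Active sites below the last entry. -/
noncomputable def KP (n : ℕ) (w : ℕ → ℕ) : Finset ℕ :=
  (range (n + 2)).filter (fun u => ActP (n + 1) w u ∧ u ≤ w n)

theorem mem_HP {n : ℕ} {w : ℕ → ℕ} {u : ℕ} :
    u ∈ HP n w ↔ u ≤ n + 1 ∧ ActP (n + 1) w u ∧ w n < u := by
  classical
  unfold HP
  rw [mem_filter, mem_range, Nat.lt_succ_iff]

theorem mem_KP {n : ℕ} {w : ℕ → ℕ} {u : ℕ} :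
    u ∈ KP n w ↔ u ≤ n + 1 ∧ ActP (n + 1) w u ∧ u ≤ w n := by
  classical
  unfold KP
  rw [mem_filter, mem_range, Nat.lt_succ_iff]

/-- The first `n` values form a permutation of `0, …, n - 1`. -/
def IsP (n : ℕ) (w : ℕ → ℕ) : Prop :=
  (∀ i, i < n → w i < n) ∧ (∀ i j, i < n → j < n → w i = w j → i = j) ∧
    ∀ y, y < n → ∃ i, i < n ∧ w i = y

/-- The site just above the last entry is active. -/
theorem actP_succ {n : ℕ} {w : ℕ → ℕ} (hp : IsP (n + 1) w) (hav : AvP (n + 1) w) :
    ActP (n + 1) w (w n + 1) := by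
  intro a b hab hb ⟨h1, h2, h3⟩
  have h4 : w a ≠ w n := fun h => by
    have := hp.2.1 a n (by omega) (by omega) h
    omega
  have h5 : b + 1 ≠ n := fun h => by
    rw [h] at h3
    omega
  exact hav a b n hab (by omega) (by omega) ⟨h1, by omega, by omega⟩

/-- Insertion below the last entry. -/
theorem stepP_low {n v : ℕ} {w : ℕ → ℕ} (hp : IsP (n + 1) w) (hv : v ∈ KP n w) :
    (HP (n + 1) (ins (n + 1) v w)).card =
      (HP n w).card + ((KP n w).filter (fun u => v ≤ u)).card ∧
    (KP (n + 1) (ins (n + 1) v w)).card =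
      (KP n w).card + 1 - ((KP n w).filter (fun u => v ≤ u)).card := by
  have hv' := hv
  rw [mem_KP] at hv
  obtain ⟨hvn, hact, hvx⟩ := hv
  have hwn : w n < n + 1 := hp.1 n (by omega)
  have hA : ∀ u, ActP (n + 2) (ins (n + 1) v w) u ↔ ActP (n + 1) w (old v u) := by
    intro u
    rw [actP_ins]
    constructor
    · exact fun h => h.1
    · exact fun h => ⟨h, fun h' => by omega⟩
  constructor
  · rw [← card_union_of_disjoint]
    · symm
      apply card_bij (fun u _ => u + 1)
      · intro u hu
        rw [mem_HP, ins_self, hA]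
        rw [mem_union, mem_filter, mem_HP, mem_KP] at hu
        have h1 : v ≤ u := by omega
        have h2 : old v (u + 1) = u := by
          unfold old
          rw [if_neg (by omega)]
          omega
        rw [h2]
        rcases hu with hu | hu
        · exact ⟨by omega, hu.2.1, by omega⟩
        · exact ⟨by omega, hu.1.2.1, by omega⟩
      · intro a _ b _ h
        omega
      · intro u hu
        rw [mem_HP, ins_self, hA] at hu
        obtain ⟨h1, h2, h3⟩ := hu
        refine ⟨u - 1, ?_, by omega⟩
        have h4 : old v u = u - 1 := by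
          unfold old
          rw [if_neg (by omega)]
        rw [h4] at h2
        rw [mem_union, mem_filter, mem_HP, mem_KP]
        by_cases h5 : w n < u - 1
        · exact Or.inl ⟨by omega, h2, h5⟩
        · exact Or.inr ⟨⟨by omega, h2, by omega⟩, by omega⟩
    · rw [Finset.disjoint_left]
      intro u hu hu'
      rw [mem_HP] at hu
      rw [mem_filter, mem_KP] at hu'
      omega
  · have h1 : KP (n + 1) (ins (n + 1) v w) =
        insert v ((KP n w).filter (fun u => ¬ v ≤ u)) := by
      ext u
      rw [mem_insert, mem_filter, mem_KP, mem_KP, ins_self, hA]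
      constructor
      · rintro ⟨h1, h2, h3⟩
        have h4 : old v u = u := by
          unfold old
          rw [if_pos h3]
        rw [h4] at h2
        by_cases h5 : u = v
        · exact Or.inl h5
        · exact Or.inr ⟨⟨by omega, h2, by omega⟩, by omega⟩
      · rintro (rfl | ⟨⟨h1, h2, h3⟩, h4⟩)
        · have h4 : old u u = u := by
            unfold old
            rw [if_pos le_rfl]
          rw [h4]
          exact ⟨by omega, hact, le_rfl⟩
        · have h5 : old v u = u := by
            unfold old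
            rw [if_pos (by omega)]
          rw [h5]
          exact ⟨by omega, h2, by omega⟩
    have h2 := card_filter_add_card_filter_not (s := KP n w) (fun u => v ≤ u)
    rw [h1, card_insert_of_notMem]
    · omega
    · rw [mem_filter]
      omega

/-- Insertion above the last entry. -/
theorem stepP_high {n v : ℕ} {w : ℕ → ℕ} (hp : IsP (n + 1) w) (hav : AvP (n + 1) w)
    (hv : v ∈ HP n w) :
    (HP (n + 1) (ins (n + 1) v w)).card = ((HP n w).filter (fun u => v ≤ u)).card ∧
    (KP (n + 1) (ins (n + 1) v w)).card = (KP n w).card + 1 := by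
  have hv' := hv
  rw [mem_HP] at hv
  obtain ⟨hvn, hact, hvx⟩ := hv
  have hwn : w n < n + 1 := hp.1 n (by omega)
  constructor
  · symm
    apply card_bij (fun u _ => u + 1)
    · intro u hu
      rw [mem_HP, ins_self, actP_ins]
      rw [mem_filter, mem_HP] at hu
      obtain ⟨⟨h1, h2, h3⟩, h4⟩ := hu
      have h5 : old v (u + 1) = u := by
        unfold old
        rw [if_neg (by omega)]
        omega
      rw [h5]
      exact ⟨by omega, ⟨h2, fun _ h => by omega⟩, by omega⟩
    · intro a _ b _ h
      omega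
    · intro u hu
      rw [mem_HP, ins_self, actP_ins] at hu
      obtain ⟨h1, ⟨h2, _⟩, h3⟩ := hu
      have h4 : old v u = u - 1 := by
        unfold old
        rw [if_neg (by omega)]
      rw [h4] at h2
      refine ⟨u - 1, ?_, by omega⟩
      rw [mem_filter, mem_HP]
      exact ⟨⟨by omega, h2, by omega⟩, by omega⟩
  · have h1 : KP (n + 1) (ins (n + 1) v w) = insert (w n + 1) (KP n w) := by
      ext u
      rw [mem_insert, mem_KP, mem_KP, ins_self, actP_ins]
      constructor
      · rintro ⟨h1, ⟨h2, h3⟩, h4⟩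
        have h5 : old v u = u := by
          unfold old
          rw [if_pos h4]
        rw [h5] at h2
        by_cases h6 : u ≤ w n
        · exact Or.inr ⟨by omega, h2, h6⟩
        · left
          by_contra h7
          obtain ⟨a, ha, hwa⟩ := hp.2.2 (w n + 1) (by omega)
          have h8 : a ≠ n := fun h => by
            rw [h] at hwa
            omega
          exact h3 hvx h4 a (by omega) ⟨by omega, by omega⟩
      · rintro (rfl | ⟨h1, h2, h3⟩)
        · have h5 : old v (w n + 1) = w n + 1 := by
            unfold old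
            rw [if_pos (by omega)]
          rw [h5]
          exact ⟨by omega, ⟨actP_succ hp hav, fun _ _ a _ h => by omega⟩, by omega⟩
        · have h5 : old v u = u := by
            unfold old
            rw [if_pos (by omega)]
          rw [h5]
          exact ⟨by omega, ⟨h2, fun _ _ a _ h => by omega⟩, by omega⟩
    rw [h1, card_insert_of_notMem]
    rw [mem_KP]
    omega

theorem sumP_step (n : ℕ) (w : ℕ → ℕ) (hp : IsP (n + 1) w) (hav : AvP (n + 1) w)
    (f : ℕ → ℕ → ℕ) :
    ∑ v ∈ range (n + 2), (open scoped Classical in if ActP (n + 1) w v then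
      f (HP (n + 1) (ins (n + 1) v w)).card (KP (n + 1) (ins (n + 1) v w)).card else 0) =
    nxt f (HP n w).card (KP n w).card := by
  classical
  have h1 : (range (n + 2)).filter (fun v => ActP (n + 1) w v) = HP n w ∪ KP n w := by
    ext u
    rw [mem_filter, mem_union, mem_HP, mem_KP, mem_range]
    constructor
    · rintro ⟨h1, h2⟩
      by_cases hex : w n < u
      · exact Or.inl ⟨by omega, h2, hex⟩
      · exact Or.inr ⟨by omega, h2, by omega⟩
    · rintro (⟨h1, h2, _⟩ | ⟨h1, h2, _⟩)
      · exact ⟨by omega, h2⟩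
      · exact ⟨by omega, h2⟩
  have h2 : Disjoint (HP n w) (KP n w) := by
    rw [Finset.disjoint_left]
    intro u hu hu'
    rw [mem_HP] at hu
    rw [mem_KP] at hu'
    omega
  rw [← sum_filter, h1, sum_union h2]
  unfold nxt
  congr 1
  · rw [← sum_rank_ge (HP n w) (fun t => f t ((KP n w).card + 1))]
    apply sum_congr rfl
    intro v hv
    obtain ⟨h3, h4⟩ := stepP_high hp hav hv
    rw [h3, h4]
  · rw [← sum_rank_ge (KP n w) (fun t => f ((HP n w).card + t) ((KP n w).card + 1 - t))]
    apply sum_congr rfl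
    intro v hv
    obtain ⟨h3, h4⟩ := stepP_low hp hv
    rw [h3, h4]

/-! ### sums over inversion sequences -/

/-- All inversion sequences of length `n`. -/
def T (n : ℕ) : Finset (Fin n → ℕ) := Fintype.piFinset (fun i : Fin n => range ((i : ℕ) + 1))

theorem mem_T {n : ℕ} {e : Fin n → ℕ} : e ∈ T n ↔ ∀ i, e i ≤ i := by
  unfold T
  rw [Fintype.mem_piFinset]
  simp only [mem_range, Nat.lt_succ_iff]

theorem ex_of_ge {n : ℕ} (e : Fin n → ℕ) {i : ℕ} (h : ¬ i < n) : ex e i = 0 := dif_neg h

theorem ex_snoc {n : ℕ} (e : Fin n → ℕ) (v : ℕ) :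
    ex (Fin.snoc e v : Fin (n + 1) → ℕ) = app n v (ex e) := by
  funext i
  by_cases h : i < n
  · rw [app_lt h, ex_of_lt _ h, ex_of_lt _ (by omega : i < n + 1)]
    have : (⟨i, by omega⟩ : Fin (n + 1)) = Fin.castSucc ⟨i, h⟩ := rfl
    rw [this, Fin.snoc_castSucc]
  · by_cases h' : i = n
    · subst h'
      rw [app_self, ex_of_lt _ (by omega : i < i + 1)]
      have : (⟨i, by omega⟩ : Fin (i + 1)) = Fin.last i := rfl
      rw [this, Fin.snoc_last]
    · rw [ex_of_ge _ (by omega)]
      unfold app
      rw [if_neg h, if_neg h']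

theorem sum_T_succ (n : ℕ) (F : (ℕ → ℕ) → ℕ) :
    ∑ e ∈ T (n + 1), F (ex e) = ∑ e ∈ T n, ∑ v ∈ range (n + 1), F (app n v (ex e)) := by
  rw [← sum_product']
  apply sum_nbij' (fun e => ((fun i : Fin n => e i.castSucc, e (Fin.last n)) : (Fin n → ℕ) × ℕ))
    (fun p => (Fin.snoc p.1 p.2 : Fin (n + 1) → ℕ))
  · intro e he
    rw [mem_T] at he
    rw [mem_product, mem_T, mem_range]
    refine ⟨fun i => ?_, ?_⟩
    · have := he i.castSucc
      simpa using this
    · have := he (Fin.last n)
      simp only [Fin.val_last] at this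
      show e (Fin.last n) < n + 1
      omega
  · intro p hp
    rw [mem_product, mem_T, mem_range] at hp
    rw [mem_T]
    intro i
    refine Fin.lastCases ?_ (fun i => ?_) i
    · rw [Fin.snoc_last, Fin.val_last]
      omega
    · rw [Fin.snoc_castSucc]
      simpa using hp.1 i
  · intro e _
    funext i
    refine Fin.lastCases ?_ (fun i => ?_) i
    · simp
    · simp
  · intro p _
    simp
  · intro e _
    congr 1
    show ex e = app n (e (Fin.last n)) (ex (fun i : Fin n => e i.castSucc))
    rw [← ex_snoc]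
    congr 1
    funext i
    refine Fin.lastCases ?_ (fun i => ?_) i
    · simp
    · simp

open scoped Classical in
/-- Weight of an inversion sequence. -/
noncomputable def WI (n : ℕ) (f : ℕ → ℕ → ℕ) (w : ℕ → ℕ) : ℕ :=
  if AvI n w then f (HI n w).card (KI n w).card else 0

theorem sumI_succ (n : ℕ) (f : ℕ → ℕ → ℕ) :
    ∑ e ∈ T (n + 1), WI (n + 1) f (ex e) = ∑ e ∈ T n, WI n (nxt f) (ex e) := by
  classical
  rw [sum_T_succ]
  apply sum_congr rfl
  intro e he
  rw [mem_T] at he
  have hb : ∀ i, i < n → ex e i ≤ n := by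
    intro i hi
    rw [ex_of_lt e hi]
    have := he ⟨i, hi⟩
    simp only at this
    omega
  unfold WI
  by_cases h : AvI n (ex e)
  · rw [if_pos h, ← sumI_step n (ex e) hb f]
    apply sum_congr rfl
    intro v _
    simp only [avI_app, h, true_and]
  · rw [if_neg h]
    apply sum_eq_zero
    intro v _
    rw [if_neg]
    rw [avI_app]
    exact fun h' => h h'.1

theorem sumI_zero (f : ℕ → ℕ → ℕ) : ∑ e ∈ T 0, WI 0 f (ex e) = f 0 1 := by
  classical
  have h1 : T 0 = {fun i => i.elim0} := by
    ext e
    rw [mem_T, mem_singleton]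
    exact ⟨fun _ => Subsingleton.elim _ _, fun _ i => i.elim0⟩
  rw [h1, sum_singleton]
  unfold WI
  have h2 : AvI 0 (ex (fun i : Fin 0 => (i.elim0 : ℕ))) := fun i j k _ _ hk => by omega
  rw [if_pos h2]
  have h3 : HI 0 (ex (fun i : Fin 0 => (i.elim0 : ℕ))) = ∅ := by
    ext u
    rw [mem_HI]
    simp
  have h4 : KI 0 (ex (fun i : Fin 0 => (i.elim0 : ℕ))) = {0} := by
    ext u
    rw [mem_KI]
    simp
  rw [h3, h4]
  rfl

theorem sumI_eq (n : ℕ) (f : ℕ → ℕ → ℕ) : ∑ e ∈ T (n + 1), WI (n + 1) f (ex e) = SB n f := by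
  induction n generalizing f with
  | zero =>
    rw [sumI_succ, sumI_zero]
    simp [nxt, SB]
  | succ n ih =>
    rw [sumI_succ, ih]
    rfl

open scoped Classical in
theorem card_I (n : ℕ) :
    ((T (n + 1)).filter (fun e => AvI (n + 1) (ex e))).card = SB n (fun _ _ => 1) := by
  rw [← sumI_eq, card_filter]
  rfl

/-! ### sums over permutations -/

/-- Right insertion of a new last value. -/
def insPerm {n : ℕ} (v : Fin (n + 1)) (σ : Equiv.Perm (Fin n)) : Equiv.Perm (Fin (n + 1)) :=
  (finSuccEquivLast.trans (Equiv.optionCongr σ)).trans (finSuccEquiv' v).symm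

theorem insPerm_castSucc {n : ℕ} (v : Fin (n + 1)) (σ : Equiv.Perm (Fin n)) (i : Fin n) :
    insPerm v σ i.castSucc = v.succAbove (σ i) := by
  simp [insPerm]

theorem insPerm_last {n : ℕ} (v : Fin (n + 1)) (σ : Equiv.Perm (Fin n)) :
    insPerm v σ (Fin.last n) = v := by
  simp [insPerm]

theorem insPerm_bijective (n : ℕ) :
    Function.Bijective (fun p : Equiv.Perm (Fin n) × Fin (n + 1) => insPerm p.2 p.1) := by
  rw [Fintype.bijective_iff_injective_and_card]
  constructor
  · rintro ⟨σ, v⟩ ⟨τ, u⟩ h
    simp only at h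
    have h1 : v = u := by
      rw [← insPerm_last v σ, h, insPerm_last]
    subst h1
    have h2 : σ = τ := by
      ext i
      have h3 : insPerm v σ i.castSucc = insPerm v τ i.castSucc := by rw [h]
      rw [insPerm_castSucc, insPerm_castSucc] at h3
      rw [Fin.succAbove_right_injective h3]
    rw [h2]
  · rw [Fintype.card_prod, Fintype.card_perm, Fintype.card_perm, Fintype.card_fin,
      Fintype.card_fin, Nat.factorial_succ, mul_comm]

/-- The values of a permutation as a total function. -/
def exP {n : ℕ} (σ : Equiv.Perm (Fin n)) : ℕ → ℕ := ex (fun i => (σ i : ℕ))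

theorem exP_of_lt {n : ℕ} (σ : Equiv.Perm (Fin n)) {i : ℕ} (h : i < n) :
    exP σ i = σ ⟨i, h⟩ := ex_of_lt _ h

theorem exP_insPerm {n : ℕ} (v : Fin (n + 1)) (σ : Equiv.Perm (Fin n)) :
    exP (insPerm v σ) = ins n v (exP σ) := by
  funext i
  by_cases h : i < n
  · rw [ins_lt h, exP_of_lt _ h, exP_of_lt _ (by omega : i < n + 1)]
    have h1 : (⟨i, by omega⟩ : Fin (n + 1)) = Fin.castSucc ⟨i, h⟩ := rfl
    rw [h1, insPerm_castSucc]
    unfold Fin.succAbove
    by_cases h2 : ((σ ⟨i, h⟩ : Fin n) : ℕ) < v
    · rw [if_pos h2, if_pos (by exact h2)]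
      rfl
    · rw [if_neg h2, if_neg (by exact h2)]
      rfl
  · by_cases h' : i = n
    · subst h'
      rw [ins_self, exP_of_lt _ (by omega : i < i + 1)]
      have h1 : (⟨i, by omega⟩ : Fin (i + 1)) = Fin.last i := rfl
      rw [h1, insPerm_last]
    · unfold exP
      rw [ex_of_ge _ (by omega)]
      unfold ins
      rw [if_neg h, if_neg h']

theorem sum_perm_succ (n : ℕ) (F : (ℕ → ℕ) → ℕ) :
    ∑ σ : Equiv.Perm (Fin (n + 1)), F (exP σ) =
      ∑ σ : Equiv.Perm (Fin n), ∑ v ∈ range (n + 1), F (ins n v (exP σ)) := by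
  rw [← (Equiv.ofBijective _ (insPerm_bijective n)).sum_comp, Fintype.sum_prod_type]
  apply sum_congr rfl
  intro σ _
  rw [← Fin.sum_univ_eq_sum_range (fun v => F (ins n v (exP σ)))]
  apply sum_congr rfl
  intro v _
  rw [← exP_insPerm]
  rfl

theorem isP_exP {n : ℕ} (σ : Equiv.Perm (Fin n)) : IsP n (exP σ) := by
  refine ⟨fun i hi => ?_, fun i j hi hj h => ?_, fun y hy => ?_⟩
  · unfold exP
    rw [ex_of_lt _ hi]
    exact Fin.is_lt _
  · unfold exP at h
    rw [ex_of_lt _ hi, ex_of_lt _ hj] at h
    have := σ.injective (Fin.ext h)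
    exact congrArg Fin.val this
  · refine ⟨σ.symm ⟨y, hy⟩, Fin.is_lt _, ?_⟩
    unfold exP
    rw [ex_apply]
    simp

open scoped Classical in
/-- Weight of a permutation of length `n + 1`. -/
noncomputable def WP (n : ℕ) (f : ℕ → ℕ → ℕ) (w : ℕ → ℕ) : ℕ :=
  if AvP (n + 1) w then f (HP n w).card (KP n w).card else 0

theorem sumP_succ (n : ℕ) (f : ℕ → ℕ → ℕ) :
    ∑ σ : Equiv.Perm (Fin (n + 2)), WP (n + 1) f (exP σ) =
      ∑ σ : Equiv.Perm (Fin (n + 1)), WP n (nxt f) (exP σ) := by
  classical
  rw [sum_perm_succ]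
  apply sum_congr rfl
  intro σ _
  unfold WP
  by_cases h : AvP (n + 1) (exP σ)
  · rw [if_pos h, ← sumP_step n (exP σ) (isP_exP σ) h f]
    apply sum_congr rfl
    intro v _
    simp only [avP_ins, h, true_and]
  · rw [if_neg h]
    apply sum_eq_zero
    intro v _
    rw [if_neg]
    rw [avP_ins]
    exact fun h' => h h'.1

theorem sumP_one (f : ℕ → ℕ → ℕ) :
    ∑ σ : Equiv.Perm (Fin 1), WP 0 f (exP σ) = f 1 1 := by
  classical
  rw [Fintype.sum_unique]
  obtain ⟨σ, hσ⟩ : ∃ σ : Equiv.Perm (Fin 1), σ = default := ⟨_, rfl⟩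
  rw [← hσ]
  have h0 : exP σ 0 = 0 := by
    have := (isP_exP σ).1 0 (by omega)
    omega
  unfold WP
  have h2 : AvP 1 (exP σ) := fun a b d _ _ hd => by omega
  have hact : ∀ u, ActP 1 (exP σ) u := fun u a b _ hb => by omega
  rw [if_pos h2]
  have h3 : HP 0 (exP σ) = {1} := by
    ext u
    rw [mem_HP, mem_singleton, h0]
    constructor
    · rintro ⟨h1, _, h3⟩
      omega
    · rintro rfl
      exact ⟨le_rfl, hact 1, by omega⟩
  have h4 : KP 0 (exP σ) = {0} := by
    ext u
    rw [mem_KP, mem_singleton, h0]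
    constructor
    · rintro ⟨_, _, h3⟩
      omega
    · rintro rfl
      exact ⟨by omega, hact 0, le_rfl⟩
  rw [h3, h4]
  rfl

theorem sumP_eq (n : ℕ) (f : ℕ → ℕ → ℕ) :
    ∑ σ : Equiv.Perm (Fin (n + 1)), WP n f (exP σ) = SB n f := by
  induction n generalizing f with
  | zero => exact sumP_one f
  | succ n ih =>
    rw [sumP_succ, ih]
    rfl

open scoped Classical in
theorem card_P (n : ℕ) :
    ((univ : Finset (Equiv.Perm (Fin (n + 1)))).filter (fun σ => AvP (n + 1) (exP σ))).card =
      SB n (fun _ _ => 1) := by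
  rw [← sumP_eq, card_filter]
  rfl

end Pool.Agent.V11170.SemiBaxter
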