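import Mathlib
import Pool.Agent.V11170.SemiBaxter

set_option autoImplicit false

/-! Small tools on permutations. -/

namespace Pool.Agent.V11170.Tools

open Finset Pool.Agent.V11170.SemiBaxter

theorem exists_perm {n : ℕ} (f : Fin n → ℕ) (hf : Function.Injective f) :
    ∃ π : Equiv.Perm (Fin n), ∀ i j, π i < π j ↔ f i < f j := by
  have hs : StrictMono (f ∘ Tuple.sort f) :=
    (Tuple.monotone_sort f).strictMono_of_injective (hf.comp (Tuple.sort f).injective)
  refine ⟨(Tuple.sort f)⁻¹, fun i j => ?_⟩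
  rw [← hs.lt_iff_lt]
  simp

theorem perm_eq_of_order {n : ℕ} (σ τ : Equiv.Perm (Fin n))
    (h : ∀ i j, σ i < σ j ↔ τ i < τ j) : σ = τ := by
  have h1 : StrictMono (fun x => τ (σ.symm x)) := by
    intro x y hxy
    show τ (σ.symm x) < τ (σ.symm y)
    rw [← h]
    simpa using hxy
  have h2 : (fun x => τ (σ.symm x)) = id := by
    rw [← h1.range_inj strictMono_id, Set.range_id]
    exact (τ.surjective.comp σ.symm.surjective).range_eq
  ext i
  have h3 := congrFun h2 (σ i)
  simp only [id, Equiv.symm_apply_apply] at h3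
  rw [h3]

theorem exP_symm {n : ℕ} (π : Equiv.Perm (Fin n)) (i : Fin n) : exP π.symm (π i) = i := by
  rw [exP_of_lt _ (π i).is_lt]
  simp

theorem exists_label {n : ℕ} (π : Equiv.Perm (Fin n)) {x : ℕ} (hx : x < n) :
    ∃ i : Fin n, (π i : ℕ) = x ∧ exP π.symm x = i := by
  refine ⟨π.symm ⟨x, hx⟩, by simp, ?_⟩
  rw [exP_of_lt _ hx]

theorem exP_inj {n : ℕ} (π : Equiv.Perm (Fin n)) {x y : ℕ} (hx : x < n) (hy : y < n)
    (hxy : x ≠ y) : exP π x ≠ exP π y := fun h => hxy ((isP_exP π).2.1 x y hx hy h)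

theorem symm_inj {n : ℕ} {σ τ : Equiv.Perm (Fin n)} (h : σ.symm = τ.symm) : σ = τ := by
  rw [← Equiv.symm_symm σ, h, Equiv.symm_symm]

/-- The number of inversions. -/
def inv {n : ℕ} (π : Equiv.Perm (Fin n)) : ℕ :=
  ((univ : Finset (Fin n × Fin n)).filter (fun p => p.1 < p.2 ∧ π p.2 < π p.1)).card

/-- The number of inversions from an order model of the positions. -/
theorem inv_eq_sum {n : ℕ} (π : Equiv.Perm (Fin n)) (key : ℕ → ℕ)
    (h : ∀ i j : Fin n, π.symm i < π.symm j ↔ key i < key j) : inv π =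
    ∑ x ∈ range n, ∑ y ∈ range n, if key x < key y ∧ y < x then 1 else 0 := by
  unfold inv
  have h1 : ((univ : Finset (Fin n × Fin n)).filter
      (fun p => p.1 < p.2 ∧ π p.2 < π p.1)).card =
      ((univ : Finset (Fin n × Fin n)).filter
      (fun p => key p.1 < key p.2 ∧ (p.2 : ℕ) < p.1)).card := by
    apply card_bij (fun p _ => (π p.1, π p.2))
    · rintro ⟨i, j⟩ hij
      rw [mem_filter] at hij ⊢
      refine ⟨mem_univ _, ?_, hij.2.2⟩
      rw [← h]
      simpa using hij.2.1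
    · rintro ⟨i, j⟩ _ ⟨i', j'⟩ _ hij
      simp only [Prod.mk.injEq, EmbeddingLike.apply_eq_iff_eq] at hij
      rw [hij.1, hij.2]
    · rintro ⟨x, y⟩ hxy
      rw [mem_filter] at hxy
      refine ⟨(π.symm x, π.symm y), ?_, by simp⟩
      rw [mem_filter]
      refine ⟨mem_univ _, (h x y).mpr hxy.2.1, ?_⟩
      simpa using hxy.2.2
  rw [h1, card_filter, Fintype.sum_prod_type,
    ← Fin.sum_univ_eq_sum_range (fun x => ∑ y ∈ range n,
      if key x < key y ∧ y < x then 1 else 0)]
  apply sum_congr rfl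
  intro x _
  rw [← Fin.sum_univ_eq_sum_range (fun y => if key x < key y ∧ y < (x : ℕ) then 1 else 0)]

end Pool.Agent.V11170.Tools
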