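import Mathlib
import Pool.Agent.V11170.Tools

set_option autoImplicit false

/-! Major index generating functions on ballot words, and linear extensions of two-chain posets. -/

namespace Pool.Agent.V11170.CatalanMaj

open Finset Pool.Agent.V11170.SemiBaxter Pool.Agent.V11170.Tools

section QBinomial

variable {K : Type*} [CommRing K]

/-- Gaussian binomial coefficients `[a + b choose b]_q`. -/
def u (q : K) : ℕ → ℕ → K
  | _, 0 => 1
  | 0, _ + 1 => 1
  | a + 1, b + 1 => u q (a + 1) b + q ^ (b + 1) * u q a (b + 1)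

theorem u_zero_right (q : K) (a : ℕ) : u q a 0 = 1 := by
  cases a <;> rw [u]

theorem u_zero_left (q : K) (b : ℕ) : u q 0 b = 1 := by
  cases b <;> rw [u]

theorem u_succ (q : K) (a b : ℕ) :
    u q (a + 1) (b + 1) = u q (a + 1) b + q ^ (b + 1) * u q a (b + 1) := by
  rw [u]

theorem u_main (q : K) : ∀ n a b, a + b = n →
    u q (a + 1) (b + 1) = q ^ (a + 1) * u q (a + 1) b + u q a (b + 1) ∧
    (1 - q ^ (a + 1)) * u q (a + 1) b = (1 - q ^ (a + b + 1)) * u q a b ∧
    (1 - q ^ (b + 1)) * u q a (b + 1) = (1 - q ^ (a + b + 1)) * u q a b := by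
  intro n
  induction n with
  | zero =>
    intro a b hab
    obtain ⟨rfl, rfl⟩ : a = 0 ∧ b = 0 := by omega
    refine ⟨?_, ?_, ?_⟩
    · rw [u_succ, u_zero_right, u_zero_left]
      ring
    · rw [u_zero_right, u_zero_right]
    · rw [u_zero_left, u_zero_left]
  | succ n ih =>
    intro a b hab
    have h2 : (1 - q ^ (a + 1)) * u q (a + 1) b = (1 - q ^ (a + b + 1)) * u q a b := by
      cases b with
      | zero => rw [u_zero_right, u_zero_right, Nat.add_zero]
      | succ b =>
        rw [u_succ]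
        obtain ⟨e1, e2, e3⟩ := ih a b (by omega)
        have e4 : (1 - q ^ (a + 1)) * (u q (a + 1) b + q ^ (b + 1) * u q a (b + 1)) =
            (1 - q ^ (a + 1)) * u q (a + 1) b + (q ^ (b + 1) - q ^ (a + 1 + (b + 1))) *
              u q a (b + 1) := by
          ring
        rw [e4, e2, ← e3]
        ring
    have h3 : (1 - q ^ (b + 1)) * u q a (b + 1) = (1 - q ^ (a + b + 1)) * u q a b := by
      cases a with
      | zero => rw [u_zero_left, u_zero_left, Nat.zero_add]
      | succ a =>
        obtain ⟨e1, e2, e3⟩ := ih a b (by omega)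
        rw [e1]
        have e4 : (1 - q ^ (b + 1)) * (q ^ (a + 1) * u q (a + 1) b + u q a (b + 1)) =
            (q ^ (a + 1) - q ^ (a + 1 + (b + 1))) * u q (a + 1) b +
              (1 - q ^ (b + 1)) * u q a (b + 1) := by
          ring
        rw [e4, e3, ← e2]
        ring
    refine ⟨?_, h2, h3⟩
    rw [u_succ]
    have e5 : (1 - q ^ (a + 1)) * u q (a + 1) b = (1 - q ^ (b + 1)) * u q a (b + 1) := by
      rw [h2, h3]
    linear_combination e5

theorem u_pascal (q : K) (a b : ℕ) :
    u q (a + 1) (b + 1) = q ^ (a + 1) * u q (a + 1) b + u q a (b + 1) :=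
  (u_main q _ a b rfl).1

theorem u_left (q : K) (a b : ℕ) :
    (1 - q ^ (a + 1)) * u q (a + 1) b = (1 - q ^ (a + b + 1)) * u q a b :=
  (u_main q _ a b rfl).2.1

theorem u_right (q : K) (a b : ℕ) :
    (1 - q ^ (b + 1)) * u q a (b + 1) = (1 - q ^ (a + b + 1)) * u q a b :=
  (u_main q _ a b rfl).2.2

theorem u_symm (q : K) : ∀ n a b, a + b = n → u q a b = u q b a := by
  intro n
  induction n with
  | zero =>
    intro a b hab
    obtain ⟨rfl, rfl⟩ : a = 0 ∧ b = 0 := by omega
    rfl
  | succ n ih =>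
    intro a b hab
    cases a with
    | zero => rw [u_zero_left, u_zero_right]
    | succ a =>
      cases b with
      | zero => rw [u_zero_left, u_zero_right]
      | succ b =>
        rw [u_succ, u_pascal, ih (a + 1) b (by omega), ih a (b + 1) (by omega)]
        ring

/-- The shifted coefficient `[a + b choose b - 1]_q`. -/
def u' (q : K) (a : ℕ) : ℕ → K
  | 0 => 0
  | b + 1 => u q (a + 1) b

/-- The common recurrence of `u` and `u'`. -/
theorem u_rec (q : K) (a b : ℕ) : u q (a + 1) (b + 1) = u q a (b + 1) + u q (a + 1) b +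
    (q ^ (a + b + 1) - 1) * u q a b := by
  have h1 := u_pascal q a b
  have h2 := u_left q a b
  linear_combination h1 - h2

theorem u'_rec (q : K) (a b : ℕ) : u' q (a + 1) (b + 1) = u' q a (b + 1) + u' q (a + 1) b +
    (q ^ (a + b + 1) - 1) * u' q a b := by
  cases b with
  | zero =>
    simp only [u', u_zero_right]
    ring
  | succ b =>
    have h1 := u_rec q (a + 1) b
    simp only [u']
    rw [h1, show a + 1 + b + 1 = a + (b + 1) + 1 by ring]

/-- Closed form for valleys. -/
def cf (q : K) (a b : ℕ) : K := u q a b - q * u' q a b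

/-- Closed form for peaks. -/
def cg (q : K) (a b : ℕ) : K := q ^ b * u q a b - q ^ (a + 1) * u' q a b

theorem cf_rec (q : K) (a b : ℕ) : cf q (a + 1) (b + 1) = cf q a (b + 1) + cf q (a + 1) b +
    (q ^ (a + b + 1) - 1) * cf q a b := by
  unfold cf
  rw [u_rec, u'_rec]
  ring

theorem cf_diag (q : K) (a : ℕ) : cf q (a + 1) (a + 1) = cf q (a + 1) a := by
  unfold cf
  cases a with
  | zero =>
    simp only [u', u_zero_right]
    rw [u_succ, u_zero_right, u_zero_left]
    ring
  | succ a =>
    simp only [u']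
    have h1 := u_succ q (a + 1) (a + 1)
    have h2 := u_succ q (a + 2) a
    have h3 := u_symm q _ (a + 1) (a + 2) rfl
    have h4 : u q (a + 1 + 1) (a + 1) = u q (a + 2) (a + 1) := rfl
    rw [show a + 1 + 1 = a + 2 from rfl] at *
    rw [h1, h2]
    rw [h3]
    ring

theorem cg_zero (q : K) (a : ℕ) : cg q a (a + 1) = 0 := by
  unfold cg
  simp only [u']
  rw [u_symm q _ a (a + 1) rfl]
  ring

theorem cg_rec (q : K) (a b : ℕ) : cg q (a + 1) (b + 1) = cg q a (b + 1) + cg q (a + 1) b +
    (q ^ (a + b + 1) - 1) * cg q a b := by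
  unfold cg
  cases b with
  | zero =>
    simp only [u', u_zero_right]
    have h1 := u_pascal q a 0
    rw [u_zero_right] at h1
    rw [h1]
    ring
  | succ b =>
    simp only [u']
    have h1 := u_pascal q a (b + 1)
    have h2 := u_succ q (a + 1) b
    have h3 := u_left q a (b + 1)
    have h4 := u_right q (a + 1) b
    linear_combination q ^ (b + 2) * h1 - q ^ (b + 1) * h3 - q ^ (a + 2) * h2 + q ^ (a + 1) * h4

end QBinomial

section Palindrome

variable {K : Type*} [Field K]

theorem u_inv (q : K) (hq : q ≠ 0) : ∀ n a b, a + b = n → q ^ (a * b) * u q⁻¹ a b = u q a b := by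
  intro n
  induction n with
  | zero =>
    intro a b hab
    obtain ⟨rfl, rfl⟩ : a = 0 ∧ b = 0 := by omega
    rw [u_zero_right, u_zero_right]
    simp
  | succ n ih =>
    intro a b hab
    cases a with
    | zero => rw [u_zero_left, u_zero_left]; simp
    | succ a =>
      cases b with
      | zero => rw [u_zero_right, u_zero_right]; simp
      | succ b =>
        rw [u_succ, u_pascal q, ← ih (a + 1) b (by omega), ← ih a (b + 1) (by omega), inv_pow]
        have h1 : q ^ ((a + 1) * (b + 1)) = q ^ (a + 1) * q ^ ((a + 1) * b) := by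
          rw [← pow_add]
          congr 1
          ring
        have h2 : q ^ ((a + 1) * (b + 1)) * (q ^ (b + 1))⁻¹ = q ^ (a * (b + 1)) := by
          have h3 : q ^ ((a + 1) * (b + 1)) = q ^ (a * (b + 1)) * q ^ (b + 1) := by
            rw [← pow_add]
            congr 1
            ring
          rw [h3, mul_assoc, mul_inv_cancel₀ (pow_ne_zero _ hq), mul_one]
        calc q ^ ((a + 1) * (b + 1)) * (u q⁻¹ (a + 1) b + (q ^ (b + 1))⁻¹ * u q⁻¹ a (b + 1))
            = q ^ ((a + 1) * (b + 1)) * u q⁻¹ (a + 1) b +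
              (q ^ ((a + 1) * (b + 1)) * (q ^ (b + 1))⁻¹) * u q⁻¹ a (b + 1) := by ring
          _ = _ := by
            rw [h2, h1]
            ring

/-- `q^{n^2} c_n(1/q) = q^n c_n(q)`. -/
theorem cf_palindrome (q : K) (hq : q ≠ 0) (n : ℕ) :
    q ^ (n ^ 2) * cf q⁻¹ n n = q ^ n * cf q n n := by
  unfold cf
  cases n with
  | zero =>
    simp only [u', u_zero_right]
    simp
  | succ n =>
    simp only [u']
    have h1 := u_inv q hq _ (n + 1) (n + 1) rfl
    have h2 := u_inv q hq _ (n + 1 + 1) n rfl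
    have h3 := u_left q (n + 1) n
    have h4 := u_right q (n + 1) n
    have h5 : q ^ ((n + 1) ^ 2) = q ^ ((n + 1) * (n + 1)) := by
      congr 1
      ring
    have h6 : q ^ ((n + 1) ^ 2) = q ^ ((n + 1 + 1) * n) * q := by
      rw [← pow_succ]
      congr 1
      ring
    have h7 : q ^ ((n + 1) ^ 2) * (u q⁻¹ (n + 1) (n + 1) - q⁻¹ * u q⁻¹ (n + 1 + 1) n) =
        q ^ ((n + 1) ^ 2) * u q⁻¹ (n + 1) (n + 1) -
          q ^ ((n + 1) ^ 2) * q⁻¹ * u q⁻¹ (n + 1 + 1) n := by
      ring
    have h8 : q ^ ((n + 1) ^ 2) * q⁻¹ = q ^ ((n + 1 + 1) * n) := by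
      rw [h6, mul_assoc, mul_inv_cancel₀ hq, mul_one]
    rw [h7, h8, h2, h5, h1]
    linear_combination h4 - h3

theorem cg_diag (q : K) (n : ℕ) : cg q n n = q ^ n * cf q n n := by
  unfold cg cf
  ring

end Palindrome

/-! ### words -/

/-- Words with letters `0, 1` of length `m`. -/
def TB (m : ℕ) : Finset (Fin m → ℕ) := Fintype.piFinset (fun _ => range 2)

theorem mem_TB {m : ℕ} {e : Fin m → ℕ} : e ∈ TB m ↔ ∀ i, e i < 2 := by
  unfold TB
  rw [Fintype.mem_piFinset]
  simp only [mem_range]

theorem sum_TB_succ {M : Type*} [AddCommMonoid M] (n : ℕ) (F : (ℕ → ℕ) → M) :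
    ∑ e ∈ TB (n + 1), F (ex e) = ∑ e ∈ TB n, (F (app n 0 (ex e)) + F (app n 1 (ex e))) := by
  have h1 : ∀ e ∈ TB n, F (app n 0 (ex e)) + F (app n 1 (ex e)) =
      ∑ v ∈ range 2, F (app n v (ex e)) := by
    intro e _
    rw [sum_range_succ, sum_range_one]
  rw [sum_congr rfl h1, ← sum_product']
  apply sum_nbij' (fun e => ((fun i : Fin n => e i.castSucc, e (Fin.last n)) : (Fin n → ℕ) × ℕ))
    (fun p => (Fin.snoc p.1 p.2 : Fin (n + 1) → ℕ))
  · intro e he
    rw [mem_TB] at he
    rw [mem_product, mem_TB, mem_range]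
    exact ⟨fun i => he i.castSucc, he (Fin.last n)⟩
  · intro p hp
    rw [mem_product, mem_TB, mem_range] at hp
    rw [mem_TB]
    intro i
    refine Fin.lastCases ?_ (fun i => ?_) i
    · rw [Fin.snoc_last]
      exact hp.2
    · rw [Fin.snoc_castSucc]
      exact hp.1 i
  · intro e _
    funext i
    refine Fin.lastCases ?_ (fun i => ?_) i
    · simp
    · simp
  · intro p _
    simp
  · intro e _
    congr 1
    show ex e = app n (e (Fin.last n)) (ex (fun i : Fin n => e i.castSucc))
    rw [← ex_snoc]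
    congr 1
    funext i
    refine Fin.lastCases ?_ (fun i => ?_) i
    · simp
    · simp

/-- The number of ones among the first `m` letters. -/
def ones (m : ℕ) (w : ℕ → ℕ) : ℕ := ∑ i ∈ range m, w i

/-- Ballot words. -/
def Valid (m : ℕ) (w : ℕ → ℕ) : Prop := ∀ i ∈ range (m + 1), 2 * ones i w ≤ i

instance (m : ℕ) (w : ℕ → ℕ) : Decidable (Valid m w) := by
  unfold Valid
  infer_instance

theorem ones_succ (m : ℕ) (w : ℕ → ℕ) : ones (m + 1) w = ones m w + w m := sum_range_succ _ _

theorem ones_app {i m v : ℕ} {w : ℕ → ℕ} (h : i ≤ m) : ones i (app m v w) = ones i w := by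
  unfold ones
  apply sum_congr rfl
  intro j hj
  rw [mem_range] at hj
  rw [app_lt (by omega)]

theorem ones_app_succ (m v : ℕ) (w : ℕ → ℕ) : ones (m + 1) (app m v w) = ones m w + v := by
  rw [ones_succ, ones_app le_rfl, app_self]

theorem valid_app {m v : ℕ} {w : ℕ → ℕ} :
    Valid (m + 1) (app m v w) ↔ Valid m w ∧ 2 * (ones m w + v) ≤ m + 1 := by
  unfold Valid
  constructor
  · intro h
    refine ⟨fun i hi => ?_, ?_⟩
    · rw [mem_range] at hi
      have := h i (by rw [mem_range]; omega)
      rwa [ones_app (by omega)] at this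
    · have := h (m + 1) (by rw [mem_range]; omega)
      rwa [ones_app_succ] at this
  · rintro ⟨h1, h2⟩ i hi
    rw [mem_range] at hi
    rcases Nat.lt_succ_iff_lt_or_eq.mp hi with h | h
    · rw [ones_app (by omega)]
      exact h1 i (by rw [mem_range]; omega)
    · rw [h, ones_app_succ]
      exact h2

theorem valid_top {m : ℕ} {w : ℕ → ℕ} (h : Valid m w) : 2 * ones m w ≤ m :=
  h m (by rw [mem_range]; omega)

/-- A statistic: the sum of the positions `i` such that the condition `c` holds for the height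
data `ones i`, and the letters at positions `i` and `i + 1`. -/
def st (c : ℕ → ℕ → ℕ → ℕ → Prop) [∀ i a x y, Decidable (c i a x y)] (m : ℕ) (w : ℕ → ℕ) : ℕ :=
  ∑ i ∈ range (m - 1), if c (i + 1) (ones (i + 1) w) (w i) (w (i + 1)) then i + 1 else 0

theorem st_app_succ (c : ℕ → ℕ → ℕ → ℕ → Prop) [∀ i a x y, Decidable (c i a x y)] (m v : ℕ)
    (w : ℕ → ℕ) : st c (m + 2) (app (m + 1) v w) = st c (m + 1) w +
      if c (m + 1) (ones (m + 1) w) (w m) v then m + 1 else 0 := by
  unfold st
  rw [show m + 2 - 1 = m + 1 by omega, show m + 1 - 1 = m by omega, sum_range_succ, app_self,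
    app_lt (show m < m + 1 by omega), ones_app le_rfl]
  congr 1
  apply sum_congr rfl
  intro i hi
  rw [mem_range] at hi
  rw [app_lt (show i < m + 1 by omega), app_lt (show i + 1 < m + 1 by omega),
    ones_app (show i + 1 ≤ m + 1 by omega)]

/-- Valleys: a one followed by a zero. -/
def cV (_ _ x y : ℕ) : Prop := x = 1 ∧ y = 0
/-- Peaks: a zero followed by a one. -/
def cP (_ _ x y : ℕ) : Prop := x = 0 ∧ y = 1
/-- High peaks: peaks of height at least two. -/
def cH (i a x y : ℕ) : Prop := x = 0 ∧ y = 1 ∧ 2 * a + 2 ≤ i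

instance (i a x y : ℕ) : Decidable (cV i a x y) := by unfold cV; infer_instance
instance (i a x y : ℕ) : Decidable (cP i a x y) := by unfold cP; infer_instance
instance (i a x y : ℕ) : Decidable (cH i a x y) := by unfold cH; infer_instance

section Sums

variable {K : Type*} [CommRing K]

/-- Generating function of a statistic over ballot words of length `m` with `b` ones. -/
def gf (c : ℕ → ℕ → ℕ → ℕ → Prop) [∀ i a x y, Decidable (c i a x y)] (q : K) (m b : ℕ) : K :=
  ∑ e ∈ TB m, if Valid m (ex e) ∧ ones m (ex e) = b then q ^ st c m (ex e) else 0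

/-- The same over words of length `m + 1` with last letter `x`. -/
def gl (c : ℕ → ℕ → ℕ → ℕ → Prop) [∀ i a x y, Decidable (c i a x y)] (q : K) (m b x : ℕ) : K :=
  ∑ e ∈ TB (m + 1), if Valid (m + 1) (ex e) ∧ ones (m + 1) (ex e) = b ∧ ex e m = x then
    q ^ st c (m + 1) (ex e) else 0

theorem gf_zero_of_lt (c : ℕ → ℕ → ℕ → ℕ → Prop) [∀ i a x y, Decidable (c i a x y)] (q : K)
    {m b : ℕ} (h : m < 2 * b) : gf c q m b = 0 := by
  unfold gf
  apply sum_eq_zero
  intro e _
  rw [if_neg]
  rintro ⟨h1, h2⟩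
  have := valid_top h1
  omega

theorem letter {m : ℕ} {e : Fin (m + 1) → ℕ} (he : e ∈ TB (m + 1)) : ex e m = 0 ∨ ex e m = 1 := by
  rw [mem_TB] at he
  rw [ex_of_lt e (by omega)]
  have := he ⟨m, by omega⟩
  omega

/-- Splitting the words of length `m + 2` by the last letter. -/
theorem gf_split (c : ℕ → ℕ → ℕ → ℕ → Prop) [∀ i a x y, Decidable (c i a x y)] (q : K) (m b : ℕ) :
    gf c q (m + 2) b =
      (∑ e ∈ TB (m + 1), if (Valid (m + 1) (ex e) ∧ 2 * ones (m + 1) (ex e) ≤ m + 2) ∧
          ones (m + 1) (ex e) = b then q ^ (st c (m + 1) (ex e) +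
            if c (m + 1) (ones (m + 1) (ex e)) (ex e m) 0 then m + 1 else 0) else 0) +
      ∑ e ∈ TB (m + 1), if (Valid (m + 1) (ex e) ∧ 2 * (ones (m + 1) (ex e) + 1) ≤ m + 2) ∧
          ones (m + 1) (ex e) + 1 = b then q ^ (st c (m + 1) (ex e) +
            if c (m + 1) (ones (m + 1) (ex e)) (ex e m) 1 then m + 1 else 0) else 0 := by
  unfold gf
  rw [sum_TB_succ (m + 1) (fun w => if Valid (m + 2) w ∧ ones (m + 2) w = b then
    q ^ st c (m + 2) w else 0), sum_add_distrib]
  congr 1
  · apply sum_congr rfl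
    intro e _
    simp only [valid_app, ones_app_succ, st_app_succ, Nat.add_zero]
  · apply sum_congr rfl
    intro e _
    simp only [valid_app, ones_app_succ, st_app_succ]

theorem gf_b_zero (c : ℕ → ℕ → ℕ → ℕ → Prop) [∀ i a x y, Decidable (c i a x y)] (q : K)
    (hc : ∀ i a, ¬ c i a 0 0) : ∀ m, gf c q m 0 = 1 := by
  have h0 : gf c q 0 0 = 1 := by
    have h1 : TB 0 = {fun i => i.elim0} := by
      ext e
      rw [mem_TB, mem_singleton]
      exact ⟨fun _ => Subsingleton.elim _ _, fun _ i => i.elim0⟩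
    unfold gf
    rw [h1, sum_singleton, if_pos]
    · exact pow_zero q
    · constructor
      · intro i hi
        rw [mem_range] at hi
        obtain rfl : i = 0 := by omega
        exact Nat.zero_le _
      · rfl
  have h1 : gf c q 1 0 = 1 := by
    rw [← h0]
    unfold gf
    rw [sum_TB_succ 0 (fun w => if Valid 1 w ∧ ones 1 w = 0 then q ^ st c 1 w else 0)]
    apply sum_congr rfl
    intro e _
    simp only [valid_app, ones_app_succ]
    have e1 : ones 0 (ex e) = 0 := rfl
    have e2 : ∀ w, st c 1 w = 0 := fun _ => rfl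
    have e3 : st c 0 (ex e) = 0 := rfl
    simp only [e1, e2, e3]
    simp
  intro m
  cases m with
  | zero => exact h0
  | succ m =>
    induction m with
    | zero => exact h1
    | succ m ih =>
      rw [gf_split]
      have e1 : (∑ e ∈ TB (m + 1), if (Valid (m + 1) (ex e) ∧
          2 * (ones (m + 1) (ex e) + 1) ≤ m + 2) ∧
          ones (m + 1) (ex e) + 1 = 0 then q ^ (st c (m + 1) (ex e) +
            if c (m + 1) (ones (m + 1) (ex e)) (ex e m) 1 then m + 1 else 0) else 0) = 0 := by
        apply sum_eq_zero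
        intro e _
        rw [if_neg]
        omega
      rw [e1, add_zero, ← ih]
      unfold gf
      apply sum_congr rfl
      intro e he
      by_cases h : Valid (m + 1) (ex e) ∧ ones (m + 1) (ex e) = 0
      · rw [if_pos h, if_pos ⟨⟨h.1, by omega⟩, h.2⟩]
        have h2 : ex e m = 0 := by
          have := ones_succ m (ex e)
          omega
        rw [h2, if_neg (hc _ _), Nat.add_zero]
      · rw [if_neg h, if_neg (fun h' => h ⟨h'.1.1, h'.2⟩)]

theorem gl_V (q : K) (m b : ℕ) :
    gl cV q m (b + 1) 1 = if 2 * (b + 1) ≤ m + 1 then gf cV q m b else 0 := by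
  unfold gl gf
  rw [sum_TB_succ m (fun w => if Valid (m + 1) w ∧ ones (m + 1) w = b + 1 ∧ w m = 1 then
    q ^ st cV (m + 1) w else 0)]
  simp only [app_self, valid_app, ones_app_succ]
  have hst : ∀ w, st cV (m + 1) (app m 1 w) = st cV m w := by
    intro w
    cases m with
    | zero => rfl
    | succ m =>
      rw [st_app_succ, if_neg, Nat.add_zero]
      unfold cV
      omega
  simp only [hst]
  by_cases hb : 2 * (b + 1) ≤ m + 1
  · rw [if_pos hb]
    apply sum_congr rfl
    intro e _
    rw [if_neg (by omega), zero_add]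
    by_cases h : Valid m (ex e) ∧ ones m (ex e) = b
    · rw [if_pos h, if_pos ⟨⟨h.1, by omega⟩, by omega, trivial⟩]
    · rw [if_neg h, if_neg (fun h' => h ⟨h'.1.1, by omega⟩)]
  · rw [if_neg hb]
    apply sum_eq_zero
    intro e _
    rw [if_neg (by omega), if_neg (by omega), add_zero]

theorem gl_PH (c : ℕ → ℕ → ℕ → ℕ → Prop) [∀ i a x y, Decidable (c i a x y)]
    (hc : ∀ i a x, ¬ c i a x 0) (q : K) (m b : ℕ) :
    gl c q m b 0 = gf c q m b := by
  unfold gl gf
  rw [sum_TB_succ m (fun w => if Valid (m + 1) w ∧ ones (m + 1) w = b ∧ w m = 0 then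
    q ^ st c (m + 1) w else 0)]
  simp only [app_self, valid_app, ones_app_succ]
  have hst : ∀ w, st c (m + 1) (app m 0 w) = st c m w := by
    intro w
    cases m with
    | zero => rfl
    | succ m =>
      rw [st_app_succ, if_neg (hc _ _ _), Nat.add_zero]
  simp only [hst]
  apply sum_congr rfl
  intro e _
  rw [if_neg (show ¬ ((Valid m (ex e) ∧ 2 * (ones m (ex e) + 1) ≤ m + 1) ∧
    ones m (ex e) + 1 = b ∧ 1 = 0) by omega), add_zero]
  by_cases h : Valid m (ex e) ∧ ones m (ex e) = b
  · have := valid_top h.1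
    rw [if_pos h, if_pos ⟨⟨h.1, by omega⟩, by omega, trivial⟩]
  · rw [if_neg h, if_neg (fun h' => h ⟨h'.1.1, by omega⟩)]

theorem gf_V_rec (q : K) (m b : ℕ) (hb : 2 * (b + 1) ≤ m + 2) :
    gf cV q (m + 2) (b + 1) = gf cV q (m + 1) (b + 1) + gf cV q (m + 1) b +
      (q ^ (m + 1) - 1) * if 2 * (b + 1) ≤ m + 1 then gf cV q m b else 0 := by
  rw [gf_split, ← gl_V, add_right_comm]
  congr 1
  · unfold gf gl
    rw [mul_sum, ← sum_add_distrib]
    apply sum_congr rfl
    intro e he
    by_cases h : Valid (m + 1) (ex e) ∧ ones (m + 1) (ex e) = b + 1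
    · have h3 := valid_top h.1
      rw [if_pos h, if_pos ⟨⟨h.1, by omega⟩, h.2⟩]
      rcases letter he with h1 | h1
      · rw [if_neg (by unfold cV; omega), if_neg (by omega)]
        simp
      · rw [if_pos (by unfold cV; omega), if_pos ⟨h.1, h.2, h1⟩, pow_add]
        ring
    · rw [if_neg h, if_neg (fun h' => h ⟨h'.1.1, h'.2⟩), if_neg (fun h' => h ⟨h'.1, h'.2.1⟩)]
      simp
  · unfold gf
    apply sum_congr rfl
    intro e _
    by_cases h : Valid (m + 1) (ex e) ∧ ones (m + 1) (ex e) = b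
    · rw [if_pos h, if_pos ⟨⟨h.1, by omega⟩, by omega⟩, if_neg (by unfold cV; omega),
        Nat.add_zero]
    · rw [if_neg h, if_neg (fun h' => h ⟨h'.1.1, by omega⟩)]

theorem gf_P_rec (q : K) (m b : ℕ) (hb : 2 * (b + 1) ≤ m + 2) :
    gf cP q (m + 2) (b + 1) = gf cP q (m + 1) (b + 1) + gf cP q (m + 1) b +
      (q ^ (m + 1) - 1) * gf cP q m b := by
  rw [gf_split, ← gl_PH cP (fun i a x => by unfold cP; omega) q m b, add_assoc]
  congr 1
  · unfold gf
    apply sum_congr rfl
    intro e _
    by_cases h : Valid (m + 1) (ex e) ∧ ones (m + 1) (ex e) = b + 1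
    · have h3 := valid_top h.1
      rw [if_pos h, if_pos ⟨⟨h.1, by omega⟩, by omega⟩, if_neg (by unfold cP; omega),
        Nat.add_zero]
    · rw [if_neg h, if_neg (fun h' => h ⟨h'.1.1, by omega⟩)]
  · unfold gf gl
    rw [mul_sum, ← sum_add_distrib]
    apply sum_congr rfl
    intro e he
    by_cases h : Valid (m + 1) (ex e) ∧ ones (m + 1) (ex e) = b
    · rw [if_pos h, if_pos ⟨⟨h.1, by omega⟩, by omega⟩]
      rcases letter he with h1 | h1
      · rw [if_pos (by unfold cP; omega), if_pos ⟨h.1, h.2, h1⟩, pow_add]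
        ring
      · rw [if_neg (by unfold cP; omega), if_neg (by omega)]
        simp
    · rw [if_neg h, if_neg (fun h' => h ⟨h'.1.1, by omega⟩), if_neg (fun h' => h ⟨h'.1, h'.2.1⟩)]
      simp

theorem gf_H_rec (q : K) (m b : ℕ) (hb : 2 * (b + 1) ≤ m + 2) :
    gf cH q (m + 2) (b + 1) = gf cH q (m + 1) (b + 1) + gf cH q (m + 1) b +
      (q ^ (m + 1) - 1) * if 2 * (b + 1) ≤ m + 1 then gf cH q m b else 0 := by
  rw [gf_split, ← gl_PH cH (fun i a x => by unfold cH; omega) q m b, add_assoc]
  congr 1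
  · unfold gf
    apply sum_congr rfl
    intro e _
    by_cases h : Valid (m + 1) (ex e) ∧ ones (m + 1) (ex e) = b + 1
    · have h3 := valid_top h.1
      rw [if_pos h, if_pos ⟨⟨h.1, by omega⟩, by omega⟩, if_neg (by unfold cH; omega),
        Nat.add_zero]
    · rw [if_neg h, if_neg (fun h' => h ⟨h'.1.1, by omega⟩)]
  · by_cases hb' : 2 * (b + 1) ≤ m + 1
    · rw [if_pos hb']
      unfold gf gl
      rw [mul_sum, ← sum_add_distrib]
      apply sum_congr rfl
      intro e he
      by_cases h : Valid (m + 1) (ex e) ∧ ones (m + 1) (ex e) = b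
      · rw [if_pos h, if_pos ⟨⟨h.1, by omega⟩, by omega⟩]
        rcases letter he with h1 | h1
        · rw [if_pos (by unfold cH; omega), if_pos ⟨h.1, h.2, h1⟩, pow_add]
          ring
        · rw [if_neg (by unfold cH; omega), if_neg (by omega)]
          simp
      · rw [if_neg h, if_neg (fun h' => h ⟨h'.1.1, by omega⟩),
          if_neg (fun h' => h ⟨h'.1, h'.2.1⟩)]
        simp
    · rw [if_neg hb', mul_zero, add_zero]
      unfold gf
      apply sum_congr rfl
      intro e he
      by_cases h : Valid (m + 1) (ex e) ∧ ones (m + 1) (ex e) = b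
      · rw [if_pos h, if_pos ⟨⟨h.1, by omega⟩, by omega⟩, if_neg (by unfold cH; omega),
          Nat.add_zero]
      · rw [if_neg h, if_neg (fun h' => h ⟨h'.1.1, by omega⟩)]

/-- Solving the recurrence of valleys and high peaks. -/
theorem closed_cf (q : K) (G : ℕ → ℕ → K) (h0 : ∀ m, G m 0 = 1) (hz : ∀ m b, m < 2 * b → G m b = 0)
    (hr : ∀ m b, 2 * (b + 1) ≤ m + 2 → G (m + 2) (b + 1) = G (m + 1) (b + 1) + G (m + 1) b +
      (q ^ (m + 1) - 1) * if 2 * (b + 1) ≤ m + 1 then G m b else 0) :
    ∀ n a b, a + b = n → b ≤ a → G n b = cf q a b := by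
  intro n
  induction n using Nat.strong_induction_on with
  | _ n ih =>
    intro a b hab hba
    cases b with
    | zero =>
      rw [h0]
      unfold cf
      rw [u_zero_right]
      simp [u']
    | succ b =>
      obtain ⟨a, rfl⟩ : ∃ a', a = a' + 1 := ⟨a - 1, by omega⟩
      obtain ⟨m, rfl⟩ : ∃ m, n = m + 2 := ⟨n - 2, by omega⟩
      rw [hr m b (by omega)]
      by_cases h : 2 * (b + 1) ≤ m + 1
      · rw [if_pos h, ih (m + 1) (by omega) a (b + 1) (by omega) (by omega),
          ih (m + 1) (by omega) (a + 1) b (by omega) (by omega),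
          ih m (by omega) a b (by omega) (by omega), cf_rec,
          show m + 1 = a + b + 1 by omega]
      · have hab' : a = b := by omega
        subst hab'
        rw [if_neg h, mul_zero, add_zero, hz (m + 1) (a + 1) (by omega), zero_add,
          ih (m + 1) (by omega) (a + 1) a (by omega) (by omega), cf_diag]

theorem gf_V (q : K) (n : ℕ) : gf cV q (2 * n) n = cf q n n :=
  closed_cf q (gf cV q) (gf_b_zero cV q (fun i a => by unfold cV; omega))
    (fun m b h => gf_zero_of_lt cV q h) (gf_V_rec q) (2 * n) n n (by omega) le_rfl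

theorem gf_H (q : K) (n : ℕ) : gf cH q (2 * n) n = cf q n n :=
  closed_cf q (gf cH q) (gf_b_zero cH q (fun i a => by unfold cH; omega))
    (fun m b h => gf_zero_of_lt cH q h) (gf_H_rec q) (2 * n) n n (by omega) le_rfl

theorem closed_cg (q : K) : ∀ n a b, a + b = n → b ≤ a → gf cP q n b = cg q a b := by
  intro n
  induction n using Nat.strong_induction_on with
  | _ n ih =>
    intro a b hab hba
    cases b with
    | zero =>
      rw [gf_b_zero cP q (fun i a => by unfold cP; omega)]
      unfold cg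
      rw [u_zero_right]
      simp [u']
    | succ b =>
      obtain ⟨a, rfl⟩ : ∃ a', a = a' + 1 := ⟨a - 1, by omega⟩
      obtain ⟨m, rfl⟩ : ∃ m, n = m + 2 := ⟨n - 2, by omega⟩
      have h1 : gf cP q (m + 1) (b + 1) = cg q a (b + 1) := by
        by_cases h : b + 1 ≤ a
        · exact ih (m + 1) (by omega) a (b + 1) (by omega) h
        · have hab' : a = b := by omega
          subst hab'
          rw [cg_zero, gf_zero_of_lt cP q (by omega)]
      rw [gf_P_rec q m b (by omega), h1,
        ih (m + 1) (by omega) (a + 1) b (by omega) (by omega),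
        ih m (by omega) a b (by omega) (by omega), cg_rec, show m + 1 = a + b + 1 by omega]

theorem gf_P (q : K) (n : ℕ) : gf cP q (2 * n) n = q ^ n * cf q n n := by
  rw [closed_cg q (2 * n) n n (by omega) le_rfl]
  unfold cg cf
  ring

end Sums

/-! ### linear extensions of two-chain posets -/

/-- Catalan words of length `2n`. -/
def CW (n : ℕ) : Finset (Fin (2 * n) → ℕ) :=
  (TB (2 * n)).filter (fun e => Valid (2 * n) (ex e) ∧ ones (2 * n) (ex e) = n)

/-- Labels of the two chains. -/
structure Labels (n : ℕ) (A B : ℕ → ℕ) : Prop where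
  lt : ∀ k, k < n → A k < 2 * n ∧ B k < 2 * n
  antiA : ∀ k k', k < k' → k' < n → A k' < A k
  antiB : ∀ k k', k < k' → k' < n → B k' < B k
  ne : ∀ k k', k < n → k' < n → A k ≠ B k'
  cov : ∀ x, x < 2 * n → (∃ k, k < n ∧ x = A k) ∨ ∃ k, k < n ∧ x = B k

/-- Linear extensions, in terms of the positions of the labels. -/
def LE (n : ℕ) (A B p : ℕ → ℕ) : Prop :=
  (∀ k k', k < k' → k' < n → p (A k) < p (A k') ∧ p (B k) < p (B k')) ∧
    ∀ k, k < n → p (A k) < p (B k)

/-- The sequence of labels determined by a word. -/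
def L (A B w : ℕ → ℕ) (i : ℕ) : ℕ := if w i = 1 then B (ones i w) else A (i - ones i w)

/-- The major index of the first `N` values. -/
def majN (N : ℕ) (f : ℕ → ℕ) : ℕ := ∑ i ∈ range (N - 1), if f (i + 1) < f i then i + 1 else 0

theorem ones_mono {i j : ℕ} (w : ℕ → ℕ) (h : i ≤ j) : ones i w ≤ ones j w := by
  unfold ones
  apply sum_le_sum_of_subset
  intro x hx
  rw [mem_range] at hx ⊢
  omega

theorem zeros_mono {w : ℕ → ℕ} (hw : ∀ i, w i ≤ 1) {i j : ℕ} (h : i ≤ j) :
    ones i w ≤ i ∧ i - ones i w ≤ j - ones j w := by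
  have h1 : ∀ i, ones i w ≤ i := by
    intro i
    induction i with
    | zero => exact Nat.zero_le _
    | succ i ih =>
      have := hw i
      rw [ones_succ]
      omega
  refine ⟨h1 i, ?_⟩
  induction j, h using Nat.le_induction with
  | base => exact le_rfl
  | succ j hj ih =>
    have h2 := hw j
    have h3 := h1 j
    rw [ones_succ]
    omega

theorem ex_le_one {m : ℕ} {e : Fin m → ℕ} (he : e ∈ TB m) : ∀ i, ex e i ≤ 1 := by
  intro i
  rw [mem_TB] at he
  by_cases hi : i < m
  · rw [ex_of_lt e hi]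
    have := he ⟨i, hi⟩
    omega
  · rw [ex_of_ge e hi]
    omega

theorem L_spec {n : ℕ} (A B : ℕ → ℕ) {w : ℕ → ℕ} (hw : ∀ i, w i ≤ 1)
    (hn : ones (2 * n) w = n) {i : ℕ} (hi : i < 2 * n) :
    (w i = 1 ∧ ones i w < n ∧ L A B w i = B (ones i w)) ∨
      (w i = 0 ∧ i - ones i w < n ∧ L A B w i = A (i - ones i w)) := by
  have h1 := hw i
  have h2 := ones_mono w (show i + 1 ≤ 2 * n by omega)
  have h3 := (zeros_mono hw (show i + 1 ≤ 2 * n by omega))
  have h4 := (zeros_mono hw (le_refl i)).1
  rw [ones_succ] at h2 h3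
  unfold L
  by_cases h : w i = 1
  · left
    rw [if_pos h]
    exact ⟨h, by omega, rfl⟩
  · right
    rw [if_neg h]
    exact ⟨by omega, by omega, rfl⟩

theorem L_inj {n : ℕ} {A B : ℕ → ℕ} (hL : Labels n A B) {w : ℕ → ℕ} (hw : ∀ i, w i ≤ 1)
    (hn : ones (2 * n) w = n) {i j : ℕ} (hi : i < 2 * n) (hj : j < 2 * n) (hij : i < j) :
    L A B w i ≠ L A B w j := by
  have h1 := ones_mono w (show i + 1 ≤ j by omega)
  have h2 := (zeros_mono hw (show i + 1 ≤ j by omega)).2
  have h3 := (zeros_mono hw (le_refl i)).1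
  have h4 := (zeros_mono hw (le_refl j)).1
  rw [ones_succ] at h1 h2
  rcases L_spec A B hw hn hi with ⟨a1, a2, a3⟩ | ⟨a1, a2, a3⟩ <;>
    rcases L_spec A B hw hn hj with ⟨b1, b2, b3⟩ | ⟨b1, b2, b3⟩
  · rw [a3, b3]
    exact (hL.antiB _ _ (by omega) b2).ne'
  · rw [a3, b3]
    exact (hL.ne _ _ b2 a2).symm
  · rw [a3, b3]
    exact hL.ne _ _ a2 b2
  · rw [a3, b3]
    exact (hL.antiA _ _ (by omega) b2).ne'

theorem exists_pi {n : ℕ} {A B : ℕ → ℕ} (hL : Labels n A B) {w : ℕ → ℕ} (hw : ∀ i, w i ≤ 1)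
    (hn : ones (2 * n) w = n) {N : ℕ} (hN : N = 2 * n) :
    ∃ π : Equiv.Perm (Fin N), ∀ i : Fin N, (π i : ℕ) = L A B w i := by
  subst hN
  have hlt : ∀ i : Fin (2 * n), L A B w i < 2 * n := by
    intro i
    rcases L_spec A B hw hn i.is_lt with ⟨a1, a2, a3⟩ | ⟨a1, a2, a3⟩
    · rw [a3]
      exact (hL.lt _ a2).2
    · rw [a3]
      exact (hL.lt _ a2).1
  have hinj : Function.Injective (fun i : Fin (2 * n) => (⟨L A B w i, hlt i⟩ : Fin (2 * n))) := by
    intro i j h
    have h' : L A B w i = L A B w j := congrArg Fin.val h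
    by_contra hne
    have hne' : (i : ℕ) ≠ j := fun h => hne (Fin.ext h)
    rcases Nat.lt_or_gt_of_ne hne' with h1 | h1
    · exact L_inj hL hw hn i.is_lt j.is_lt h1 h'
    · exact L_inj hL hw hn j.is_lt i.is_lt h1 h'.symm
  exact ⟨Equiv.ofBijective _ (Finite.injective_iff_bijective.mp hinj), fun i => rfl⟩

theorem pos_unique {N : ℕ} (π : Equiv.Perm (Fin N)) {x : ℕ} (hx : x < N) :
    exP π.symm x < N ∧ ∀ i : Fin N, (π i : ℕ) = x → exP π.symm x = i := by
  refine ⟨(isP_exP π.symm).1 x hx, fun i hi => ?_⟩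
  rw [← hi]
  exact exP_symm π i

theorem LE_of_word {n : ℕ} {A B : ℕ → ℕ} (hL : Labels n A B) {w : ℕ → ℕ} (hw : ∀ i, w i ≤ 1)
    (hv : Valid (2 * n) w) (hn : ones (2 * n) w = n) {N : ℕ} (hN : N = 2 * n)
    (π : Equiv.Perm (Fin N)) (hπ : ∀ i : Fin N, (π i : ℕ) = L A B w i) :
    LE n A B (exP π.symm) := by
  subst hN
  have hA : ∀ k, k < n → ∃ i, exP π.symm (A k) = i ∧ i < 2 * n ∧ w i = 0 ∧ i - ones i w = k := by
    intro k hk
    obtain ⟨i, hi1, hi2⟩ := exists_label π (hL.lt k hk).1
    refine ⟨i, hi2, i.is_lt, ?_⟩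
    rw [hπ] at hi1
    rcases L_spec A B hw hn i.is_lt with ⟨a1, a2, a3⟩ | ⟨a1, a2, a3⟩
    · rw [a3] at hi1
      exact absurd hi1.symm (hL.ne _ _ hk a2)
    · refine ⟨a1, ?_⟩
      rw [a3] at hi1
      by_contra hne
      rcases Nat.lt_or_gt_of_ne hne with h1 | h1
      · exact (hL.antiA _ _ h1 hk).ne' hi1
      · exact (hL.antiA _ _ h1 a2).ne hi1
  have hB : ∀ k, k < n → ∃ i, exP π.symm (B k) = i ∧ i < 2 * n ∧ w i = 1 ∧ ones i w = k := by
    intro k hk
    obtain ⟨i, hi1, hi2⟩ := exists_label π (hL.lt k hk).2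
    refine ⟨i, hi2, i.is_lt, ?_⟩
    rw [hπ] at hi1
    rcases L_spec A B hw hn i.is_lt with ⟨a1, a2, a3⟩ | ⟨a1, a2, a3⟩
    · refine ⟨a1, ?_⟩
      rw [a3] at hi1
      by_contra hne
      rcases Nat.lt_or_gt_of_ne hne with h1 | h1
      · exact (hL.antiB _ _ h1 hk).ne' hi1
      · exact (hL.antiB _ _ h1 a2).ne hi1
    · rw [a3] at hi1
      exact absurd hi1 (hL.ne _ _ a2 hk)
  constructor
  · intro k k' hk hk'
    constructor
    · obtain ⟨i, hi, _, hi0, hi1⟩ := hA k (by omega)
      obtain ⟨j, hj, _, hj0, hj1⟩ := hA k' hk'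
      rw [hi, hj]
      by_contra hc
      have := (zeros_mono hw (show j ≤ i by omega)).2
      omega
    · obtain ⟨i, hi, _, hi0, hi1⟩ := hB k (by omega)
      obtain ⟨j, hj, _, hj0, hj1⟩ := hB k' hk'
      rw [hi, hj]
      by_contra hc
      have := ones_mono w (show j ≤ i by omega)
      omega
  · intro k hk
    obtain ⟨i, hi, _, hi0, hi1⟩ := hA k hk
    obtain ⟨j, hj, hjn, hj0, hj1⟩ := hB k hk
    rw [hi, hj]
    by_contra hc
    have h1 := (zeros_mono hw (show j ≤ i by omega)).2
    have h2 := hv (j + 1) (by rw [mem_range]; omega)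
    rw [ones_succ] at h2
    omega

theorem word_of_LE {n : ℕ} {A B : ℕ → ℕ} (hL : Labels n A B) {N : ℕ} (hN : N = 2 * n)
    (π : Equiv.Perm (Fin N)) (hπ : LE n A B (exP π.symm)) :
    ∃ e ∈ CW n, ∀ i : Fin N, (π i : ℕ) = L A B (ex e) i := by
  classical
  subst hN
  obtain ⟨p, hp⟩ : ∃ p, p = exP π.symm := ⟨_, rfl⟩
  rw [← hp] at hπ
  have hplt : ∀ x, x < 2 * n → p x < 2 * n := fun x hx => by
    rw [hp]
    exact (isP_exP π.symm).1 x hx
  have hpinj : ∀ x y, x < 2 * n → y < 2 * n → p x = p y → x = y := fun x y hx hy h => by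
    rw [hp] at h
    exact (isP_exP π.symm).2.1 x y hx hy h
  have hpsurj : ∀ i, i < 2 * n → ∃ x, x < 2 * n ∧ p x = i := fun i hi => by
    rw [hp]
    exact (isP_exP π.symm).2.2 i hi
  obtain ⟨e, he⟩ : ∃ e : Fin (2 * n) → ℕ, e = fun i : Fin (2 * n) =>
      if ∃ k, k < n ∧ p (B k) = (i : ℕ) then 1 else 0 :=
    ⟨fun i : Fin (2 * n) => if ∃ k, k < n ∧ p (B k) = (i : ℕ) then 1 else 0, rfl⟩
  have heTB : e ∈ TB (2 * n) := by
    rw [mem_TB, he]
    intro i
    simp only
    split_ifs <;> omega
  have hw := ex_le_one heTB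
  have hex : ∀ j, j < 2 * n → (ex e j = 1 ↔ ∃ k, k < n ∧ p (B k) = j) := by
    intro j hj
    rw [ex_of_lt e hj, he]
    simp only
    split_ifs with h
    · exact ⟨fun _ => h, fun _ => rfl⟩
    · exact ⟨fun h' => absurd h' (by norm_num), fun h' => absurd h' h⟩
  have hones : ∀ i, i ≤ 2 * n → ones i (ex e) = ((range n).filter (fun k => p (B k) < i)).card := by
    intro i hi
    have h1 : ones i (ex e) = ((range i).filter (fun j => ex e j = 1)).card := by
      rw [card_filter]
      unfold ones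
      apply sum_congr rfl
      intro j _
      have := hw j
      split_ifs <;> omega
    rw [h1]
    symm
    apply card_bij (fun k _ => p (B k))
    · intro k hk
      rw [mem_filter, mem_range] at hk ⊢
      exact ⟨hk.2, (hex _ (by omega)).mpr ⟨k, hk.1, rfl⟩⟩
    · intro k hk k' hk' h
      rw [mem_filter, mem_range] at hk hk'
      have h2 := hpinj _ _ (hL.lt k hk.1).2 (hL.lt k' hk'.1).2 h
      by_contra hne
      rcases Nat.lt_or_gt_of_ne hne with h3 | h3
      · exact (hL.antiB _ _ h3 hk'.1).ne' h2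
      · exact (hL.antiB _ _ h3 hk.1).ne h2
    · intro j hj
      rw [mem_filter, mem_range] at hj
      obtain ⟨k, hk, hk'⟩ := (hex j (by omega)).mp hj.2
      exact ⟨k, by rw [mem_filter, mem_range]; exact ⟨hk, by omega⟩, hk'⟩
  have hzeros : ∀ i, i ≤ 2 * n → i = ((range n).filter (fun k => p (A k) < i)).card +
      ((range n).filter (fun k => p (B k) < i)).card := by
    intro i hi
    have h1 : (range i).card = i := card_range i
    have h2 : range i = ((range n).filter (fun k => p (A k) < i)).image (fun k => p (A k)) ∪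
        ((range n).filter (fun k => p (B k) < i)).image (fun k => p (B k)) := by
      ext j
      rw [mem_range, mem_union, mem_image, mem_image]
      constructor
      · intro hj
        obtain ⟨x, hx, hxj⟩ := hpsurj j (by omega)
        rcases hL.cov x hx with ⟨k, hk, rfl⟩ | ⟨k, hk, rfl⟩
        · left
          exact ⟨k, by rw [mem_filter, mem_range]; exact ⟨hk, by omega⟩, hxj⟩
        · right
          exact ⟨k, by rw [mem_filter, mem_range]; exact ⟨hk, by omega⟩, hxj⟩
      · rintro (⟨k, hk, rfl⟩ | ⟨k, hk, rfl⟩)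
        · exact (mem_filter.mp hk).2
        · exact (mem_filter.mp hk).2
    conv_lhs => rw [← h1, h2]
    rw [card_union_of_disjoint, card_image_of_injOn, card_image_of_injOn]
    · intro k hk k' hk' h
      have hk1 := (mem_filter.mp hk).1
      have hk1' := (mem_filter.mp hk').1
      rw [mem_range] at hk1 hk1'
      have h2 := hpinj _ _ (hL.lt k hk1).2 (hL.lt k' hk1').2 h
      by_contra hne
      rcases Nat.lt_or_gt_of_ne hne with h3 | h3
      · exact (hL.antiB _ _ h3 hk1').ne' h2
      · exact (hL.antiB _ _ h3 hk1).ne h2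
    · intro k hk k' hk' h
      have hk1 := (mem_filter.mp hk).1
      have hk1' := (mem_filter.mp hk').1
      rw [mem_range] at hk1 hk1'
      have h2 := hpinj _ _ (hL.lt k hk1).1 (hL.lt k' hk1').1 h
      by_contra hne
      rcases Nat.lt_or_gt_of_ne hne with h3 | h3
      · exact (hL.antiA _ _ h3 hk1').ne' h2
      · exact (hL.antiA _ _ h3 hk1).ne h2
    · rw [Finset.disjoint_left]
      intro j hj hj'
      rw [mem_image] at hj hj'
      obtain ⟨k, hk, hk'⟩ := hj
      obtain ⟨l, hl, hl'⟩ := hj'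
      rw [mem_filter, mem_range] at hk hl
      have := hpinj _ _ (hL.lt k hk.1).1 (hL.lt l hl.1).2 (by omega)
      exact hL.ne k l hk.1 hl.1 this
  have hsub : ∀ i, ((range n).filter (fun k => p (B k) < i)).card ≤
      ((range n).filter (fun k => p (A k) < i)).card := by
    intro i
    apply card_le_card
    intro k hk
    rw [mem_filter, mem_range] at hk ⊢
    have := hπ.2 k hk.1
    exact ⟨hk.1, by omega⟩
  refine ⟨e, ?_, ?_⟩
  · unfold CW
    rw [mem_filter]
    refine ⟨heTB, fun i hi => ?_, ?_⟩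
    · rw [mem_range] at hi
      have h1 := hones i (by omega)
      have h2 := hzeros i (by omega)
      have h3 := hsub i
      omega
    · rw [hones (2 * n) le_rfl]
      rw [filter_true_of_mem, card_range]
      intro k hk
      rw [mem_range] at hk
      exact hplt _ (hL.lt k hk).2
  · intro i
    have hi := i.is_lt
    have hpi : p (π i) = i := by rw [hp]; exact exP_symm π i
    have h1 := hones i hi.le
    have h2 := hzeros i hi.le
    rcases hL.cov (π i) (π i).is_lt with ⟨k, hk, hk'⟩ | ⟨k, hk, hk'⟩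
    · have h3 : ex e i ≠ 1 := by
        intro h
        obtain ⟨l, hl, hl'⟩ := (hex i hi).mp h
        have h4 : B l = π i := hpinj _ _ (hL.lt l hl).2 (π i).is_lt (by omega)
        exact hL.ne k l hk hl (by omega)
      have h4 : ((range n).filter (fun l => p (A l) < (i : ℕ))).card = k := by
        have h5 : (range n).filter (fun l => p (A l) < (i : ℕ)) = range k := by
          ext l
          rw [mem_filter, mem_range, mem_range, ← hpi, hk']
          constructor
          · rintro ⟨h6, h7⟩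
            by_contra h8
            rcases Nat.eq_or_lt_of_le (not_lt.mp h8) with h9 | h9
            · rw [h9] at h7
              omega
            · have := (hπ.1 k l h9 h6).1
              omega
          · intro h6
            exact ⟨by omega, (hπ.1 l k h6 hk).1⟩
        rw [h5, card_range]
      unfold L
      rw [if_neg h3, show (i : ℕ) - ones i (ex e) = k by omega]
      exact hk'
    · have h3 : ex e i = 1 := (hex i hi).mpr ⟨k, hk, by rw [← hk', hpi]⟩
      have h4 : ((range n).filter (fun l => p (B l) < (i : ℕ))).card = k := by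
        have h5 : (range n).filter (fun l => p (B l) < (i : ℕ)) = range k := by
          ext l
          rw [mem_filter, mem_range, mem_range, ← hpi, hk']
          constructor
          · rintro ⟨h6, h7⟩
            by_contra h8
            rcases Nat.eq_or_lt_of_le (not_lt.mp h8) with h9 | h9
            · rw [h9] at h7
              omega
            · have := (hπ.1 k l h9 h6).2
              omega
          · intro h6
            exact ⟨by omega, (hπ.1 l k h6 hk).2⟩
        rw [h5, card_range]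
      unfold L
      rw [if_pos h3, show ones i (ex e) = k by omega]
      exact hk'

/-- Sums over linear extensions are sums over Catalan words. -/
theorem sum_LE {M : Type*} [AddCommMonoid M] {n : ℕ} {A B : ℕ → ℕ} (hL : Labels n A B) {N : ℕ}
    (hN : N = 2 * n) (S : Finset (Equiv.Perm (Fin N)))
    (hS : ∀ π, π ∈ S ↔ LE n A B (exP π.symm)) (f : ℕ → M) :
    ∑ π ∈ S, f (majN N (exP π)) = ∑ e ∈ CW n, f (majN N (L A B (ex e))) := by
  have hCW : ∀ e, e ∈ CW n → (∀ i, ex e i ≤ 1) ∧ Valid (2 * n) (ex e) ∧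
      ones (2 * n) (ex e) = n := by
    intro e he
    unfold CW at he
    rw [mem_filter] at he
    exact ⟨ex_le_one he.1, he.2⟩
  symm
  apply sum_bij (fun e he => (exists_pi hL (hCW e he).1 (hCW e he).2.2 hN).choose)
  · intro e he
    rw [hS]
    exact LE_of_word hL (hCW e he).1 (hCW e he).2.1 (hCW e he).2.2 hN _
      (exists_pi hL (hCW e he).1 (hCW e he).2.2 hN).choose_spec
  · intro e he e' he' h
    have h1 := (exists_pi hL (hCW e he).1 (hCW e he).2.2 hN).choose_spec
    have h2 := (exists_pi hL (hCW e' he').1 (hCW e' he').2.2 hN).choose_spec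
    rw [h] at h1
    have h3 : ∀ i, i < 2 * n → L A B (ex e) i = L A B (ex e') i := by
      intro i hi
      have := h1 ⟨i, by omega⟩
      rw [h2 ⟨i, by omega⟩] at this
      exact this.symm
    funext i
    rw [← ex_apply e i, ← ex_apply e' i]
    have hi := i.is_lt
    have h4 := h3 i hi
    rcases L_spec A B (hCW e he).1 (hCW e he).2.2 hi with ⟨a1, a2, a3⟩ | ⟨a1, a2, a3⟩ <;>
      rcases L_spec A B (hCW e' he').1 (hCW e' he').2.2 hi with ⟨b1, b2, b3⟩ | ⟨b1, b2, b3⟩
    · rw [a1, b1]
    · rw [a3, b3] at h4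
      exact absurd h4.symm (hL.ne _ _ b2 a2)
    · rw [a3, b3] at h4
      exact absurd h4 (hL.ne _ _ a2 b2)
    · rw [a1, b1]
  · intro π hπ
    obtain ⟨e, he, h⟩ := word_of_LE hL hN π ((hS π).mp hπ)
    refine ⟨e, he, ?_⟩
    have h2 := (exists_pi hL (hCW e he).1 (hCW e he).2.2 hN).choose_spec
    ext i
    rw [h2, h]
  · intro e he
    have h2 := (exists_pi hL (hCW e he).1 (hCW e he).2.2 hN).choose_spec
    congr 1
    unfold majN
    apply sum_congr rfl
    intro i hi
    rw [mem_range] at hi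
    rw [exP_of_lt _ (show i < N by omega), exP_of_lt _ (show i + 1 < N by omega), h2, h2]

/-- Linear extensions avoid `123`. -/
theorem LE_avoids {n : ℕ} {A B : ℕ → ℕ} (hL : Labels n A B) {N : ℕ} (hN : N = 2 * n)
    (π : Equiv.Perm (Fin N)) (hπ : LE n A B (exP π.symm)) (i j k : Fin N) (hij : i < j)
    (hjk : j < k) : ¬ (π i < π j ∧ π j < π k) := by
  rintro ⟨h1, h2⟩
  have hpos : ∀ i : Fin N, exP π.symm (π i) = i := fun i => exP_symm π i
  -- two labels of the same chain are in decreasing order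
  have hchain : ∀ i j : Fin N, i < j → π i < π j →
      ¬ ((∃ a, a < n ∧ (π i : ℕ) = A a) ∧ (∃ a, a < n ∧ (π j : ℕ) = A a)) ∧
      ¬ ((∃ a, a < n ∧ (π i : ℕ) = B a) ∧ (∃ a, a < n ∧ (π j : ℕ) = B a)) := by
    intro i j hij hπij
    have hij' : (i : ℕ) < j := hij
    have hπij' : (π i : ℕ) < π j := hπij
    have e1 := hpos i
    have e2 := hpos j
    constructor
    · rintro ⟨⟨a, ha, ha'⟩, b, hb, hb'⟩
      rw [ha'] at e1 hπij'
      rw [hb'] at e2 hπij'
      rcases Nat.lt_trichotomy a b with h | h | h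
      · have := hL.antiA a b h hb
        omega
      · rw [h] at hπij'
        omega
      · have := (hπ.1 b a h ha).1
        omega
    · rintro ⟨⟨a, ha, ha'⟩, b, hb, hb'⟩
      rw [ha'] at e1 hπij'
      rw [hb'] at e2 hπij'
      rcases Nat.lt_trichotomy a b with h | h | h
      · have := hL.antiB a b h hb
        omega
      · rw [h] at hπij'
        omega
      · have := (hπ.1 b a h ha).2
        omega
  have c1 := hchain i j hij h1
  have c2 := hchain j k hjk h2
  have c3 := hchain i k (hij.trans hjk) (h1.trans h2)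
  have d1 := hL.cov (π i) (by have := (π i).is_lt; omega)
  have d2 := hL.cov (π j) (by have := (π j).is_lt; omega)
  have d3 := hL.cov (π k) (by have := (π k).is_lt; omega)
  rcases d1 with d1 | d1 <;> rcases d2 with d2 | d2 <;> rcases d3 with d3 | d3
  · exact c1.1 ⟨d1, d2⟩
  · exact c1.1 ⟨d1, d2⟩
  · exact c3.1 ⟨d1, d3⟩
  · exact c2.2 ⟨d2, d3⟩
  · exact c2.1 ⟨d2, d3⟩
  · exact c3.2 ⟨d1, d3⟩
  · exact c1.2 ⟨d1, d2⟩
  · exact c1.2 ⟨d1, d2⟩

/-- The sum of the positions `1, …, N - 1` minus the non-descents. -/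
theorem maj_add (c : ℕ → ℕ → ℕ → ℕ → Prop) [∀ i a x y, Decidable (c i a x y)] {N : ℕ}
    {A B w : ℕ → ℕ} (h : ∀ i, i + 1 < N → (L A B w (i + 1) < L A B w i ↔
      ¬ c (i + 1) (ones (i + 1) w) (w i) (w (i + 1)))) :
    majN N (L A B w) + st c N w = N.choose 2 := by
  unfold majN st
  rw [← sum_add_distrib]
  have h1 : ∑ i ∈ range (N - 1), ((if L A B w (i + 1) < L A B w i then i + 1 else 0) +
      if c (i + 1) (ones (i + 1) w) (w i) (w (i + 1)) then i + 1 else 0) =
      ∑ i ∈ range (N - 1), (i + 1) := by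
    apply sum_congr rfl
    intro i hi
    rw [mem_range] at hi
    have := h i (by omega)
    by_cases hc : c (i + 1) (ones (i + 1) w) (w i) (w (i + 1))
    · rw [if_pos hc, if_neg (fun h' => this.mp h' hc), Nat.zero_add]
    · rw [if_neg hc, if_pos (this.mpr hc)]
  rw [h1]
  cases N with
  | zero => rfl
  | succ N =>
    rw [Nat.add_sub_cancel]
    clear h h1
    induction N with
    | zero => rfl
    | succ N ih =>
      rw [sum_range_succ, ih, Nat.choose_succ_succ (N + 1) 1, Nat.choose_one_right]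
      ring

end Pool.Agent.V11170.CatalanMaj
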