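import Mathlib
import Pool.Agent.V11170.CatalanMaj

set_option autoImplicit false

/-! Definitions: Catalan words, major index, linear extensions; and their link to the word sums. -/

namespace Pool.Agent.V11170.CatalanDefs

open Finset Pool.Agent.V11170.SemiBaxter Pool.Agent.V11170.Tools Pool.Agent.V11170.CatalanMaj

/-- The major index of a finite sequence: the sum of the (1-based) positions `i` with
`f i > f (i + 1)`. -/
def maj {N : ℕ} {α : Type} [LT α] [DecidableRel (fun a b : α => a < b)] (f : Fin N → α) : ℕ :=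
  ∑ i : Fin N, if h : (i : ℕ) + 1 < N then (if f ⟨i + 1, h⟩ < f i then (i : ℕ) + 1 else 0) else 0

/-- A Catalan word of length `2n`: `n` zeros and `n` ones, and every initial segment (of length
`m`) has at least as many zeros as ones. -/
def IsCatalan (n : ℕ) (w : Fin (2 * n) → Fin 2) : Prop :=
  (univ.filter (fun i => w i = 0)).card = n ∧ (univ.filter (fun i => w i = 1)).card = n ∧
    ∀ m : ℕ, (univ.filter (fun i : Fin (2 * n) => (i : ℕ) < m ∧ w i = 1)).card ≤
      (univ.filter (fun i : Fin (2 * n) => (i : ℕ) < m ∧ w i = 0)).card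

open scoped Classical in
/-- `c_n(q)`, the sum of `q ^ maj w` over the Catalan words `w` of length `2n`. -/
noncomputable def catalanSum {K : Type} [CommRing K] (q : K) (n : ℕ) : K :=
  ∑ w ∈ (univ : Finset (Fin (2 * n) → Fin 2)).filter (IsCatalan n), q ^ maj w

theorem sum_ex {m : ℕ} (e : Fin m → ℕ) (k : ℕ) (hk : k ≤ m) :
    ones k (ex e) = ∑ i : Fin m, if (i : ℕ) < k then e i else 0 := by
  have h1 : ∑ i : Fin m, (if (i : ℕ) < k then e i else 0) =
      ∑ i ∈ range m, if i < k then ex e i else 0 := by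
    rw [← Fin.sum_univ_eq_sum_range (fun i => if i < k then ex e i else 0)]
    apply sum_congr rfl
    intro i _
    rw [ex_apply]
  rw [h1]
  unfold ones
  rw [← sum_filter]
  congr 1
  ext i
  rw [mem_filter, mem_range, mem_range]
  omega

theorem count_one {n : ℕ} (w : Fin (2 * n) → Fin 2) (k : ℕ) (hk : k ≤ 2 * n) :
    (univ.filter (fun i : Fin (2 * n) => (i : ℕ) < k ∧ w i = 1)).card =
      ones k (ex (fun i => (w i : ℕ))) := by
  rw [sum_ex _ k hk, card_filter]
  apply sum_congr rfl
  intro i _
  have h := (w i).is_lt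
  have h1 : w i = 1 ↔ (w i : ℕ) = 1 := by
    constructor
    · intro h'
      rw [h']
      rfl
    · intro h'
      exact Fin.ext h'
  simp only [h1]
  split_ifs <;> omega

theorem count_zero {n : ℕ} (w : Fin (2 * n) → Fin 2) (k : ℕ) (hk : k ≤ 2 * n) :
    (univ.filter (fun i : Fin (2 * n) => (i : ℕ) < k ∧ w i = 0)).card +
      ones k (ex (fun i => (w i : ℕ))) = k := by
  rw [sum_ex _ k hk, card_filter, ← sum_add_distrib]
  have h0 : ∑ i : Fin (2 * n), ((if (i : ℕ) < k ∧ w i = 0 then 1 else 0) +
      if (i : ℕ) < k then ((w i : Fin 2) : ℕ) else 0) =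
      ∑ i : Fin (2 * n), if (i : ℕ) < k then 1 else 0 := by
    apply sum_congr rfl
    intro i _
    have h := (w i).is_lt
    have h1 : w i = 0 ↔ (w i : ℕ) = 0 := by
      constructor
      · intro h'
        rw [h']
        rfl
      · intro h'
        exact Fin.ext h'
    simp only [h1]
    split_ifs <;> omega
  rw [h0, Fin.sum_univ_eq_sum_range (fun i => if i < k then 1 else 0), ← sum_filter]
  have h1 : (range (2 * n)).filter (fun i => i < k) = range k := by
    ext i
    rw [mem_filter, mem_range, mem_range]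
    omega
  rw [h1, sum_const, card_range, smul_eq_mul, mul_one]

theorem isCatalan_iff {n : ℕ} (w : Fin (2 * n) → Fin 2) :
    IsCatalan n w ↔ Valid (2 * n) (ex (fun i => (w i : ℕ))) ∧
      ones (2 * n) (ex (fun i => (w i : ℕ))) = n := by
  have hall : ∀ p : Fin (2 * n) → Prop, ∀ _ : DecidablePred p, ∀ m, 2 * n ≤ m →
      (univ.filter (fun i : Fin (2 * n) => (i : ℕ) < m ∧ p i)) = univ.filter p := by
    intro p _ m hm
    ext i
    have := i.is_lt
    simp only [mem_filter, mem_univ, true_and]
    constructor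
    · exact fun h => h.2
    · exact fun h => ⟨by omega, h⟩
  have h1 := count_one w (2 * n) le_rfl
  have h0 := count_zero w (2 * n) le_rfl
  rw [hall (fun i => w i = 1) _ _ le_rfl] at h1
  rw [hall (fun i => w i = 0) _ _ le_rfl] at h0
  unfold IsCatalan
  constructor
  · rintro ⟨a, b, c⟩
    refine ⟨fun i hi => ?_, by omega⟩
    rw [mem_range] at hi
    have := c i
    rw [count_one w i (by omega)] at this
    have := count_zero w i (by omega)
    omega
  · rintro ⟨a, b⟩
    refine ⟨by omega, by omega, fun m => ?_⟩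
    by_cases hm : m ≤ 2 * n
    · have h2 := a m (by rw [mem_range]; omega)
      have h3 := count_zero w m hm
      rw [count_one w m hm]
      omega
    · rw [hall (fun i => w i = 1) _ _ (by omega), hall (fun i => w i = 0) _ _ (by omega)]
      omega

theorem maj_eq_majN {N : ℕ} (f : Fin N → ℕ) : maj f = majN N (ex f) := by
  have h1 : maj f = ∑ i ∈ range N, if i + 1 < N then
      (if ex f (i + 1) < ex f i then i + 1 else 0) else 0 := by
    rw [← Fin.sum_univ_eq_sum_range (fun i => if i + 1 < N then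
      (if ex f (i + 1) < ex f i then i + 1 else 0) else 0)]
    unfold maj
    apply sum_congr rfl
    intro i _
    by_cases h : (i : ℕ) + 1 < N
    · rw [dif_pos h, if_pos h, ex_of_lt f h, ex_apply]
    · rw [dif_neg h, if_neg h]
  rw [h1, ← sum_filter]
  unfold majN
  congr 1
  ext i
  rw [mem_filter, mem_range, mem_range]
  omega

theorem maj_fin {N m : ℕ} (f : Fin N → Fin m) : maj f = maj (fun i => (f i : ℕ)) := rfl

theorem majN_word {n : ℕ} (w : Fin (2 * n) → Fin 2) :
    maj w = st cV (2 * n) (ex (fun i => (w i : ℕ))) := by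
  rw [maj_fin, maj_eq_majN]
  unfold majN st
  apply sum_congr rfl
  intro i hi
  rw [mem_range] at hi
  rw [ex_of_lt _ (show i < 2 * n by omega), ex_of_lt _ (show i + 1 < 2 * n by omega)]
  have h1 := (w ⟨i, by omega⟩).is_lt
  have h2 := (w ⟨i + 1, by omega⟩).is_lt
  unfold cV
  split_ifs <;> omega

theorem catalanSum_eq {K : Type} [CommRing K] (q : K) (n : ℕ) : catalanSum q n = cf q n n := by
  classical
  rw [← gf_V]
  unfold catalanSum gf
  rw [← sum_filter]
  apply sum_bij (fun w _ => fun i => ((w i : Fin 2) : ℕ))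
  · intro w hw
    rw [mem_filter] at hw ⊢
    refine ⟨?_, (isCatalan_iff w).mp hw.2⟩
    rw [mem_TB]
    intro i
    exact (w i).is_lt
  · intro w _ w' _ h
    funext i
    exact Fin.ext (congrFun h i)
  · intro e he
    rw [mem_filter, mem_TB] at he
    refine ⟨fun i => ⟨e i, he.1 i⟩, ?_, rfl⟩
    rw [mem_filter, isCatalan_iff]
    exact ⟨mem_univ _, he.2⟩
  · intro w _
    rw [majN_word]

/-- `π` avoids `123`. -/
def Avoids123 {N : ℕ} (π : Equiv.Perm (Fin N)) : Prop :=
  ∀ i j k : Fin N, i < j → j < k → ¬ (π i < π j ∧ π j < π k)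

/-- `π` lists the elements in an order compatible with the relation `Prec`. -/
def IsLinExt {N : ℕ} (Prec : ℕ → ℕ → Prop) (π : Equiv.Perm (Fin N)) : Prop :=
  ∀ i j : Fin N, Prec (π i) (π j) → i ≤ j

open scoped Classical in
/-- The 123-avoiding linear extensions. -/
noncomputable def linExt123 (N : ℕ) (Prec : ℕ → ℕ → Prop) : Finset (Equiv.Perm (Fin N)) :=
  univ.filter (fun π => IsLinExt Prec π ∧ Avoids123 π)

theorem linExt_iff {n : ℕ} {A B : ℕ → ℕ} (hL : Labels n A B) {Prec : ℕ → ℕ → Prop} {N : ℕ}
    (hN : N = 2 * n)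
    (h1 : ∀ k k', k < n → k' < n → (Prec (A k) (A k') ↔ k ≤ k'))
    (h2 : ∀ k k', k < n → k' < n → (Prec (B k) (B k') ↔ k ≤ k'))
    (h3 : ∀ k k', k < n → k' < n → (Prec (A k) (B k') ↔ k ≤ k'))
    (h4 : ∀ k k', k < n → k' < n → ¬ Prec (B k) (A k')) (π : Equiv.Perm (Fin N)) :
    IsLinExt Prec π ↔ LE n A B (exP π.symm) := by
  constructor
  · intro h
    have hl : ∀ x y, x < N → y < N → Prec x y → exP π.symm x ≤ exP π.symm y := by
      intro x y hx hy hxy
      obtain ⟨i, hi, hi'⟩ := exists_label π hx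
      obtain ⟨j, hj, hj'⟩ := exists_label π hy
      rw [hi', hj']
      apply h i j
      rw [hi, hj]
      exact hxy
    have hne : ∀ x y, x < N → y < N → x ≠ y → exP π.symm x ≠ exP π.symm y :=
      fun x y hx hy hxy => exP_inj _ hx hy hxy
    constructor
    · intro k k' hk hk'
      have a1 := (hL.lt k (by omega))
      have a2 := (hL.lt k' hk')
      constructor
      · have b1 := hl (A k) (A k') (by omega) (by omega) ((h1 k k' (by omega) hk').mpr hk.le)
        have b2 := hne (A k) (A k') (by omega) (by omega) (hL.antiA k k' hk hk').ne'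
        omega
      · have b1 := hl (B k) (B k') (by omega) (by omega) ((h2 k k' (by omega) hk').mpr hk.le)
        have b2 := hne (B k) (B k') (by omega) (by omega) (hL.antiB k k' hk hk').ne'
        omega
    · intro k hk
      have a1 := (hL.lt k hk)
      have b1 := hl (A k) (B k) (by omega) (by omega) ((h3 k k hk hk).mpr le_rfl)
      have b2 := hne (A k) (B k) (by omega) (by omega) (hL.ne k k hk hk)
      omega
  · intro h i j hij
    have hpos : ∀ i : Fin N, exP π.symm (π i) = i := fun i => exP_symm π i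
    have e1 := hpos i
    have e2 := hpos j
    have d1 := hL.cov (π i) (by have := (π i).is_lt; omega)
    have d2 := hL.cov (π j) (by have := (π j).is_lt; omega)
    show (i : ℕ) ≤ j
    rcases d1 with ⟨a, ha, ha'⟩ | ⟨a, ha, ha'⟩ <;> rcases d2 with ⟨b, hb, hb'⟩ | ⟨b, hb, hb'⟩
    · rw [ha', hb'] at hij
      rw [ha'] at e1
      rw [hb'] at e2
      rcases Nat.eq_or_lt_of_le ((h1 a b ha hb).mp hij) with h5 | h5
      · rw [h5] at e1
        omega
      · have := (h.1 a b h5 hb).1
        omega
    · rw [ha', hb'] at hij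
      rw [ha'] at e1
      rw [hb'] at e2
      have h6 := h.2 b hb
      rcases Nat.eq_or_lt_of_le ((h3 a b ha hb).mp hij) with h5 | h5
      · rw [h5] at e1
        omega
      · have := (h.1 a b h5 hb).1
        omega
    · rw [ha', hb'] at hij
      exact absurd hij (h4 a b ha hb)
    · rw [ha', hb'] at hij
      rw [ha'] at e1
      rw [hb'] at e2
      rcases Nat.eq_or_lt_of_le ((h2 a b ha hb).mp hij) with h5 | h5
      · rw [h5] at e1
        omega
      · have := (h.1 a b h5 hb).2
        omega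

/-- The major index sum over the 123-avoiding linear extensions as a sum over words. -/
theorem sum_maj {n : ℕ} {A B : ℕ → ℕ} (hL : Labels n A B) {Prec : ℕ → ℕ → Prop} {N : ℕ}
    (hN : N = 2 * n)
    (h1 : ∀ k k', k < n → k' < n → (Prec (A k) (A k') ↔ k ≤ k'))
    (h2 : ∀ k k', k < n → k' < n → (Prec (B k) (B k') ↔ k ≤ k'))
    (h3 : ∀ k k', k < n → k' < n → (Prec (A k) (B k') ↔ k ≤ k'))
    (h4 : ∀ k k', k < n → k' < n → ¬ Prec (B k) (A k'))
    (c : ℕ → ℕ → ℕ → ℕ → Prop) [∀ i a x y, Decidable (c i a x y)]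
    (hc : ∀ w : ℕ → ℕ, (∀ i, w i ≤ 1) → Valid (2 * n) w → ones (2 * n) w = n →
      ∀ i, i + 1 < N → (L A B w (i + 1) < L A B w i ↔
        ¬ c (i + 1) (ones (i + 1) w) (w i) (w (i + 1))))
    {K : Type} [Field K] (q : K) (hq : q ≠ 0) :
    ∑ π ∈ linExt123 N Prec, q ^ maj π = q ^ N.choose 2 * gf c q⁻¹ (2 * n) n := by
  classical
  have hmaj : ∀ π : Equiv.Perm (Fin N), maj π = majN N (exP π) := by
    intro π
    rw [maj_fin, maj_eq_majN]
    rfl
  simp only [hmaj]
  rw [sum_LE hL hN (linExt123 N Prec) ?_ (fun k => q ^ k)]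
  · unfold gf CW
    rw [sum_filter, mul_sum]
    apply sum_congr rfl
    intro e he
    by_cases h : Valid (2 * n) (ex e) ∧ ones (2 * n) (ex e) = n
    · rw [if_pos h, if_pos h]
      have h5 := maj_add c (hc (ex e) (ex_le_one he) h.1 h.2)
      rw [← h5, pow_add, hN, inv_pow, mul_assoc, mul_inv_cancel₀ (pow_ne_zero _ hq), mul_one]
    · rw [if_neg h, if_neg h, mul_zero]
  · intro π
    unfold linExt123
    rw [mem_filter, linExt_iff hL hN h1 h2 h3 h4]
    constructor
    · exact fun h => h.2.1
    · intro h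
      exact ⟨mem_univ _, h, fun i j k hij hjk => LE_avoids hL hN π h i j k hij hjk⟩

/-- Transfer of an identity from the fraction field to the polynomial ring. -/
theorem transfer {N : ℕ} (S : Finset (Equiv.Perm (Fin N))) (n e : ℕ)
    (h : ∀ (K : Type) [Field K] (q : K), q ≠ 0 → ∑ π ∈ S, q ^ maj π = q ^ e * catalanSum q n) :
    ∑ π ∈ S, (Polynomial.X : Polynomial ℤ) ^ maj π =
      Polynomial.X ^ e * catalanSum (Polynomial.X : Polynomial ℤ) n := by
  apply IsFractionRing.injective (Polynomial ℤ) (FractionRing (Polynomial ℤ))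
  have hX : algebraMap (Polynomial ℤ) (FractionRing (Polynomial ℤ)) Polynomial.X ≠ 0 := by
    intro h0
    have := IsFractionRing.injective (Polynomial ℤ) (FractionRing (Polynomial ℤ))
      (h0.trans (map_zero _).symm)
    exact Polynomial.X_ne_zero this
  have h1 := h (FractionRing (Polynomial ℤ)) _ hX
  rw [map_sum, map_mul, map_pow]
  simp only [map_pow]
  rw [h1]
  unfold catalanSum
  rw [map_sum]
  simp only [map_pow]

end Pool.Agent.V11170.CatalanDefs
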