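import Mathlib
import Pool.Agent.V11170.Tools

set_option autoImplicit false

/-! Permutation classes, direct sums, growth rates: definitions and small tools. -/

namespace Pool.Agent.V11170.Classes

open Finset Filter Topology Pool.Agent.V11170.Tools

/-- Permutations of all lengths (in one-line form, with values from `0`). -/
abbrev P : Type := (n : ℕ) × Equiv.Perm (Fin n)

/-- Pattern containment. -/
def Contains (σ π : P) : Prop :=
  ∃ f : Fin σ.1 → Fin π.1, StrictMono f ∧ ∀ i j, σ.2 i < σ.2 j ↔ π.2 (f i) < π.2 (f j)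

/-- A permutation class: a set of permutations closed downward under containment. -/
def IsClass (C : Set P) : Prop := ∀ π ∈ C, ∀ σ, Contains σ π → σ ∈ C

/-- The direct sum of two permutations: `σ` on the first `a` places and `τ`, shifted by `a`, on
the last `b` places. -/
def sumPerm {a b : ℕ} (σ : Equiv.Perm (Fin a)) (τ : Equiv.Perm (Fin b)) :
    Equiv.Perm (Fin (a + b)) :=
  finSumFinEquiv.symm.trans ((Equiv.sumCongr σ τ).trans finSumFinEquiv)

/-- The direct sum. -/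
def dsum (σ τ : P) : P := ⟨σ.1 + τ.1, sumPerm σ.2 τ.2⟩

/-- Sum closed. -/
def SumClosed (C : Set P) : Prop := ∀ σ ∈ C, ∀ τ ∈ C, dsum σ τ ∈ C

/-- A nonempty permutation which is not the direct sum of two nonempty permutations. -/
def Indecomposable (π : P) : Prop :=
  1 ≤ π.1 ∧ ∀ σ τ : P, 1 ≤ σ.1 → 1 ≤ τ.1 → π ≠ dsum σ τ

/-- The indecomposable members. -/
def ind (C : Set P) : Set P := {π | π ∈ C ∧ Indecomposable π}

/-- The number of members of length `n`. -/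
noncomputable def num (X : Set P) (n : ℕ) : ℕ :=
  Nat.card {π : Equiv.Perm (Fin n) // (⟨n, π⟩ : P) ∈ X}

/-- The upper growth rate `limsup |X_n|^{1/n}`, in `[0, ∞]`. -/
noncomputable def upperGrowth (X : Set P) : ENNReal :=
  limsup (fun n : ℕ => ENNReal.ofReal ((num X n : ℝ) ^ ((1 : ℝ) / (n : ℝ)))) atTop

/-! ### direct sums -/

theorem sumPerm_castAdd {a b : ℕ} (σ : Equiv.Perm (Fin a)) (τ : Equiv.Perm (Fin b)) (i : Fin a) :
    sumPerm σ τ (Fin.castAdd b i) = Fin.castAdd b (σ i) := by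
  simp [sumPerm]

theorem sumPerm_natAdd {a b : ℕ} (σ : Equiv.Perm (Fin a)) (τ : Equiv.Perm (Fin b)) (i : Fin b) :
    sumPerm σ τ (Fin.natAdd a i) = Fin.natAdd a (τ i) := by
  simp [sumPerm]

/-- No proper cut. -/
def CutInd (π : P) : Prop :=
  ∀ c, 0 < c → c < π.1 → ∃ i j : Fin π.1, (i : ℕ) < c ∧ c ≤ j ∧ π.2 j < π.2 i

/-- All smaller before `c`. -/
def IsCut (π : P) (c : ℕ) : Prop :=
  ∀ i j : Fin π.1, (i : ℕ) < c → c ≤ j → π.2 i < π.2 j

theorem exists_sumPerm {c m : ℕ} (π : Equiv.Perm (Fin (c + m)))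
    (h : ∀ i j : Fin (c + m), (i : ℕ) < c → c ≤ j → π i < π j) :
    ∃ σ : Equiv.Perm (Fin c), ∃ τ : Equiv.Perm (Fin m), π = sumPerm σ τ ∧
      (∀ i j : Fin c, σ i < σ j ↔ π (Fin.castAdd m i) < π (Fin.castAdd m j)) ∧
      ∀ i j : Fin m, τ i < τ j ↔ π (Fin.natAdd c i) < π (Fin.natAdd c j) := by
  obtain ⟨σ, hσ⟩ := exists_perm (fun i : Fin c => (π (Fin.castAdd m i) : ℕ)) (fun i j hij => by
    have := congrArg Fin.val (π.injective (Fin.ext hij))
    exact Fin.ext this)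
  obtain ⟨τ, hτ⟩ := exists_perm (fun i : Fin m => (π (Fin.natAdd c i) : ℕ)) (fun i j hij => by
    have := congrArg Fin.val (π.injective (Fin.ext hij))
    rw [Fin.val_natAdd, Fin.val_natAdd] at this
    exact Fin.ext (by omega))
  refine ⟨σ, τ, ?_, fun i j => hσ i j, fun i j => hτ i j⟩
  apply perm_eq_of_order
  intro i j
  refine Fin.addCases (fun i => ?_) (fun i => ?_) i <;>
    refine Fin.addCases (fun j => ?_) (fun j => ?_) j
  · rw [sumPerm_castAdd, sumPerm_castAdd]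
    exact (hσ i j).symm
  · rw [sumPerm_castAdd, sumPerm_natAdd]
    have h1 : π (Fin.castAdd m i) < π (Fin.natAdd c j) :=
      h (Fin.castAdd m i) (Fin.natAdd c j) i.is_lt (Nat.le_add_right c j)
    refine ⟨fun _ => ?_, fun _ => h1⟩
    rw [Fin.lt_def, Fin.val_castAdd, Fin.val_natAdd]
    have := (σ i).is_lt
    omega
  · rw [sumPerm_castAdd, sumPerm_natAdd]
    have h1 : π (Fin.castAdd m j) < π (Fin.natAdd c i) :=
      h (Fin.castAdd m j) (Fin.natAdd c i) j.is_lt (Nat.le_add_right c i)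
    refine ⟨fun h2 => absurd h2 (lt_asymm h1), fun h2 => ?_⟩
    rw [Fin.lt_def, Fin.val_castAdd, Fin.val_natAdd] at h2
    have := (σ j).is_lt
    omega
  · rw [sumPerm_natAdd, sumPerm_natAdd]
    have h2 : Fin.natAdd c (τ i) < Fin.natAdd c (τ j) ↔ τ i < τ j :=
      (Fin.strictMono_natAdd c).lt_iff_lt
    rw [h2]
    exact (hτ i j).symm

theorem exists_dsum {n : ℕ} (π : Equiv.Perm (Fin n)) {c : ℕ} (hc : c ≤ n)
    (h : IsCut ⟨n, π⟩ c) : ∃ σ : Equiv.Perm (Fin c), ∃ τ : Equiv.Perm (Fin (n - c)),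
      (⟨n, π⟩ : P) = dsum ⟨c, σ⟩ ⟨n - c, τ⟩ ∧
      (∀ i j : Fin c, σ i < σ j ↔ π ⟨i, by omega⟩ < π ⟨j, by omega⟩) ∧
      ∀ i j : Fin (n - c), τ i < τ j ↔ π ⟨c + i, by omega⟩ < π ⟨c + j, by omega⟩ := by
  have key : ∀ (m n : ℕ) (hn : n = c + m) (π : Equiv.Perm (Fin n)) (_ : IsCut ⟨n, π⟩ c),
      ∃ σ : Equiv.Perm (Fin c), ∃ τ : Equiv.Perm (Fin m),
      (⟨n, π⟩ : P) = dsum ⟨c, σ⟩ ⟨m, τ⟩ ∧
      (∀ i j : Fin c, σ i < σ j ↔ π ⟨i, by omega⟩ < π ⟨j, by omega⟩) ∧
      ∀ i j : Fin m, τ i < τ j ↔ π ⟨c + i, by omega⟩ < π ⟨c + j, by omega⟩ := by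
    intro m n hn π h
    subst hn
    obtain ⟨σ, τ, h1, h2, h3⟩ := exists_sumPerm π h
    refine ⟨σ, τ, ?_, h2, h3⟩
    rw [h1]
    rfl
  exact key (n - c) n (by omega) π h

theorem isCut_dsum (σ τ : P) : IsCut (dsum σ τ) σ.1 := by
  obtain ⟨a, σ⟩ := σ
  obtain ⟨b, τ⟩ := τ
  have key : ∀ i j : Fin (a + b), (i : ℕ) < a → a ≤ j → sumPerm σ τ i < sumPerm σ τ j := by
    intro i j hi hj
    have hj2 := j.is_lt
    obtain ⟨i', rfl⟩ : ∃ i', i = Fin.castAdd b i' := ⟨⟨i, hi⟩, rfl⟩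
    obtain ⟨j', rfl⟩ : ∃ j', j = Fin.natAdd a j' := ⟨⟨(j : ℕ) - a, by omega⟩, Fin.ext (by
      rw [Fin.val_natAdd]
      show (j : ℕ) = a + ((j : ℕ) - a)
      omega)⟩
    rw [sumPerm_castAdd, sumPerm_natAdd, Fin.lt_def, Fin.val_castAdd, Fin.val_natAdd]
    have := (σ i').is_lt
    omega
  exact key

theorem indecomposable_iff (π : P) : Indecomposable π ↔ 1 ≤ π.1 ∧ CutInd π := by
  constructor
  · rintro ⟨h1, h2⟩
    refine ⟨h1, fun c hc hcn => ?_⟩
    by_contra h3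
    push Not at h3
    have h4 : IsCut π c := by
      intro i j hi hj
      refine lt_of_le_of_ne (h3 i j hi hj) (fun h => ?_)
      have := congrArg Fin.val (π.2.injective h)
      omega
    obtain ⟨σ, τ, h5, _⟩ := exists_dsum π.2 hcn.le h4
    exact h2 ⟨c, σ⟩ ⟨π.1 - c, τ⟩ hc (show 1 ≤ π.1 - c by omega) h5
  · rintro ⟨h1, h2⟩
    refine ⟨h1, fun σ τ hσ hτ h => ?_⟩
    subst h
    obtain ⟨i, j, hi, hj, hij⟩ := h2 σ.1 hσ (show σ.1 < σ.1 + τ.1 by omega)
    exact absurd hij (lt_asymm (isCut_dsum σ τ i j hi hj))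

/-! ### counting -/

open scoped Classical in
/-- The members of length `n` as a finite set. -/
noncomputable def fin (X : Set P) (n : ℕ) : Finset (Equiv.Perm (Fin n)) :=
  univ.filter (fun π => (⟨n, π⟩ : P) ∈ X)

theorem mem_fin {X : Set P} {n : ℕ} {π : Equiv.Perm (Fin n)} : π ∈ fin X n ↔ (⟨n, π⟩ : P) ∈ X := by
  classical
  unfold fin
  rw [mem_filter]
  exact ⟨fun h => h.2, fun h => ⟨mem_univ _, h⟩⟩

theorem num_eq (X : Set P) (n : ℕ) : num X n = (fin X n).card := by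
  classical
  unfold num fin
  rw [Nat.card_eq_fintype_card, Fintype.card_subtype]

theorem sumPerm_injective {a b : ℕ} {σ σ' : Equiv.Perm (Fin a)} {τ τ' : Equiv.Perm (Fin b)}
    (h : sumPerm σ τ = sumPerm σ' τ') : σ = σ' ∧ τ = τ' := by
  constructor
  · ext i
    have h1 := sumPerm_castAdd σ τ i
    have h2 := sumPerm_castAdd σ' τ' i
    rw [h] at h1
    have h3 := congrArg Fin.val (h1.symm.trans h2)
    simpa using h3
  · ext i
    have h1 := sumPerm_natAdd σ τ i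
    have h2 := sumPerm_natAdd σ' τ' i
    rw [h] at h1
    have h3 := congrArg Fin.val (h1.symm.trans h2)
    simpa using h3

/-- The members of a class are sums of an indecomposable and a rest. -/
theorem num_le {C : Set P} (hC : IsClass C) {n : ℕ} (hn : 1 ≤ n) :
    num C n ≤ ∑ c ∈ Icc 1 n, num (ind C) c * num C (n - c) := by
  classical
  have key : ∀ π ∈ fin C n, ∃ x : (c : ℕ) × (Equiv.Perm (Fin c) × Equiv.Perm (Fin (n - c))),
      x ∈ (Icc 1 n).sigma (fun c => fin (ind C) c ×ˢ fin C (n - c)) ∧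
      (⟨n, π⟩ : P) = dsum ⟨x.1, x.2.1⟩ ⟨n - x.1, x.2.2⟩ := by
    intro π hπ
    rw [mem_fin] at hπ
    have hex : ∃ c, 1 ≤ c ∧ c ≤ n ∧ IsCut ⟨n, π⟩ c :=
      ⟨n, hn, le_rfl, fun i j _ hj => by
        have h1 : (j : ℕ) < n := j.is_lt
        omega⟩
    obtain ⟨hc1, hcn, hcut⟩ := Nat.find_spec hex
    have hmin := fun c (h : c < Nat.find hex) => Nat.find_min hex h
    obtain ⟨c, hc⟩ : ∃ c, c = Nat.find hex := ⟨_, rfl⟩
    rw [← hc] at hc1 hcn hcut hmin
    obtain ⟨σ, τ, h1, h2, h3⟩ := exists_dsum π hcn hcut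
    refine ⟨⟨c, σ, τ⟩, ?_, h1⟩
    rw [mem_sigma, mem_Icc, mem_product, mem_fin, mem_fin]
    refine ⟨⟨hc1, hcn⟩, ⟨hC _ hπ _ ?_, ?_⟩, hC _ hπ _ ?_⟩
    · exact ⟨fun i => ⟨i, lt_of_lt_of_le i.is_lt hcn⟩, fun i j hij => hij,
        fun i j => h2 i j⟩
    · rw [indecomposable_iff]
      refine ⟨hc1, fun d hd hdc => ?_⟩
      by_contra h4
      push Not at h4
      apply hmin d hdc
      refine ⟨hd, le_trans hdc.le hcn, fun i j hi hj => ?_⟩
      have hdc' : d < c := hdc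
      by_cases hj2 : (j : ℕ) < c
      · have h5 : σ ⟨i, by omega⟩ ≤ σ ⟨j, hj2⟩ := h4 ⟨i, by omega⟩ ⟨j, hj2⟩ hi hj
        have h6 : σ ⟨i, by omega⟩ ≠ σ ⟨j, hj2⟩ := fun h => by
          have := congrArg Fin.val (σ.injective h)
          simp only at this
          omega
        exact (h2 _ _).mp (lt_of_le_of_ne h5 h6)
      · exact hcut i j (by omega) (by omega)
    · refine ⟨fun i => ⟨c + i, Nat.add_lt_of_lt_sub' i.is_lt⟩,
        fun i j hij => ?_, fun i j => h3 i j⟩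
      rw [Fin.lt_def] at hij ⊢
      show c + (i : ℕ) < c + j
      omega
  have hcard : (∑ c ∈ Icc 1 n, num (ind C) c * num C (n - c)) =
      ((Icc 1 n).sigma (fun c => fin (ind C) c ×ˢ fin C (n - c))).card := by
    rw [card_sigma]
    apply sum_congr rfl
    intro c _
    rw [card_product, num_eq, num_eq]
  rw [hcard, num_eq]
  have hch : ∀ π : Equiv.Perm (Fin n), ∃ x : (c : ℕ) × (Equiv.Perm (Fin c) ×
      Equiv.Perm (Fin (n - c))), π ∈ fin C n →
      x ∈ (Icc 1 n).sigma (fun c => fin (ind C) c ×ˢ fin C (n - c)) ∧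
      (⟨n, π⟩ : P) = dsum ⟨x.1, x.2.1⟩ ⟨n - x.1, x.2.2⟩ := by
    intro π
    by_cases h : π ∈ fin C n
    · obtain ⟨x, hx⟩ := key π h
      exact ⟨x, fun _ => hx⟩
    · exact ⟨⟨0, 1, 1⟩, fun h' => absurd h' h⟩
  choose F hF using hch
  apply card_le_card_of_injOn F
  · intro π hπ
    exact (hF π hπ).1
  · intro π hπ π' hπ' h
    have h1 := (hF π hπ).2
    have h2 := (hF π' hπ').2
    rw [h, ← h2] at h1
    exact eq_of_heq (Sigma.mk.inj h1).2

/-! ### growth rates -/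

theorem upperGrowth_le {X : Set P} {r : ℝ} (hr : 0 ≤ r)
    (h : ∀ᶠ n in atTop, (num X n : ℝ) ≤ r ^ n) : upperGrowth X ≤ ENNReal.ofReal r := by
  unfold upperGrowth
  apply limsup_le_of_le
  · isBoundedDefault
  · filter_upwards [h, eventually_ge_atTop 1] with n hn hn1
    apply ENNReal.ofReal_le_ofReal
    have h1 : ((r ^ n : ℝ)) ^ ((1 : ℝ) / (n : ℝ)) = r := by
      rw [one_div]
      exact Real.pow_rpow_inv_natCast hr (by omega)
    rw [← h1]
    exact Real.rpow_le_rpow (Nat.cast_nonneg _) hn (by positivity)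

theorem le_upperGrowth {X : Set P} {r : ℝ} (hr : 0 ≤ r)
    (h : ∀ a : ℕ, ∃ n, a ≤ n ∧ r ^ n ≤ (num X n : ℝ)) : ENNReal.ofReal r ≤ upperGrowth X := by
  unfold upperGrowth
  refine le_limsup_of_frequently_le ?_
  rw [frequently_atTop]
  intro a
  obtain ⟨n, hn, h2⟩ := h (a + 1)
  refine ⟨n, by omega, ?_⟩
  apply ENNReal.ofReal_le_ofReal
  have h1 : ((r ^ n : ℝ)) ^ ((1 : ℝ) / (n : ℝ)) = r := by
    rw [one_div]
    exact Real.pow_rpow_inv_natCast hr (by omega)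
  rw [← h1]
  exact Real.rpow_le_rpow (pow_nonneg hr n) h2 (by positivity)

/-- A criterion for the growth of a class in terms of its indecomposables. -/
theorem num_le_pow {C : Set P} (hC : IsClass C) {ρ : ℝ} (hρ : 0 < ρ)
    (h : ∀ N, ∑ c ∈ Icc 1 N, (num (ind C) c : ℝ) * ρ ^ c ≤ 1) :
    ∀ n, (num C n : ℝ) ≤ (1 / ρ) ^ n := by
  intro n
  induction n using Nat.strong_induction_on with
  | _ n ih =>
    by_cases hn : n = 0
    · subst hn
      rw [pow_zero, num_eq]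
      have h1 : (fin C 0).card ≤ 1 := by
        refine le_trans (card_le_univ _) ?_
        rw [Fintype.card_perm, Fintype.card_fin]
        exact le_refl 1
      exact_mod_cast h1
    · have h1 : (num C n : ℝ) ≤ ∑ c ∈ Icc 1 n, (num (ind C) c : ℝ) * (num C (n - c) : ℝ) := by
        exact_mod_cast num_le hC (n := n) (by omega)
      refine le_trans h1 ?_
      have h2 : ∑ c ∈ Icc 1 n, (num (ind C) c : ℝ) * (num C (n - c) : ℝ) ≤
          ∑ c ∈ Icc 1 n, (1 / ρ) ^ n * ((num (ind C) c : ℝ) * ρ ^ c) := by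
        apply sum_le_sum
        intro c hc
        rw [mem_Icc] at hc
        have h3 := ih (n - c) (by omega)
        have h4 : (1 / ρ) ^ (n - c) = (1 / ρ) ^ n * ρ ^ c := by
          have h5 : (1 / ρ) ^ n = (1 / ρ) ^ (n - c) * (1 / ρ) ^ c := by
            rw [← pow_add]
            congr 1
            omega
          rw [h5, mul_assoc, ← mul_pow, one_div, inv_mul_cancel₀ hρ.ne', one_pow, mul_one]
        calc (num (ind C) c : ℝ) * (num C (n - c) : ℝ)
            ≤ (num (ind C) c : ℝ) * ((1 / ρ) ^ n * ρ ^ c) := by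
              rw [← h4]
              exact mul_le_mul_of_nonneg_left h3 (Nat.cast_nonneg _)
          _ = (1 / ρ) ^ n * ((num (ind C) c : ℝ) * ρ ^ c) := by ring
      refine le_trans h2 ?_
      rw [← mul_sum]
      have h6 : (0 : ℝ) < (1 / ρ) ^ n := pow_pos (one_div_pos.mpr hρ) n
      calc (1 / ρ) ^ n * ∑ c ∈ Icc 1 n, (num (ind C) c : ℝ) * ρ ^ c
          ≤ (1 / ρ) ^ n * 1 := mul_le_mul_of_nonneg_left (h n) h6.le
        _ = (1 / ρ) ^ n := mul_one _

end Pool.Agent.V11170.Classes
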