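import Mathlib
import Pool.Agent.V11170.Classes

set_option autoImplicit false

/-! The class of all permutations contained in the increasing oscillation with a leaf attached to
every upper point. -/

namespace Pool.Agent.V11170.LeafOsc

open Finset Filter Topology Pool.Agent.V11170.Tools Pool.Agent.V11170.Classes

/-- The oscillation with leaves: upper points in the positions `3k`, lower points in the
positions `3k + 1`, leaves in the positions `3k + 2`. -/
def w (t : ℕ) : ℕ := if t % 3 = 0 then 2 * t + 9 else 2 * t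

/-- An embedding in `w`. -/
def Emb (π : P) (f : Fin π.1 → ℕ) : Prop :=
  StrictMono f ∧ ∀ i j, π.2 i < π.2 j ↔ w (f i) < w (f j)

/-- The class of the permutations contained in `w`. -/
def CC : Set P := {π | ∃ f, Emb π f}

theorem isClass_CC : IsClass CC := by
  rintro π ⟨f, hf, h1⟩ σ ⟨g, hg, h2⟩
  exact ⟨f ∘ g, hf.comp hg, fun i j => (h2 i j).trans (h1 _ _)⟩

theorem w_add (t k : ℕ) : w (t + 3 * k) = w t + 6 * k := by
  unfold w
  split_ifs <;> omega

theorem w_injective : Function.Injective w := by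
  intro s t h
  unfold w at h
  split_ifs at h <;> omega

theorem sum_mem_CC {a b : ℕ} {σ : Equiv.Perm (Fin a)} {τ : Equiv.Perm (Fin b)} {f : Fin a → ℕ}
    {g : Fin b → ℕ} (hf : StrictMono f) (h1 : ∀ i j, σ i < σ j ↔ w (f i) < w (f j))
    (hg : StrictMono g) (h2 : ∀ i j, τ i < τ j ↔ w (g i) < w (g j)) :
    ∃ F : Fin (a + b) → ℕ, StrictMono F ∧
      ∀ x y, sumPerm σ τ x < sumPerm σ τ y ↔ w (F x) < w (F y) := by
  obtain ⟨T, hT⟩ : ∃ T, ∀ i : Fin a, f i + 5 ≤ T := by
    refine ⟨(∑ i : Fin a, f i) + 5, fun i => ?_⟩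
    have := single_le_sum (f := f) (s := univ) (fun _ _ => Nat.zero_le _) (mem_univ i)
    omega
  have hpos : ∀ (i : Fin a) (j : Fin b), f i < g j + 3 * T ∧ w (f i) < w (g j + 3 * T) := by
    intro i j
    have := hT i
    rw [w_add]
    unfold w
    split_ifs <;> omega
  refine ⟨fun x => Fin.addCases (fun i => f i) (fun j => g j + 3 * T) x, ?_, ?_⟩
  · intro x y hxy
    revert hxy
    refine Fin.addCases (fun i => ?_) (fun i => ?_) x <;>
      refine Fin.addCases (fun j => ?_) (fun j => ?_) y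
    · intro hxy
      simp only [Fin.addCases_left]
      exact hf hxy
    · intro _
      simp only [Fin.addCases_left, Fin.addCases_right]
      exact (hpos i j).1
    · intro hxy
      rw [Fin.lt_def, Fin.val_natAdd, Fin.val_castAdd] at hxy
      have := j.is_lt
      omega
    · intro hxy
      simp only [Fin.addCases_right]
      have : i < j := (Fin.strictMono_natAdd a).lt_iff_lt.mp hxy
      have := hg this
      omega
  · intro x y
    refine Fin.addCases (fun i => ?_) (fun i => ?_) x <;>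
      refine Fin.addCases (fun j => ?_) (fun j => ?_) y
    · simp only [Fin.addCases_left, sumPerm_castAdd]
      exact h1 i j
    · simp only [Fin.addCases_left, Fin.addCases_right, sumPerm_castAdd, sumPerm_natAdd]
      refine ⟨fun _ => (hpos i j).2, fun _ => ?_⟩
      rw [Fin.lt_def, Fin.val_castAdd, Fin.val_natAdd]
      have := (σ i).is_lt
      omega
    · simp only [Fin.addCases_left, Fin.addCases_right, sumPerm_castAdd, sumPerm_natAdd]
      have h3 := (hpos j i).2
      refine ⟨fun h4 => ?_, fun h4 => by omega⟩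
      rw [Fin.lt_def, Fin.val_castAdd, Fin.val_natAdd] at h4
      have := (σ j).is_lt
      omega
    · simp only [Fin.addCases_right, sumPerm_natAdd]
      rw [w_add, w_add, Nat.add_lt_add_iff_right, ← h2 i j]
      exact (Fin.strictMono_natAdd a).lt_iff_lt

theorem sumClosed_CC : SumClosed CC := by
  rintro ⟨a, σ⟩ ⟨f, hf, h1⟩ ⟨b, τ⟩ ⟨g, hg, h2⟩
  exact sum_mem_CC hf h1 hg h2

/-! ### cuts -/

/-- The cut lemma. -/
theorem cut {π : P} (hi : CutInd π) {f : Fin π.1 → ℕ} (hf : Emb π f) (Q : ℕ → Prop)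
    (hQ : ∀ i j, ¬ Q (f i) → Q (f j) → f i < f j ∧ w (f i) < w (f j))
    (h1 : ∃ i, ¬ Q (f i)) (h2 : ∃ i, Q (f i)) : False := by
  classical
  have hex : ∃ c, ∃ h : c < π.1, Q (f ⟨c, h⟩) := by
    obtain ⟨i, hi⟩ := h2
    exact ⟨i, i.is_lt, hi⟩
  obtain ⟨hcn, hQc⟩ := Nat.find_spec hex
  have hmin := fun c (h : c < Nat.find hex) => Nat.find_min hex h
  obtain ⟨c, hc⟩ : ∃ c, c = Nat.find hex := ⟨_, rfl⟩
  simp only [← hc] at hcn hQc hmin
  have hlow : ∀ i : Fin π.1, (i : ℕ) < c → ¬ Q (f i) := fun i hic h => hmin i hic ⟨i.is_lt, h⟩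
  have hhigh : ∀ i : Fin π.1, c ≤ i → Q (f i) := by
    intro i hci
    by_contra h
    have h3 := (hQ i ⟨c, hcn⟩ h hQc).1
    have h4 : f ⟨c, hcn⟩ ≤ f i := hf.1.monotone (Fin.le_def.mpr hci)
    omega
  have hc0 : 0 < c := by
    obtain ⟨i, hi⟩ := h1
    by_contra h
    exact hi (hhigh i (by omega))
  obtain ⟨i, j, hic, hcj, hij⟩ := hi c hc0 hcn
  have h5 := (hQ i j (hlow i hic) (hhigh j hcj)).2
  exact absurd ((hf.2 i j).mpr h5) (lt_asymm hij)

/-- The index of the path vertex of `t`. -/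
def q (t : ℕ) : ℕ := if t % 3 = 1 then 2 * (t / 3) else 2 * (t / 3) + 1

theorem lower_mem {π : P} (hi : CutInd π) {f : Fin π.1 → ℕ} (hf : Emb π f) {k : ℕ}
    (h1 : ∃ i, q (f i) < 2 * k) (h2 : ∃ i, 2 * k < q (f i)) : ∃ i, f i = 3 * k + 1 := by
  by_contra h
  push Not at h
  refine cut hi hf (fun t => 2 * k < q t) ?_ ?_ h2
  · intro i j hi hj
    have h3 := h i
    have h4 := h j
    unfold q at hi hj
    unfold w
    split_ifs at hi hj ⊢ <;> omega
  · obtain ⟨i, hi⟩ := h1
    exact ⟨i, by omega⟩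

theorem upper_mem {π : P} (hi : CutInd π) {f : Fin π.1 → ℕ} (hf : Emb π f) {k : ℕ}
    (h1 : ∃ i, q (f i) ≤ 2 * k + 1) (h2 : ∃ i, 2 * k + 1 ≤ q (f i)) (h3 : 2 ≤ π.1) :
    ∃ i, f i = 3 * k := by
  by_contra h
  push Not at h
  by_cases h4 : ∃ i, q (f i) < 2 * k + 1
  · refine cut hi hf (fun t => 2 * k + 1 ≤ q t) ?_ ?_ h2
    · intro i j hi hj
      have h3 := h i
      have h4 := h j
      unfold q at hi hj
      unfold w
      split_ifs at hi hj ⊢ <;> omega
    · obtain ⟨i, hi⟩ := h4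
      exact ⟨i, by omega⟩
  · push Not at h4
    have h5 : ∀ i, q (f i) = 2 * k + 1 → f i = 3 * k + 2 := by
      intro i hi
      have h3 := h i
      unfold q at hi
      split_ifs at hi <;> omega
    obtain ⟨i0, hi0⟩ := h1
    have h6 : q (f i0) = 2 * k + 1 := le_antisymm hi0 (h4 i0)
    refine cut hi hf (fun t => 2 * k + 1 < q t) ?_ ⟨i0, by omega⟩ ?_
    · intro i j hi hj
      have h7 : f i = 3 * k + 2 := h5 i (le_antisymm (not_lt.mp hi) (h4 i))
      rw [h7]
      unfold q at hj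
      unfold w
      split_ifs at hj ⊢ <;> omega
    · by_contra h7
      push Not at h7
      have h8 : ∀ i, f i = 3 * k + 2 := fun i => h5 i (le_antisymm (h7 i) (h4 i))
      have h9 := hf.1.injective ((h8 ⟨0, by omega⟩).trans (h8 ⟨1, by omega⟩).symm)
      have := congrArg Fin.val h9
      simp at this

/-! ### the minimal embedding -/

/-- The sum of the positions. -/
def wt {π : P} (f : Fin π.1 → ℕ) : ℕ := ∑ i, f i

/-- An embedding of minimal weight. -/
def MinEmb (π : P) (f : Fin π.1 → ℕ) : Prop := Emb π f ∧ ∀ g, Emb π g → wt f ≤ wt g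

theorem exists_minEmb {π : P} (h : π ∈ CC) : ∃ f, MinEmb π f := by
  classical
  have hex : ∃ s, ∃ f, Emb π f ∧ wt f = s := by
    obtain ⟨f, hf⟩ := h
    exact ⟨wt f, f, hf, rfl⟩
  obtain ⟨f, hf, h1⟩ := Nat.find_spec hex
  refine ⟨f, hf, fun g hg => ?_⟩
  rw [h1]
  exact Nat.find_min' hex ⟨g, hg, rfl⟩

/-- A map preserving both orders gives a new embedding. -/
theorem emb_comp {π : P} {f : Fin π.1 → ℕ} (hf : Emb π f) (φ : ℕ → ℕ)
    (h1 : ∀ i j, f i < f j → φ (f i) < φ (f j))
    (h2 : ∀ i j, w (f i) < w (f j) → w (φ (f i)) < w (φ (f j))) : Emb π (φ ∘ f) := by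
  refine ⟨fun i j hij => h1 i j (hf.1 hij), fun i j => ?_⟩
  rw [hf.2]
  refine ⟨h2 i j, fun h3 => ?_⟩
  by_contra h4
  rcases lt_or_eq_of_le (not_lt.mp h4) with h5 | h5
  · exact absurd h3 (lt_asymm (h2 j i h5))
  · have h3' : w (φ (f i)) < w (φ (f j)) := h3
    rw [w_injective h5] at h3'
    exact lt_irrefl _ h3'

theorem min_low {π : P} {f : Fin π.1 → ℕ} (hf : MinEmb π f) (hn : 1 ≤ π.1) : ∃ i, f i < 3 := by
  by_contra h
  push Not at h
  have h1 : Emb π ((fun t => t - 3) ∘ f) := by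
    apply emb_comp hf.1
    · intro i j hij
      have := h i
      have := h j
      omega
    · intro i j hij
      have h3 := h i
      have h4 := h j
      obtain ⟨s, hs⟩ : ∃ s, f i = s + 3 * 1 := ⟨f i - 3, by omega⟩
      obtain ⟨t, ht⟩ : ∃ t, f j = t + 3 * 1 := ⟨f j - 3, by omega⟩
      rw [hs, ht, w_add, w_add] at hij
      rw [hs, ht]
      simp only [Nat.mul_one, Nat.add_sub_cancel]
      omega
  have h2 := hf.2 _ h1
  have h3 : wt ((fun t => t - 3) ∘ f) < wt f := by
    unfold wt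
    apply sum_lt_sum_of_nonempty (by
      have : Nonempty (Fin π.1) := ⟨⟨0, by omega⟩⟩
      exact univ_nonempty)
    intro i _
    have := h i
    simp only [Function.comp]
    omega
  omega

/-- Moving one point. -/
theorem wt_move {π : P} {f : Fin π.1 → ℕ} {a b : ℕ} (i0 : Fin π.1) (hi0 : f i0 = a)
    (hab : b < a) : wt ((fun t => if t = a then b else t) ∘ f) < wt f := by
  unfold wt
  apply sum_lt_sum
  · intro i _
    simp only [Function.comp]
    split_ifs <;> omega
  · refine ⟨i0, mem_univ _, ?_⟩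
    simp only [Function.comp]
    rw [if_pos hi0, hi0]
    exact hab

theorem min_leaf {π : P} (hi : CutInd π) {f : Fin π.1 → ℕ} (hf : MinEmb π f) {k : ℕ}
    (h : ∃ i, f i = 3 * k + 2) : ∃ i, f i = 3 * k + 1 := by
  by_contra h1
  push Not at h1
  obtain ⟨i0, hi0⟩ := h
  by_cases h2 : ∃ i, f i + 3 = 3 * k
  · obtain ⟨i1, hi1⟩ := h2
    obtain ⟨i, hi⟩ := lower_mem hi hf.1 (k := k) ⟨i1, by
      unfold q
      split_ifs <;> omega⟩ ⟨i0, by
      unfold q
      split_ifs <;> omega⟩
    exact h1 i hi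
  · push Not at h2
    have h3 : Emb π ((fun t => if t = 3 * k + 2 then 3 * k + 1 else t) ∘ f) := by
      apply emb_comp hf.1
      · intro i j hij
        have := h1 i
        have := h1 j
        split_ifs <;> omega
      · intro i j hij
        have := h1 i
        have := h1 j
        have := h2 i
        have := h2 j
        unfold w at hij ⊢
        split_ifs at hij ⊢ <;> omega
    have h4 := hf.2 _ h3
    have h5 := wt_move i0 hi0 (show 3 * k + 1 < 3 * k + 2 by omega)
    omega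

theorem min_end {π : P} {f : Fin π.1 → ℕ} (hf : MinEmb π f) {k : ℕ}
    (h : ∃ i, f i = 3 * k + 4) (h1 : ∀ i, f i ≠ 3 * k + 3) : ∃ i, f i = 3 * k + 2 := by
  by_contra h2
  push Not at h2
  obtain ⟨i0, hi0⟩ := h
  have h3 : Emb π ((fun t => if t = 3 * k + 4 then 3 * k + 2 else t) ∘ f) := by
    apply emb_comp hf.1
    · intro i j hij
      have := h1 i
      have := h1 j
      have := h2 i
      have := h2 j
      split_ifs <;> omega
    · intro i j hij
      have := h1 i
      have := h1 j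
      have := h2 i
      have := h2 j
      unfold w at hij ⊢
      split_ifs at hij ⊢ <;> omega
  have h4 := hf.2 _ h3
  have h5 := wt_move i0 hi0 (show 3 * k + 2 < 3 * k + 4 by omega)
  omega

/-! ### codes -/

/-- The canonical sets of positions. -/
def SS (A e j : ℕ) (D : Finset ℕ) : Finset ℕ :=
  (range (3 * (j + A) + 5)).filter (fun t => (t % 3 = 1 ∧ A ≤ t / 3 ∧ t / 3 ≤ j + A) ∨
    (t % 3 = 0 ∧ t / 3 ≤ j + A) ∨ (t % 3 = 2 ∧ A ≤ t / 3 ∧ t / 3 < j + A ∧ t / 3 - A ∈ D) ∨
    (t = 3 * (j + A) + 2 ∧ 1 ≤ e) ∨ (t = 3 * (j + A) + 4 ∧ 2 ≤ e))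

theorem mem_SS {A e j : ℕ} {D : Finset ℕ} {t : ℕ} : t ∈ SS A e j D ↔
    (t % 3 = 1 ∧ A ≤ t / 3 ∧ t / 3 ≤ j + A) ∨
    (t % 3 = 0 ∧ t / 3 ≤ j + A) ∨ (t % 3 = 2 ∧ A ≤ t / 3 ∧ t / 3 < j + A ∧ t / 3 - A ∈ D) ∨
    (t = 3 * (j + A) + 2 ∧ 1 ≤ e) ∨ (t = 3 * (j + A) + 4 ∧ 2 ≤ e) := by
  unfold SS
  rw [mem_filter, mem_range]
  constructor
  · exact fun h => h.2
  · intro h
    refine ⟨?_, h⟩
    rcases h with h | h | h | h | h <;> omega

theorem card_SS {A e j : ℕ} {D : Finset ℕ} (hD : D ⊆ range j) (he : e ≤ 2) :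
    (SS A e j D).card = 2 * j + 2 + A + e + D.card := by
  have h1 : SS A e j D = (((Icc A (j + A)).image (fun k => 3 * k + 1)) ∪
      ((range (j + A + 1)).image (fun k => 3 * k))) ∪
      ((D.image (fun k => 3 * (k + A) + 2)) ∪ ((range e).image
        (fun x => 3 * (j + A) + 2 + 2 * x))) := by
    ext t
    rw [mem_SS, mem_union, mem_union, mem_union, mem_image, mem_image, mem_image, mem_image]
    constructor
    · rintro (h | h | h | h | h)
      · exact Or.inl (Or.inl ⟨t / 3, mem_Icc.mpr ⟨h.2.1, h.2.2⟩, by omega⟩)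
      · exact Or.inl (Or.inr ⟨t / 3, mem_range.mpr (by omega), by omega⟩)
      · exact Or.inr (Or.inl ⟨t / 3 - A, h.2.2.2, by omega⟩)
      · exact Or.inr (Or.inr ⟨0, mem_range.mpr (by omega), by omega⟩)
      · exact Or.inr (Or.inr ⟨1, mem_range.mpr (by omega), by omega⟩)
    · rintro ((⟨k, hk, rfl⟩ | ⟨k, hk, rfl⟩) | (⟨k, hk, rfl⟩ | ⟨k, hk, rfl⟩))
      · rw [mem_Icc] at hk
        exact Or.inl ⟨by omega, by omega, by omega⟩
      · rw [mem_range] at hk
        exact Or.inr (Or.inl ⟨by omega, by omega⟩)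
      · have h2 := mem_range.mp (hD hk)
        refine Or.inr (Or.inr (Or.inl ⟨by omega, by omega, by omega, ?_⟩))
        rw [show (3 * (k + A) + 2) / 3 - A = k by omega]
        exact hk
      · rw [mem_range] at hk
        by_cases h3 : k = 0
        · exact Or.inr (Or.inr (Or.inr (Or.inl ⟨by omega, by omega⟩)))
        · exact Or.inr (Or.inr (Or.inr (Or.inr ⟨by omega, by omega⟩)))
  rw [h1, card_union_of_disjoint, card_union_of_disjoint, card_union_of_disjoint,
    card_image_of_injective _ (fun a b h => by omega),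
    card_image_of_injective _ (fun a b h => by omega),
    card_image_of_injective _ (fun a b h => by omega),
    card_image_of_injective _ (fun a b h => by omega), Nat.card_Icc, card_range,
    card_range]
  · omega
  · rw [Finset.disjoint_left]
    intro t ht ht'
    rw [mem_image] at ht ht'
    obtain ⟨x, hx, rfl⟩ := ht
    obtain ⟨y, hy, h⟩ := ht'
    have h2 := mem_range.mp (hD hx)
    rw [mem_range] at hy
    omega
  · rw [Finset.disjoint_left]
    intro t ht ht'
    rw [mem_image] at ht ht'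
    obtain ⟨x, hx, rfl⟩ := ht
    obtain ⟨y, hy, h⟩ := ht'
    omega
  · rw [Finset.disjoint_left]
    intro t ht ht'
    rw [mem_union, mem_image, mem_image] at ht ht'
    rcases ht with ⟨x, hx, rfl⟩ | ⟨x, hx, rfl⟩ <;> rcases ht' with ⟨y, hy, h⟩ | ⟨y, hy, h⟩
    · omega
    · rw [mem_Icc] at hx
      rw [mem_range] at hy
      omega
    · omega
    · rw [mem_range] at hx hy
      omega

/-- The pattern of a set of positions. -/
def HasPat (S : Finset ℕ) (π : P) : Prop := ∃ f, Emb π f ∧ ∀ t, t ∈ S ↔ ∃ i, f i = t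

theorem hasPat_unique {S : Finset ℕ} {n : ℕ} {π π' : Equiv.Perm (Fin n)}
    (h : HasPat S ⟨n, π⟩) (h' : HasPat S ⟨n, π'⟩) : π = π' := by
  obtain ⟨f, ⟨hf, h1⟩, h2⟩ := h
  obtain ⟨g, ⟨hg, h3⟩, h4⟩ := h'
  have h5 : f = g := by
    apply (StrictMono.range_inj hf hg).mp
    ext t
    constructor
    · rintro ⟨i, hi⟩
      exact (h4 t).mp ((h2 t).mpr ⟨i, hi⟩)
    · rintro ⟨i, hi⟩
      exact (h2 t).mp ((h4 t).mpr ⟨i, hi⟩)
  subst h5
  exact perm_eq_of_order π π' (fun i j => (h1 i j).trans (h3 i j).symm)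

theorem hasPat_card {S : Finset ℕ} {π : P} (h : HasPat S π) : S.card = π.1 := by
  obtain ⟨f, ⟨hf, _⟩, h2⟩ := h
  have h3 : S = univ.image f := by
    ext t
    rw [h2, mem_image]
    constructor
    · rintro ⟨i, hi⟩
      exact ⟨i, mem_univ _, hi⟩
    · rintro ⟨i, _, hi⟩
      exact ⟨i, hi⟩
  rw [h3, card_image_of_injective _ hf.injective, card_univ, Fintype.card_fin]

/-- Every indecomposable member has a canonical set of positions. -/
theorem exists_code {π : P} (hπ : π ∈ CC) (hi : CutInd π) (h2 : 2 ≤ π.1) :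
    ∃ A e j D, A ≤ 1 ∧ e ≤ 2 ∧ D ⊆ range j ∧ HasPat (SS A e j D) π := by
  classical
  obtain ⟨f, hf⟩ := exists_minEmb hπ
  obtain ⟨M, hM⟩ : ∃ M : ℕ → Prop, M = fun t => ∃ i, f i = t := ⟨_, rfl⟩
  have hne : Nonempty (Fin π.1) := ⟨⟨0, by omega⟩⟩
  obtain ⟨i0, _, hi0⟩ := exists_min_image (univ : Finset (Fin π.1)) (fun i => q (f i))
    univ_nonempty
  obtain ⟨i1, _, hi1⟩ := exists_max_image (univ : Finset (Fin π.1)) (fun i => q (f i))
    univ_nonempty
  obtain ⟨A, hA⟩ : ∃ A, A = q (f i0) := ⟨_, rfl⟩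
  obtain ⟨B, hB⟩ : ∃ B, B = q (f i1) := ⟨_, rfl⟩
  have hAle : ∀ t, M t → A ≤ q t := by
    intro t ht
    rw [hM] at ht
    obtain ⟨i, rfl⟩ := ht
    rw [hA]
    exact hi0 i (mem_univ _)
  have hBge : ∀ t, M t → q t ≤ B := by
    intro t ht
    rw [hM] at ht
    obtain ⟨i, rfl⟩ := ht
    rw [hB]
    exact hi1 i (mem_univ _)
  have hM0 : M (f i0) := by
    rw [hM]
    exact ⟨i0, rfl⟩
  have hM1 : M (f i1) := by
    rw [hM]
    exact ⟨i1, rfl⟩
  have hA1 : A ≤ 1 := by
    obtain ⟨i, hi⟩ := min_low hf (by omega)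
    have h3 := hAle (f i) (by rw [hM]; exact ⟨i, rfl⟩)
    unfold q at h3
    split_ifs at h3 <;> omega
  have hU : ∀ k, 2 * k + 1 ≤ B → M (3 * k) := by
    intro k hk
    rw [hM]
    exact upper_mem hi hf.1 ⟨i0, by omega⟩ ⟨i1, by omega⟩ h2
  have hL : ∀ k, A ≤ 2 * k → 2 * k ≤ B → M (3 * k + 1) := by
    intro k hk hk'
    by_cases h3 : A = 2 * k
    · have h4 : f i0 = 3 * k + 1 := by
        rw [hA] at h3
        unfold q at h3
        split_ifs at h3 <;> omega
      rw [← h4]
      exact hM0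
    · by_cases h5 : B = 2 * k
      · have h4 : f i1 = 3 * k + 1 := by
          rw [hB] at h5
          unfold q at h5
          split_ifs at h5 <;> omega
        rw [← h4]
        exact hM1
      · rw [hM]
        exact lower_mem hi hf.1 ⟨i0, by omega⟩ ⟨i1, by omega⟩
  have hX : ∀ k, M (3 * k + 2) → A ≤ 2 * k ∧ 2 * k + 1 ≤ B := by
    intro k hk
    have h3 := hBge _ hk
    rw [hM] at hk
    have h4 := min_leaf hi hf hk
    have h5 := hAle (3 * k + 1) (by rw [hM]; exact h4)
    unfold q at h3 h5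
    split_ifs at h3 h5 <;> omega
  have hE : ∀ k, B = 2 * k + 2 → M (3 * k + 2) := by
    intro k hk
    have h3 : M (3 * k + 4) := hL (k + 1) (by omega) (by omega)
    rw [hM] at h3 ⊢
    apply min_end hf h3
    intro i hi'
    have h4 := hBge (f i) (by rw [hM]; exact ⟨i, rfl⟩)
    rw [hi'] at h4
    unfold q at h4
    split_ifs at h4 <;> omega
  have hB1 : 1 ≤ B := by
    by_contra h3
    have h4 : ∀ i, f i = 1 := by
      intro i
      have h5 := hBge (f i) (by rw [hM]; exact ⟨i, rfl⟩)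
      unfold q at h5
      split_ifs at h5 <;> omega
    have h6 := hf.1.1.injective ((h4 ⟨0, by omega⟩).trans (h4 ⟨1, by omega⟩).symm)
    have := congrArg Fin.val h6
    simp at this
  obtain ⟨b, hb⟩ : ∃ b, b = (B - 1) / 2 := ⟨_, rfl⟩
  have hAb : A ≤ b := by
    by_contra h3
    have hA' : A = 1 := by omega
    have hb0 : b = 0 := by omega
    by_cases hB2 : B = 2
    · have h4 := (hX 0 (hE 0 (by omega))).1
      omega
    · have h4 : ∀ i, f i = 0 := by
        intro i
        have hMi : M (f i) := by rw [hM]; exact ⟨i, rfl⟩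
        have h5 := hBge (f i) hMi
        have h6 := hAle (f i) hMi
        have h7 : f i ≠ 2 := fun h => by
          rw [h] at hMi
          have := (hX 0 hMi).1
          omega
        unfold q at h5 h6
        split_ifs at h5 h6 <;> omega
      have h6 := hf.1.1.injective ((h4 ⟨0, by omega⟩).trans (h4 ⟨1, by omega⟩).symm)
      have := congrArg Fin.val h6
      simp at this
  obtain ⟨e, he⟩ : ∃ e, e = if M (3 * b + 2) then (if B = 2 * b + 1 then 1 else 2) else 0 :=
    ⟨_, rfl⟩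
  obtain ⟨j, hj⟩ : ∃ j, j = b - A := ⟨_, rfl⟩
  obtain ⟨D, hD⟩ : ∃ D, D = (range j).filter (fun d => M (3 * (d + A) + 2)) := ⟨_, rfl⟩
  have he2 : e ≤ 2 := by
    rw [he]
    split_ifs <;> omega
  refine ⟨A, e, j, D, hA1, he2, ?_, f, hf.1, ?_⟩
  · rw [hD]
    exact filter_subset _ _
  · intro t
    have hjb : j + A = b := by omega
    rw [mem_SS, hjb]
    have hMt : (∃ i, f i = t) ↔ M t := by rw [hM]
    rw [hMt]
    constructor
    · rintro (h | h | h | h | h)
      · rw [show t = 3 * (t / 3) + 1 by omega]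
        exact hL _ (by omega) (by omega)
      · rw [show t = 3 * (t / 3) by omega]
        exact hU _ (by omega)
      · obtain ⟨h3, h4, h5, h6⟩ := h
        rw [hD, mem_filter] at h6
        rw [show t = 3 * (t / 3 - A + A) + 2 by omega]
        exact h6.2
      · rw [h.1]
        by_contra h3
        rw [he, if_neg h3] at h
        omega
      · obtain ⟨h3, h4⟩ := h
        rw [he] at h4
        split_ifs at h4
        · omega
        · rw [h3]
          exact hL (b + 1) (by omega) (by omega)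
        · omega
    · intro ht
      have h3 := hAle t ht
      have h4 := hBge t ht
      rcases (by omega : t % 3 = 0 ∨ t % 3 = 1 ∨ t % 3 = 2) with h5 | h5 | h5
      · right
        left
        refine ⟨h5, ?_⟩
        unfold q at h4
        rw [if_neg (by omega)] at h4
        omega
      · unfold q at h3 h4
        rw [if_pos h5] at h3 h4
        by_cases h6 : t / 3 ≤ b
        · left
          exact ⟨h5, by omega, h6⟩
        · right
          right
          right
          right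
          have h7 : B = 2 * b + 2 := by omega
          refine ⟨by omega, ?_⟩
          rw [he, if_pos (hE b h7), if_neg (by omega)]
      · have h6 : M (3 * (t / 3) + 2) := by
          rw [show 3 * (t / 3) + 2 = t by omega]
          exact ht
        obtain ⟨h7, h8⟩ := hX _ h6
        by_cases h9 : t / 3 < b
        · right
          right
          left
          refine ⟨h5, by omega, h9, ?_⟩
          rw [hD, mem_filter, mem_range]
          refine ⟨by omega, ?_⟩
          rw [show 3 * (t / 3 - A + A) + 2 = t by omega]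
          exact ht
        · right
          right
          right
          left
          have h10 : t = 3 * b + 2 := by omega
          refine ⟨h10, ?_⟩
          rw [h10] at ht
          rw [he, if_pos ht]
          split_ifs <;> omega

/-- The codes of length `n`. -/
def codes (n N : ℕ) : Finset ((_ : ℕ × ℕ × ℕ) × Finset ℕ) :=
  (range 2 ×ˢ range 3 ×ˢ range N).sigma (fun x =>
    (range x.2.2).powerset.filter (fun D => 2 * x.2.2 + 2 + x.1 + x.2.1 + D.card = n))

/-- The number of indecomposables is at most the number of codes. -/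
theorem num_ind_le {n N : ℕ} (hn : 2 ≤ n) (hN : n ≤ N) : num (ind CC) n ≤ (codes n N).card := by
  classical
  have key : ∀ π ∈ fin (ind CC) n, ∃ c ∈ codes n N, HasPat (SS c.1.1 c.1.2.1 c.1.2.2 c.2) ⟨n, π⟩ := by
    intro π hπ
    rw [mem_fin] at hπ
    obtain ⟨h1, h2⟩ := hπ
    rw [indecomposable_iff] at h2
    obtain ⟨A, e, j, D, hA, he, hD, hp⟩ := exists_code h1 h2.2 hn
    refine ⟨⟨(A, e, j), D⟩, ?_, hp⟩
    have h3 := hasPat_card hp
    rw [card_SS hD he] at h3
    have h4 : 2 * j + 2 + A + e + D.card = n := h3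
    unfold codes
    rw [mem_sigma, mem_product, mem_product, mem_range, mem_range, mem_range, mem_filter,
      mem_powerset]
    exact ⟨⟨by simp only; omega, by simp only; omega, by simp only; omega⟩, hD, h4⟩
  have hch : ∀ π : Equiv.Perm (Fin n), ∃ c : (_ : ℕ × ℕ × ℕ) × Finset ℕ, π ∈ fin (ind CC) n →
      c ∈ codes n N ∧ HasPat (SS c.1.1 c.1.2.1 c.1.2.2 c.2) ⟨n, π⟩ := by
    intro π
    by_cases h : π ∈ fin (ind CC) n
    · obtain ⟨c, hc, hc'⟩ := key π h
      exact ⟨c, fun _ => ⟨hc, hc'⟩⟩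
    · exact ⟨⟨(0, 0, 0), ∅⟩, fun h' => absurd h' h⟩
  choose F hF using hch
  rw [num_eq]
  apply card_le_card_of_injOn F
  · intro π hπ
    exact (hF π hπ).1
  · intro π hπ π' hπ' h
    have h1 := (hF π hπ).2
    have h2 := (hF π' hπ').2
    rw [h] at h1
    exact hasPat_unique h1 h2

theorem card_codes (n N : ℕ) : (codes n N).card = ∑ x ∈ range 2 ×ˢ range 3 ×ˢ range N,
    ∑ D ∈ (range x.2.2).powerset, if 2 * x.2.2 + 2 + x.1 + x.2.1 + D.card = n then 1 else 0 := by
  unfold codes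
  rw [card_sigma]
  apply sum_congr rfl
  intro x _
  rw [card_filter]

/-! ### the upper bounds -/

theorem sum_codes (N : ℕ) (ρ : ℝ) (hρ : 0 ≤ ρ) :
    ∑ c ∈ Icc 2 N, ((codes c (N + 1)).card : ℝ) * ρ ^ c ≤
      (1 + ρ) * (1 + ρ + ρ ^ 2) * ρ ^ 2 * ∑ j ∈ range (N + 1), (ρ ^ 2 * (1 + ρ)) ^ j := by
  have h1 : ∑ c ∈ Icc 2 N, ((codes c (N + 1)).card : ℝ) * ρ ^ c =
      ∑ x ∈ range 2 ×ˢ range 3 ×ˢ range (N + 1), ∑ D ∈ (range x.2.2).powerset,
        ∑ c ∈ Icc 2 N, if 2 * x.2.2 + 2 + x.1 + x.2.1 + D.card = c then ρ ^ c else 0 := by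
    have h2 : ∀ c, ((codes c (N + 1)).card : ℝ) * ρ ^ c =
        ∑ x ∈ range 2 ×ˢ range 3 ×ˢ range (N + 1), ∑ D ∈ (range x.2.2).powerset,
          if 2 * x.2.2 + 2 + x.1 + x.2.1 + D.card = c then ρ ^ c else 0 := by
      intro c
      rw [card_codes, Nat.cast_sum, sum_mul]
      apply sum_congr rfl
      intro x _
      rw [Nat.cast_sum, sum_mul]
      apply sum_congr rfl
      intro D _
      by_cases h : 2 * x.2.2 + 2 + x.1 + x.2.1 + D.card = c
      · rw [if_pos h, if_pos h, Nat.cast_one, one_mul]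
      · rw [if_neg h, if_neg h, Nat.cast_zero, zero_mul]
    simp only [h2]
    rw [sum_comm]
    apply sum_congr rfl
    intro x _
    rw [sum_comm]
  rw [h1]
  have h3 : ∑ x ∈ range 2 ×ˢ range 3 ×ˢ range (N + 1), ∑ D ∈ (range x.2.2).powerset,
        ∑ c ∈ Icc 2 N, (if 2 * x.2.2 + 2 + x.1 + x.2.1 + D.card = c then ρ ^ c else 0) ≤
      ∑ x ∈ range 2 ×ˢ range 3 ×ˢ range (N + 1), ∑ D ∈ (range x.2.2).powerset,
        ρ ^ (2 * x.2.2 + 2 + x.1 + x.2.1 + D.card) := by
    apply sum_le_sum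
    intro x _
    apply sum_le_sum
    intro D _
    rw [sum_ite_eq]
    split_ifs
    · exact le_rfl
    · exact pow_nonneg hρ _
  refine le_trans h3 (le_of_eq ?_)
  have h4 : ∀ x : ℕ × ℕ × ℕ, ∑ D ∈ (range x.2.2).powerset,
      ρ ^ (2 * x.2.2 + 2 + x.1 + x.2.1 + D.card) =
      ρ ^ x.1 * (ρ ^ x.2.1 * (ρ ^ 2 * (ρ ^ 2 * (1 + ρ)) ^ x.2.2)) := by
    intro x
    have h5 := Finset.sum_pow_mul_eq_add_pow ρ 1 (range x.2.2)
    simp only [one_pow, mul_one, card_range] at h5
    have h6 : ∀ D ∈ (range x.2.2).powerset, ρ ^ (2 * x.2.2 + 2 + x.1 + x.2.1 + D.card) =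
        ρ ^ (2 * x.2.2 + 2 + x.1 + x.2.1) * ρ ^ D.card := fun D _ => pow_add _ _ _
    rw [sum_congr rfl h6, ← mul_sum, h5, mul_pow, ← pow_mul, add_comm ρ 1]
    rw [pow_add, pow_add, pow_add]
    ring
  simp only [h4]
  rw [sum_product]
  simp only [sum_product]
  simp only [← mul_sum]
  rw [sum_range_succ, sum_range_succ, sum_range_zero]
  simp only [← sum_mul]
  rw [sum_range_succ, sum_range_succ, sum_range_succ, sum_range_zero]
  ring

theorem num_ind_one : num (ind CC) 1 ≤ 1 := by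
  rw [num_eq]
  refine le_trans (card_le_univ _) ?_
  rw [Fintype.card_perm, Fintype.card_fin]
  exact le_refl 1

theorem sum_ind_le (N : ℕ) : ∑ c ∈ Icc 1 N, (num (ind CC) c : ℝ) * (21 / 50 : ℝ) ^ c ≤ 1 := by
  obtain ⟨ρ, hρ⟩ : ∃ ρ : ℝ, ρ = 21 / 50 := ⟨_, rfl⟩
  rw [← hρ]
  have hρ0 : 0 < ρ := by rw [hρ]; norm_num
  by_cases hN : N = 0
  · rw [hN]
    simp
  · have h1 : Icc 1 N = insert 1 (Icc 2 N) := by
      ext x
      rw [mem_insert, mem_Icc, mem_Icc]
      omega
    rw [h1, sum_insert (by rw [mem_Icc]; omega)]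
    have h2 : ∑ c ∈ Icc 2 N, (num (ind CC) c : ℝ) * ρ ^ c ≤
        ∑ c ∈ Icc 2 N, ((codes c (N + 1)).card : ℝ) * ρ ^ c := by
      apply sum_le_sum
      intro c hc
      rw [mem_Icc] at hc
      apply mul_le_mul_of_nonneg_right _ (pow_nonneg hρ0.le c)
      exact_mod_cast num_ind_le hc.1 (by omega)
    have h3 := sum_codes N ρ hρ0.le
    have h4 : ∑ j ∈ range (N + 1), (ρ ^ 2 * (1 + ρ)) ^ j ≤ 1 / (1 - ρ ^ 2 * (1 + ρ)) := by
      have h5 : ρ ^ 2 * (1 + ρ) < 1 := by rw [hρ]; norm_num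
      have h6 : 0 ≤ ρ ^ 2 * (1 + ρ) := by positivity
      have h7 := summable_geometric_of_lt_one h6 h5
      have h8 := h7.sum_le_tsum (range (N + 1)) (fun i _ => pow_nonneg h6 i)
      rw [tsum_geometric_of_lt_one h6 h5] at h8
      rw [one_div]
      exact h8
    have h5 : (num (ind CC) 1 : ℝ) ≤ 1 := by exact_mod_cast num_ind_one
    have h6 : (1 + ρ) * (1 + ρ + ρ ^ 2) * ρ ^ 2 * ∑ j ∈ range (N + 1), (ρ ^ 2 * (1 + ρ)) ^ j ≤
        (1 + ρ) * (1 + ρ + ρ ^ 2) * ρ ^ 2 * (1 / (1 - ρ ^ 2 * (1 + ρ))) :=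
      mul_le_mul_of_nonneg_left h4 (by positivity)
    have h7 : (num (ind CC) 1 : ℝ) * ρ ^ 1 ≤ 1 * ρ ^ 1 :=
      mul_le_mul_of_nonneg_right h5 (by positivity)
    have h8 : 1 * ρ ^ 1 + (1 + ρ) * (1 + ρ + ρ ^ 2) * ρ ^ 2 * (1 / (1 - ρ ^ 2 * (1 + ρ))) ≤ 1 := by
      rw [hρ]
      norm_num
    linarith

/-- The class grows at most like `(50/21)^n`. -/
theorem growth_CC_le : upperGrowth CC ≤ ENNReal.ofReal (50 / 21) := by
  apply upperGrowth_le (by norm_num)
  filter_upwards with n
  have h := num_le_pow isClass_CC (ρ := 21 / 50) (by norm_num) sum_ind_le n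
  rw [show (1 : ℝ) / (21 / 50) = 50 / 21 by norm_num] at h
  exact h

theorem codes_le (n : ℕ) : (codes n (n + 1)).card ≤ 6 * (n + 1) * 2 ^ (n / 2) := by
  rw [card_codes]
  have h1 : ∀ x ∈ range 2 ×ˢ range 3 ×ˢ range (n + 1), ∑ D ∈ (range x.2.2).powerset,
      (if 2 * x.2.2 + 2 + x.1 + x.2.1 + D.card = n then 1 else 0) ≤ 2 ^ (n / 2) := by
    intro x _
    by_cases h : 2 * x.2.2 ≤ n
    · refine le_trans (sum_le_sum (g := fun _ => 1) (fun D _ => ?_)) ?_
      · split_ifs <;> omega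
      · rw [sum_const, card_powerset, card_range, smul_eq_mul, mul_one]
        exact Nat.pow_le_pow_right (by norm_num) (by omega)
    · rw [sum_eq_zero]
      · exact Nat.zero_le _
      · intro D _
        rw [if_neg (by omega)]
  refine le_trans (sum_le_sum h1) ?_
  rw [sum_const, card_product, card_product, card_range, card_range, card_range, smul_eq_mul]
  apply le_of_eq
  ring

/-- The indecomposables grow at most like `(3/2)^n`. -/
theorem growth_ind_le : upperGrowth (ind CC) ≤ ENNReal.ofReal (3 / 2) := by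
  apply upperGrowth_le (by norm_num)
  have h1 : Tendsto (fun n : ℕ => (n : ℝ) ^ 2 * (8 / 9 : ℝ) ^ n) atTop (𝓝 0) :=
    tendsto_pow_const_mul_const_pow_of_abs_lt_one 2 (by rw [abs_of_pos] <;> norm_num)
  have h2 := h1.eventually_lt_const (show (0 : ℝ) < 1 / 144 by norm_num)
  filter_upwards [h2, eventually_ge_atTop 2] with n hn hn2
  have h3 : (num (ind CC) n : ℝ) ≤ 6 * ((n : ℝ) + 1) * 2 ^ (n / 2) := by
    exact_mod_cast le_trans (num_ind_le hn2 (Nat.le_succ n)) (codes_le n)
  refine le_trans h3 ?_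
  apply le_of_sq_le_sq _ (by positivity)
  have h4 : ((2 : ℝ) ^ (n / 2)) ^ 2 ≤ 2 ^ n := by
    rw [← pow_mul]
    exact pow_le_pow_right₀ (by norm_num) (Nat.div_mul_le_self n 2)
  have h5 : ((3 / 2 : ℝ) ^ n) ^ 2 = (9 / 4) ^ n := by
    rw [← pow_mul, mul_comm, pow_mul]
    norm_num
  have h6 : (2 : ℝ) ^ n = (8 / 9) ^ n * (9 / 4) ^ n := by
    rw [← mul_pow]
    norm_num
  have h7 : (n : ℝ) + 1 ≤ 2 * n := by
    have : (2 : ℝ) ≤ n := by exact_mod_cast hn2
    linarith
  have h8 : (0 : ℝ) < (9 / 4) ^ n := by positivity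
  rw [h5]
  calc (6 * ((n : ℝ) + 1) * 2 ^ (n / 2)) ^ 2
      = 36 * ((n : ℝ) + 1) ^ 2 * ((2 : ℝ) ^ (n / 2)) ^ 2 := by ring
    _ ≤ 36 * (2 * (n : ℝ)) ^ 2 * (2 : ℝ) ^ n := by
        apply mul_le_mul _ h4 (by positivity) (by positivity)
        apply mul_le_mul_of_nonneg_left _ (by norm_num)
        exact pow_le_pow_left₀ (by positivity) h7 2
    _ = 144 * ((n : ℝ) ^ 2 * (8 / 9 : ℝ) ^ n) * (9 / 4 : ℝ) ^ n := by
        rw [h6]
        ring
    _ ≤ 1 * (9 / 4 : ℝ) ^ n := by
        apply mul_le_mul_of_nonneg_right _ h8.le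
        linarith
    _ = (9 / 4 : ℝ) ^ n := one_mul _

/-! ### the lower bound -/

/-- All points except the leaves outside `D`. -/
def pD (D : Finset ℕ) (t : ℕ) : Prop := t % 3 = 2 → t / 3 ∈ D

instance (D : Finset ℕ) : DecidablePred (pD D) := fun t => by
  unfold pD
  infer_instance

theorem pD_infinite (D : Finset ℕ) : {t | pD D t}.Infinite := by
  apply Set.infinite_of_injective_forall_mem (f := fun k : ℕ => 3 * k)
  · intro a b h
    simp only at h
    omega
  · intro k
    show pD D (3 * k)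
    intro h
    omega

theorem count_pD (D : Finset ℕ) : ∀ k, Nat.count (pD D) (3 * k) =
    2 * k + (D.filter (fun x => x < k)).card := by
  intro k
  induction k with
  | zero => simp
  | succ k ih =>
    rw [show 3 * (k + 1) = 3 * k + 1 + 1 + 1 by ring, Nat.count_succ, Nat.count_succ,
      Nat.count_succ, ih, if_pos (show pD D (3 * k) from fun h => by omega),
      if_pos (show pD D (3 * k + 1) from fun h => by omega)]
    have h1 : pD D (3 * k + 1 + 1) ↔ k ∈ D := by
      unfold pD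
      rw [show (3 * k + 1 + 1) / 3 = k by omega]
      exact ⟨fun h => h (by omega), fun h _ => h⟩
    by_cases h2 : k ∈ D
    · rw [if_pos (h1.mpr h2)]
      have h3 : D.filter (fun x => x < k + 1) = insert k (D.filter (fun x => x < k)) := by
        ext x
        rw [mem_filter, mem_insert, mem_filter]
        constructor
        · rintro ⟨h4, h5⟩
          by_cases h6 : x = k
          · exact Or.inl h6
          · exact Or.inr ⟨h4, by omega⟩
        · rintro (rfl | ⟨h4, h5⟩)
          · exact ⟨h2, by omega⟩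
          · exact ⟨h4, by omega⟩
      rw [h3, card_insert_of_notMem (by rw [mem_filter]; omega)]
      ring
    · rw [if_neg (fun h => h2 (h1.mp h))]
      have h3 : D.filter (fun x => x < k + 1) = D.filter (fun x => x < k) := by
        ext x
        rw [mem_filter, mem_filter]
        constructor
        · rintro ⟨h4, h5⟩
          refine ⟨h4, ?_⟩
          by_contra h6
          have : x = k := by omega
          rw [this] at h4
          exact h2 h4
        · rintro ⟨h4, h5⟩
          exact ⟨h4, by omega⟩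
      rw [h3]
      ring

theorem count_pD_two (D : Finset ℕ) (k : ℕ) : Nat.count (pD D) (3 * k + 2) =
    2 * k + 2 + (D.filter (fun x => x < k)).card := by
  rw [show 3 * k + 2 = 3 * k + 1 + 1 by ring, Nat.count_succ, Nat.count_succ, count_pD,
    if_pos (show pD D (3 * k) from fun h => by omega),
    if_pos (show pD D (3 * k + 1) from fun h => by omega)]
  ring

/-- The permutation of the first points. -/
theorem exists_perm_pD (D : Finset ℕ) (n : ℕ) : ∃ π : Equiv.Perm (Fin n),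
    ∀ i j, π i < π j ↔ w (Nat.nth (pD D) i) < w (Nat.nth (pD D) j) := by
  obtain ⟨π, hπ⟩ := exists_perm (fun i : Fin n => w (Nat.nth (pD D) i)) (fun i j hij =>
    Fin.ext (Nat.nth_injective (pD_infinite D) (w_injective hij)))
  exact ⟨π, hπ⟩

theorem exists_index {D : Finset ℕ} {m s : ℕ} (hs : pD D s) (hsm : s < 3 * m + 2) {n : ℕ}
    (hn : n = Nat.count (pD D) (3 * m + 2)) : ∃ i, i < n ∧ Nat.nth (pD D) i = s :=
  ⟨Nat.count (pD D) s, by rw [hn]; exact Nat.count_strict_mono hs hsm, Nat.nth_count hs⟩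

theorem cutInd_pD {D : Finset ℕ} {m n : ℕ} (hn : n = Nat.count (pD D) (3 * m + 2))
    {π : Equiv.Perm (Fin n)}
    (hπ : ∀ i j, π i < π j ↔ w (Nat.nth (pD D) i) < w (Nat.nth (pD D) j)) :
    CutInd ⟨n, π⟩ := by
  intro c hc hcn
  have hcn' : c < n := hcn
  have hmono := Nat.nth_strictMono (pD_infinite D)
  obtain ⟨t, ht⟩ : ∃ t, t = Nat.nth (pD D) (c - 1) := ⟨_, rfl⟩
  obtain ⟨t', ht'⟩ : ∃ t', t' = Nat.nth (pD D) c := ⟨_, rfl⟩
  have htt : t < t' := by
    rw [ht, ht']
    exact hmono (by omega)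
  have ht'm : t' < 3 * m + 2 := by
    rw [ht']
    exact Nat.nth_lt_of_lt_count (by omega)
  have key : ∀ s s', pD D s → pD D s' → s ≤ t → t < s' → s' < 3 * m + 2 → w s' < w s →
      ∃ i j : Fin n, (i : ℕ) < c ∧ c ≤ j ∧ π j < π i := by
    intro s s' hs hs' h1 h2 h3 h4
    obtain ⟨i, hi, hi'⟩ := exists_index hs (by omega) hn
    obtain ⟨j, hj, hj'⟩ := exists_index hs' h3 hn
    refine ⟨⟨i, hi⟩, ⟨j, hj⟩, ?_, ?_, ?_⟩
    · show i < c
      by_contra h5
      have h6 : Nat.nth (pD D) c ≤ Nat.nth (pD D) i := hmono.monotone (by omega)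
      omega
    · show c ≤ j
      by_contra h5
      have h6 : Nat.nth (pD D) j ≤ Nat.nth (pD D) (c - 1) := hmono.monotone (by omega)
      omega
    · rw [hπ]
      show w (Nat.nth (pD D) j) < w (Nat.nth (pD D) i)
      rw [hi', hj']
      exact h4
  obtain ⟨k, hk⟩ : ∃ k, k = t / 3 := ⟨_, rfl⟩
  by_cases h0 : t % 3 = 0
  · apply key (3 * k) (3 * k + 1) (fun h => by omega) (fun h => by omega) (by omega) (by omega)
      (by omega)
    unfold w
    rw [if_neg (by omega), if_pos (by omega)]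
    omega
  · apply key (3 * k) (3 * k + 4) (fun h => by omega) (fun h => by omega) (by omega) (by omega)
      (by omega)
    unfold w
    rw [if_neg (by omega), if_pos (by omega)]
    omega

/-- The permutation determines the set of leaves. -/
theorem pD_inj {D D' : Finset ℕ} {m n : ℕ} (hD : D ⊆ range m) (hD' : D' ⊆ range m)
    (hn : n = Nat.count (pD D) (3 * m + 2)) (hn' : n = Nat.count (pD D') (3 * m + 2))
    {π : Equiv.Perm (Fin n)}
    (hπ : ∀ i j, π i < π j ↔ w (Nat.nth (pD D) i) < w (Nat.nth (pD D) j))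
    (hπ' : ∀ i j, π i < π j ↔ w (Nat.nth (pD D') i) < w (Nat.nth (pD D') j)) : D = D' := by
  classical
  have main : ∀ D D' : Finset ℕ, D ⊆ range m → D' ⊆ range m →
      n = Nat.count (pD D) (3 * m + 2) → n = Nat.count (pD D') (3 * m + 2) →
      (∀ i j, π i < π j ↔ w (Nat.nth (pD D) i) < w (Nat.nth (pD D) j)) →
      (∀ i j, π i < π j ↔ w (Nat.nth (pD D') i) < w (Nat.nth (pD D') j)) →
      ∀ k, (∀ x, x < k → (x ∈ D ↔ x ∈ D')) → k ∈ D → k ∈ D' := by
    intro D D' hD hD' hn hn' hπ hπ' k hk hkD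
    by_contra hkD'
    have hkm : k < m := mem_range.mp (hD hkD)
    obtain ⟨c, hc⟩ : ∃ c, c = Nat.count (pD D) (3 * k + 2) := ⟨_, rfl⟩
    have hc' : c = Nat.count (pD D') (3 * k + 2) := by
      rw [hc, count_pD_two, count_pD_two]
      congr 2
      ext x
      rw [mem_filter, mem_filter]
      constructor
      · rintro ⟨h1, h2⟩
        exact ⟨(hk x h2).mp h1, h2⟩
      · rintro ⟨h1, h2⟩
        exact ⟨(hk x h2).mpr h1, h2⟩
    have p2 : pD D (3 * k + 2) := fun _ => by
      rw [show (3 * k + 2) / 3 = k by omega]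
      exact hkD
    have p2' : ¬ pD D' (3 * k + 2) := fun h => by
      have h1 := h (by omega)
      rw [show (3 * k + 2) / 3 = k by omega] at h1
      exact hkD' h1
    have p3 : ∀ D, pD D (3 * k + 3) := fun D h => by omega
    have p4 : ∀ D, pD D (3 * k + 4) := fun D h => by omega
    have e1 : Nat.nth (pD D) c = 3 * k + 2 := by
      rw [hc]
      exact Nat.nth_count p2
    have e2 : Nat.nth (pD D) (c + 1) = 3 * k + 3 := by
      have h1 : Nat.count (pD D) (3 * k + 3) = c + 1 := by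
        rw [show 3 * k + 3 = 3 * k + 2 + 1 by ring, Nat.count_succ, if_pos p2, ← hc]
      rw [← h1]
      exact Nat.nth_count (p3 D)
    have h3 : Nat.count (pD D') (3 * k + 3) = c := by
      rw [show 3 * k + 3 = 3 * k + 2 + 1 by ring, Nat.count_succ, if_neg p2', ← hc', Nat.add_zero]
    have e3 : Nat.nth (pD D') c = 3 * k + 3 := by
      rw [← h3]
      exact Nat.nth_count (p3 D')
    have h4 : Nat.count (pD D') (3 * k + 4) = c + 1 := by
      rw [show 3 * k + 4 = 3 * k + 3 + 1 by ring, Nat.count_succ, if_pos (p3 D'), h3]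
    have e4 : Nat.nth (pD D') (c + 1) = 3 * k + 4 := by
      rw [← h4]
      exact Nat.nth_count (p4 D')
    have hcn : c + 1 < n := by
      rw [hn', ← h4]
      exact Nat.count_strict_mono (p4 D') (by omega)
    have h5 := (hπ ⟨c, by omega⟩ ⟨c + 1, hcn⟩).mpr (by
      show w (Nat.nth (pD D) c) < w (Nat.nth (pD D) (c + 1))
      rw [e1, e2]
      unfold w
      split_ifs <;> omega)
    have h6 := (hπ' ⟨c + 1, hcn⟩ ⟨c, by omega⟩).mpr (by
      show w (Nat.nth (pD D') (c + 1)) < w (Nat.nth (pD D') c)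
      rw [e3, e4]
      unfold w
      split_ifs <;> omega)
    exact lt_asymm h5 h6
  ext k
  induction k using Nat.strong_induction_on with
  | _ k ih =>
    exact ⟨main D D' hD hD' hn hn' hπ hπ' k ih,
      main D' D hD' hD hn' hn hπ' hπ k (fun x hx => (ih x hx).symm)⟩

/-- Many indecomposables. -/
theorem num_ind_ge (m d : ℕ) : Nat.choose m d ≤ num (ind CC) (2 * m + 2 + d) := by
  classical
  obtain ⟨n, hn⟩ : ∃ n, n = 2 * m + 2 + d := ⟨_, rfl⟩
  rw [← hn]
  have hcount : ∀ D ∈ powersetCard d (range m), n = Nat.count (pD D) (3 * m + 2) := by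
    intro D hD
    rw [mem_powersetCard] at hD
    rw [count_pD_two, filter_true_of_mem (fun x hx => mem_range.mp (hD.1 hx)), hD.2, hn]
  have hch : ∀ D : Finset ℕ, ∃ π : Equiv.Perm (Fin n),
      ∀ i j, π i < π j ↔ w (Nat.nth (pD D) i) < w (Nat.nth (pD D) j) :=
    fun D => exists_perm_pD D n
  choose F hF using hch
  have hcard : Nat.choose m d = (powersetCard d (range m)).card := by
    rw [card_powersetCard, card_range]
  rw [hcard, num_eq]
  apply card_le_card_of_injOn F
  · intro D hD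
    rw [mem_coe, mem_fin]
    refine ⟨⟨fun i => Nat.nth (pD D) i, fun i j hij => Nat.nth_strictMono (pD_infinite D) hij,
      hF D⟩, ?_⟩
    rw [indecomposable_iff]
    exact ⟨show 1 ≤ n by omega, cutInd_pD (hcount D hD) (hF D)⟩
  · intro D hD D' hD' h
    have h1 := hF D'
    rw [← h] at h1
    exact pD_inj (mem_powersetCard.mp hD).1 (mem_powersetCard.mp hD').1 (hcount D hD)
      (hcount D' hD') (hF D) h1

theorem two_pow_le_centralBinom (d : ℕ) : 2 ^ d ≤ Nat.centralBinom d := by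
  induction d with
  | zero => simp
  | succ d ih =>
    have h1 := Nat.succ_mul_centralBinom_succ d
    have h2 : (d + 1) * 2 ^ (d + 1) ≤ (d + 1) * Nat.centralBinom (d + 1) := by
      rw [h1, pow_succ]
      calc (d + 1) * (2 ^ d * 2) = 2 * (d + 1) * 2 ^ d := by ring
        _ ≤ 2 * (2 * d + 1) * Nat.centralBinom d :=
          Nat.mul_le_mul (Nat.mul_le_mul_left 2 (by omega)) ih
    exact Nat.le_of_mul_le_mul_left h2 (Nat.succ_pos d)

/-- The indecomposables grow at least like `(11/10)^n`. -/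
theorem growth_ind_ge : ENNReal.ofReal (11 / 10) ≤ upperGrowth (ind CC) := by
  apply le_upperGrowth (by norm_num)
  intro a
  obtain ⟨d, hd⟩ : ∃ d, d = a + 1 := ⟨_, rfl⟩
  refine ⟨2 * (2 * d) + 2 + d, by omega, ?_⟩
  have h1 : (2 : ℝ) ^ d ≤ (num (ind CC) (2 * (2 * d) + 2 + d) : ℝ) := by
    exact_mod_cast le_trans (two_pow_le_centralBinom d) (num_ind_ge (2 * d) d)
  refine le_trans ?_ h1
  have h2 : ∀ d : ℕ, (11 / 10 : ℝ) ^ (2 * (2 * (d + 1)) + 2 + (d + 1)) ≤ 2 ^ (d + 1) := by
    intro d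
    induction d with
    | zero => norm_num
    | succ d ih =>
      rw [show 2 * (2 * (d + 1 + 1)) + 2 + (d + 1 + 1) = 2 * (2 * (d + 1)) + 2 + (d + 1) + 5 by
        ring, pow_add, pow_succ (2 : ℝ)]
      apply mul_le_mul ih _ (by positivity) (by positivity)
      norm_num
  rw [hd]
  exact h2 a

end Pool.Agent.V11170.LeafOsc
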