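import Mathlib
import Pool.Agent.V11170.SemiBaxter

set_option autoImplicit false

/-! Two more families growing along the semi-Baxter tree. -/

namespace Pool.Agent.V11170.SemiBaxter

open Finset

/-! ### family three: permutations avoiding 2-41-3, by right insertion -/

/-- The new last entry may have value `u`. -/
def ActV (n : ℕ) (w : ℕ → ℕ) (u : ℕ) : Prop :=
  ∀ a b, a < b → b + 1 < n → ¬ (w (b + 1) < w a ∧ w a < u ∧ u ≤ w b)

/-- No occurrence of 2-41-3. -/
def AvV (n : ℕ) (w : ℕ → ℕ) : Prop :=
  ∀ a b d, a < b → b + 1 < d → d < n → ¬ (w (b + 1) < w a ∧ w a < w d ∧ w d < w b)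

theorem avV_ins {n v : ℕ} {w : ℕ → ℕ} :
    AvV (n + 1) (ins n v w) ↔ AvV n w ∧ ActV n w v := by
  constructor
  · intro h
    refine ⟨fun a b d hab hbd hd hc => ?_, fun a b hab hb hc => ?_⟩
    · have h1 := h a b d hab hbd (by omega)
      rw [ins_lt (i := a) (by omega), ins_lt (i := b) (by omega), ins_lt (i := b + 1) (by omega),
        ins_lt (i := d) hd] at h1
      apply h1
      split_ifs <;> omega
    · have h1 := h a b n hab hb (by omega)
      rw [ins_lt (i := a) (by omega), ins_lt (i := b) (by omega), ins_lt (i := b + 1) (by omega),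
        ins_self] at h1
      apply h1
      split_ifs <;> omega
  · rintro ⟨h1, h2⟩ a b d hab hbd hd
    rcases Nat.lt_succ_iff_lt_or_eq.mp hd with h | h
    · rw [ins_lt (i := a) (by omega), ins_lt (i := b) (by omega), ins_lt (i := b + 1) (by omega),
        ins_lt (i := d) h]
      have h3 := h1 a b d hab hbd h
      split_ifs <;> omega
    · subst h
      rw [ins_lt (i := a) (by omega), ins_lt (i := b) (by omega), ins_lt (i := b + 1) (by omega),
        ins_self]
      have h3 := h2 a b hab hbd
      split_ifs <;> omega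

theorem actV_ins {n v u : ℕ} {w : ℕ → ℕ} :
    ActV (n + 2) (ins (n + 1) v w) u ↔ ActV (n + 1) w (old v u) ∧
      (v ≤ w n → v < u → u ≤ w n + 1 → ∀ a, a < n → ¬ (v ≤ w a ∧ w a + 1 < u)) := by
  constructor
  · intro h
    refine ⟨fun a b hab hb hc => ?_, fun hv hu hu' a ha hc => ?_⟩
    · have h1 := h a b hab (by omega)
      rw [ins_lt (i := a) (by omega), ins_lt (i := b) (by omega),
        ins_lt (i := b + 1) (by omega)] at h1
      apply h1
      unfold old at hc
      split_ifs at hc ⊢ <;> omega
    · have h1 := h a n ha (by omega)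
      rw [ins_lt (i := a) (by omega), ins_lt (i := n) (by omega), ins_self] at h1
      apply h1
      split_ifs <;> omega
  · rintro ⟨h1, h2⟩ a b hab hb
    rcases Nat.lt_succ_iff_lt_or_eq.mp (show b + 1 < (n + 1) + 1 by omega) with h | h
    · rw [ins_lt (i := a) (by omega), ins_lt (i := b) (by omega), ins_lt (i := b + 1) (by omega)]
      have h3 := h1 a b hab h
      unfold old at h3
      split_ifs at h3 ⊢ <;> omega
    · have hbn : b = n := by omega
      subst hbn
      rw [ins_lt (i := a) (by omega), ins_lt (i := b) (by omega), ins_self]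
      intro hc
      split_ifs at hc with h4 h5
      all_goals first | omega | exact h2 (by omega) (by omega) (by omega) a hab (by omega)

open scoped Classical in
/-- Active sites below the last entry. -/
noncomputable def HV (n : ℕ) (w : ℕ → ℕ) : Finset ℕ :=
  (range (n + 2)).filter (fun u => ActV (n + 1) w u ∧ u ≤ w n)

open scoped Classical in
/-- Active sites above the last entry. -/
noncomputable def KV (n : ℕ) (w : ℕ → ℕ) : Finset ℕ :=
  (range (n + 2)).filter (fun u => ActV (n + 1) w u ∧ w n < u)

theorem mem_HV {n : ℕ} {w : ℕ → ℕ} {u : ℕ} :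
    u ∈ HV n w ↔ u ≤ n + 1 ∧ ActV (n + 1) w u ∧ u ≤ w n := by
  classical
  unfold HV
  rw [mem_filter, mem_range, Nat.lt_succ_iff]

theorem mem_KV {n : ℕ} {w : ℕ → ℕ} {u : ℕ} :
    u ∈ KV n w ↔ u ≤ n + 1 ∧ ActV (n + 1) w u ∧ w n < u := by
  classical
  unfold KV
  rw [mem_filter, mem_range, Nat.lt_succ_iff]

/-- Insertion above the last entry. -/
theorem stepV_high {n v : ℕ} {w : ℕ → ℕ} (hp : IsP (n + 1) w) (hv : v ∈ KV n w) :
    (HV (n + 1) (ins (n + 1) v w)).card =
      (HV n w).card + ((KV n w).filter (fun u => u ≤ v)).card ∧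
    (KV (n + 1) (ins (n + 1) v w)).card =
      (KV n w).card + 1 - ((KV n w).filter (fun u => u ≤ v)).card := by
  have hv' := hv
  rw [mem_KV] at hv
  obtain ⟨hvn, hact, hvx⟩ := hv
  have hwn : w n < n + 1 := hp.1 n (by omega)
  have hA : ∀ u, ActV (n + 2) (ins (n + 1) v w) u ↔ ActV (n + 1) w (old v u) := by
    intro u
    rw [actV_ins]
    constructor
    · exact fun h => h.1
    · exact fun h => ⟨h, fun h' => by omega⟩
  constructor
  · rw [← card_union_of_disjoint]
    · congr 1
      ext u
      rw [mem_union, mem_filter, mem_HV, mem_HV, mem_KV, ins_self, hA]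
      constructor
      · rintro ⟨h1, h2, h3⟩
        have h4 : old v u = u := by
          unfold old
          rw [if_pos h3]
        rw [h4] at h2
        by_cases h5 : u ≤ w n
        · exact Or.inl ⟨by omega, h2, h5⟩
        · exact Or.inr ⟨⟨by omega, h2, by omega⟩, h3⟩
      · intro h
        have h3 : u ≤ v := by omega
        have h4 : old v u = u := by
          unfold old
          rw [if_pos h3]
        rw [h4]
        rcases h with h | h
        · exact ⟨by omega, h.2.1, h3⟩
        · exact ⟨by omega, h.1.2.1, h3⟩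
    · rw [Finset.disjoint_left]
      intro u hu hu'
      rw [mem_HV] at hu
      rw [mem_filter, mem_KV] at hu'
      omega
  · have h1 : (KV (n + 1) (ins (n + 1) v w)).card =
        (insert v ((KV n w).filter (fun u => ¬ u ≤ v))).card := by
      symm
      apply card_bij (fun u _ => u + 1)
      · intro u hu
        rw [mem_insert, mem_filter, mem_KV] at hu
        rw [mem_KV, ins_self, hA]
        have h4 : old v (u + 1) = u := by
          unfold old
          rw [if_neg (by omega)]
          omega
        rw [h4]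
        rcases hu with rfl | hu
        · exact ⟨by omega, hact, by omega⟩
        · exact ⟨by omega, hu.1.2.1, by omega⟩
      · intro a _ b _ h
        omega
      · intro u hu
        rw [mem_KV, ins_self, hA] at hu
        obtain ⟨h1, h2, h3⟩ := hu
        refine ⟨u - 1, ?_, by omega⟩
        have h4 : old v u = u - 1 := by
          unfold old
          rw [if_neg (by omega)]
        rw [h4] at h2
        rw [mem_insert, mem_filter, mem_KV]
        by_cases h5 : u - 1 = v
        · exact Or.inl h5
        · exact Or.inr ⟨⟨by omega, h2, by omega⟩, by omega⟩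
    have h2 := card_filter_add_card_filter_not (s := KV n w) (fun u => u ≤ v)
    rw [h1, card_insert_of_notMem]
    · omega
    · rw [mem_filter]
      omega

/-- Insertion below the last entry. -/
theorem stepV_low {n v : ℕ} {w : ℕ → ℕ} (hp : IsP (n + 1) w)
    (hv : v ∈ HV n w) :
    (HV (n + 1) (ins (n + 1) v w)).card = ((HV n w).filter (fun u => u ≤ v)).card ∧
    (KV (n + 1) (ins (n + 1) v w)).card = (KV n w).card + 1 := by
  have hv' := hv
  rw [mem_HV] at hv
  obtain ⟨hvn, hact, hvx⟩ := hv
  have hwn : w n < n + 1 := hp.1 n (by omega)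
  constructor
  · congr 1
    ext u
    rw [mem_HV, mem_filter, mem_HV, ins_self, actV_ins]
    constructor
    · rintro ⟨h1, ⟨h2, _⟩, h3⟩
      have h5 : old v u = u := by
        unfold old
        rw [if_pos h3]
      rw [h5] at h2
      exact ⟨⟨by omega, h2, by omega⟩, h3⟩
    · rintro ⟨⟨h1, h2, h3⟩, h4⟩
      have h5 : old v u = u := by
        unfold old
        rw [if_pos h4]
      rw [h5]
      exact ⟨by omega, ⟨h2, fun _ h => by omega⟩, h4⟩
  · have h1 : (KV (n + 1) (ins (n + 1) v w)).card = (insert v (KV n w)).card := by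
      symm
      apply card_bij (fun u _ => u + 1)
      · intro u hu
        rw [mem_insert, mem_KV] at hu
        rw [mem_KV, ins_self, actV_ins]
        have h5 : old v (u + 1) = u := by
          unfold old
          rw [if_neg (by omega)]
          omega
        rw [h5]
        rcases hu with rfl | ⟨h1, h2, h3⟩
        · exact ⟨by omega, ⟨hact, fun _ _ _ a _ h => by omega⟩, by omega⟩
        · exact ⟨by omega, ⟨h2, fun _ _ h => by omega⟩, by omega⟩
      · intro a _ b _ h
        omega
      · intro u hu
        rw [mem_KV, ins_self, actV_ins] at hu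
        obtain ⟨h1, ⟨h2, h3⟩, h4⟩ := hu
        refine ⟨u - 1, ?_, by omega⟩
        have h5 : old v u = u - 1 := by
          unfold old
          rw [if_neg (by omega)]
        rw [h5] at h2
        rw [mem_insert, mem_KV]
        by_cases h6 : w n < u - 1
        · exact Or.inr ⟨by omega, h2, h6⟩
        · left
          by_contra h7
          obtain ⟨a, ha, hwa⟩ := hp.2.2 v (by omega)
          have h8 : a ≠ n := fun h => by
            rw [h] at hwa
            omega
          exact h3 hvx h4 (by omega) a (by omega) ⟨by omega, by omega⟩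
    rw [h1, card_insert_of_notMem]
    rw [mem_KV]
    omega

theorem sumV_step (n : ℕ) (w : ℕ → ℕ) (hp : IsP (n + 1) w) (f : ℕ → ℕ → ℕ) :
    ∑ v ∈ range (n + 2), (open scoped Classical in if ActV (n + 1) w v then
      f (HV (n + 1) (ins (n + 1) v w)).card (KV (n + 1) (ins (n + 1) v w)).card else 0) =
    nxt f (HV n w).card (KV n w).card := by
  classical
  have h1 : (range (n + 2)).filter (fun v => ActV (n + 1) w v) = HV n w ∪ KV n w := by
    ext u
    rw [mem_filter, mem_union, mem_HV, mem_KV, mem_range]
    constructor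
    · rintro ⟨h1, h2⟩
      by_cases hex : w n < u
      · exact Or.inr ⟨by omega, h2, hex⟩
      · exact Or.inl ⟨by omega, h2, by omega⟩
    · rintro (⟨h1, h2, _⟩ | ⟨h1, h2, _⟩)
      · exact ⟨by omega, h2⟩
      · exact ⟨by omega, h2⟩
  have h2 : Disjoint (HV n w) (KV n w) := by
    rw [Finset.disjoint_left]
    intro u hu hu'
    rw [mem_HV] at hu
    rw [mem_KV] at hu'
    omega
  rw [← sum_filter, h1, sum_union h2]
  unfold nxt
  congr 1
  · rw [← sum_rank_le (HV n w) (fun t => f t ((KV n w).card + 1))]
    apply sum_congr rfl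
    intro v hv
    obtain ⟨h3, h4⟩ := stepV_low hp hv
    rw [h3, h4]
  · rw [← sum_rank_le (KV n w) (fun t => f ((HV n w).card + t) ((KV n w).card + 1 - t))]
    apply sum_congr rfl
    intro v hv
    obtain ⟨h3, h4⟩ := stepV_high hp hv
    rw [h3, h4]

open scoped Classical in
/-- Weight of a permutation of length `n + 1`. -/
noncomputable def WV (n : ℕ) (f : ℕ → ℕ → ℕ) (w : ℕ → ℕ) : ℕ :=
  if AvV (n + 1) w then f (HV n w).card (KV n w).card else 0

theorem sumV_succ (n : ℕ) (f : ℕ → ℕ → ℕ) :
    ∑ σ : Equiv.Perm (Fin (n + 2)), WV (n + 1) f (exP σ) =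
      ∑ σ : Equiv.Perm (Fin (n + 1)), WV n (nxt f) (exP σ) := by
  classical
  rw [sum_perm_succ]
  apply sum_congr rfl
  intro σ _
  unfold WV
  by_cases h : AvV (n + 1) (exP σ)
  · rw [if_pos h, ← sumV_step n (exP σ) (isP_exP σ) f]
    apply sum_congr rfl
    intro v _
    simp only [avV_ins, h, true_and]
  · rw [if_neg h]
    apply sum_eq_zero
    intro v _
    rw [if_neg]
    rw [avV_ins]
    exact fun h' => h h'.1

theorem sumV_one (f : ℕ → ℕ → ℕ) :
    ∑ σ : Equiv.Perm (Fin 1), WV 0 f (exP σ) = f 1 1 := by
  classical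
  rw [Fintype.sum_unique]
  obtain ⟨σ, hσ⟩ : ∃ σ : Equiv.Perm (Fin 1), σ = default := ⟨_, rfl⟩
  rw [← hσ]
  have h0 : exP σ 0 = 0 := by
    have := (isP_exP σ).1 0 (by omega)
    omega
  unfold WV
  have h2 : AvV 1 (exP σ) := fun a b d _ _ hd => by omega
  have hact : ∀ u, ActV 1 (exP σ) u := fun u a b _ hb => by omega
  rw [if_pos h2]
  have h3 : KV 0 (exP σ) = {1} := by
    ext u
    rw [mem_KV, mem_singleton, h0]
    constructor
    · rintro ⟨h1, _, h3⟩
      omega
    · rintro rfl
      exact ⟨le_rfl, hact 1, by omega⟩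
  have h4 : HV 0 (exP σ) = {0} := by
    ext u
    rw [mem_HV, mem_singleton, h0]
    constructor
    · rintro ⟨_, _, h3⟩
      omega
    · rintro rfl
      exact ⟨by omega, hact 0, le_rfl⟩
  rw [h3, h4]
  rfl

theorem sumV_eq (n : ℕ) (f : ℕ → ℕ → ℕ) :
    ∑ σ : Equiv.Perm (Fin (n + 1)), WV n f (exP σ) = SB n f := by
  induction n generalizing f with
  | zero => exact sumV_one f
  | succ n ih =>
    rw [sumV_succ, ih]
    rfl

open scoped Classical in
theorem card_V (n : ℕ) :
    ((univ : Finset (Equiv.Perm (Fin (n + 1)))).filter (fun σ => AvV (n + 1) (exP σ))).card =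
      SB n (fun _ _ => 1) := by
  rw [← sumV_eq, card_filter]
  rfl

/-! ### family four: weak ascent sequences avoiding 210 -/

/-- The number of weak ascents of `w 0, …, w n`. -/
def wa (n : ℕ) (w : ℕ → ℕ) : ℕ := ((range n).filter (fun i => w i ≤ w (i + 1))).card

/-- `w 0, …, w n` is a weak ascent sequence. -/
def IsWA (n : ℕ) (w : ℕ → ℕ) : Prop := w 0 = 0 ∧ ∀ i, i < n → w (i + 1) ≤ 1 + wa i w

/-- No occurrence of 210 among the first `m` entries. -/
def Av210 (m : ℕ) (w : ℕ → ℕ) : Prop := ∀ i j k, i < j → j < k → k < m → ¬ (w k < w j ∧ w j < w i)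

/-- The value `v` does not complete an occurrence of 210. -/
def Al (m : ℕ) (w : ℕ → ℕ) (v : ℕ) : Prop := ∀ i j, i < j → j < m → w j < w i → w j ≤ v

theorem wa_le (n : ℕ) (w : ℕ → ℕ) : wa n w ≤ n := by
  unfold wa
  exact (card_filter_le _ _).trans (by rw [card_range])

theorem wa_mono {m n : ℕ} (h : m ≤ n) (w : ℕ → ℕ) : wa m w ≤ wa n w := by
  unfold wa
  apply card_le_card
  intro i hi
  rw [mem_filter, mem_range] at hi ⊢
  exact ⟨by omega, hi.2⟩

theorem wa_succ (n : ℕ) (w : ℕ → ℕ) :
    wa (n + 1) w = wa n w + if w n ≤ w (n + 1) then 1 else 0 := by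
  unfold wa
  rw [range_add_one, filter_insert]
  split_ifs with h
  · rw [card_insert_of_notMem]
    rw [mem_filter, mem_range]
    omega
  · rfl

theorem wa_app {m n v : ℕ} {w : ℕ → ℕ} (h : m < n) : wa m (app n v w) = wa m w := by
  unfold wa
  congr 1
  apply filter_congr
  intro i hi
  rw [mem_range] at hi
  rw [app_lt (i := i) (by omega), app_lt (i := i + 1) (by omega)]

theorem wa_app_succ (n v : ℕ) (w : ℕ → ℕ) :
    wa (n + 1) (app (n + 1) v w) = wa n w + if w n ≤ v then 1 else 0 := by
  rw [wa_succ, wa_app (by omega), app_lt (i := n) (by omega), app_self]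

theorem isWA_app {n v : ℕ} {w : ℕ → ℕ} :
    IsWA (n + 1) (app (n + 1) v w) ↔ IsWA n w ∧ v ≤ 1 + wa n w := by
  unfold IsWA
  rw [app_lt (i := 0) (by omega)]
  constructor
  · rintro ⟨h1, h2⟩
    refine ⟨⟨h1, fun i hi => ?_⟩, ?_⟩
    · have := h2 i (by omega)
      rwa [app_lt (by omega), wa_app (by omega)] at this
    · have := h2 n (by omega)
      rwa [app_self, wa_app (by omega)] at this
  · rintro ⟨⟨h1, h2⟩, h3⟩
    refine ⟨h1, fun i hi => ?_⟩
    rw [wa_app (by omega)]
    rcases Nat.lt_succ_iff_lt_or_eq.mp hi with h | h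
    · rw [app_lt (by omega)]
      exact h2 i h
    · subst h
      rw [app_self]
      exact h3

theorem av210_app {n v : ℕ} {w : ℕ → ℕ} :
    Av210 (n + 1) (app n v w) ↔ Av210 n w ∧ Al n w v := by
  constructor
  · intro h
    refine ⟨fun i j k hij hjk hk => ?_, fun i j hij hj h1 => ?_⟩
    · have := h i j k hij hjk (by omega)
      rwa [app_lt (i := i) (by omega), app_lt (i := j) (by omega), app_lt hk] at this
    · have := h i j n hij hj (by omega)
      rw [app_lt (i := i) (by omega), app_self, app_lt (i := j) (by omega)] at this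
      omega
  · rintro ⟨h1, h2⟩ i j k hij hjk hk
    rcases Nat.lt_succ_iff_lt_or_eq.mp hk with h | h
    · rw [app_lt (i := i) (by omega), app_lt (i := j) (by omega), app_lt h]
      exact h1 i j k hij hjk h
    · subst h
      rw [app_lt (i := i) (by omega), app_self, app_lt (i := j) (by omega)]
      have := h2 i j hij hjk
      omega

theorem al_app {n v u : ℕ} {w : ℕ → ℕ} :
    Al (n + 1) (app n v w) u ↔ Al n w u ∧ ∀ i, i < n → v < w i → v ≤ u := by
  constructor
  · intro h
    refine ⟨fun i j hij hj => ?_, fun i hi => ?_⟩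
    · have := h i j hij (by omega)
      rwa [app_lt (i := i) (by omega), app_lt (i := j) (by omega)] at this
    · have := h i n hi (by omega)
      rwa [app_self, app_lt hi] at this
  · rintro ⟨h1, h2⟩ i j hij hj
    rcases Nat.lt_succ_iff_lt_or_eq.mp hj with h | h
    · rw [app_lt (i := i) (by omega), app_lt (i := j) (by omega)]
      exact h1 i j hij h
    · subst h
      rw [app_lt (i := i) (by omega), app_self]
      exact h2 i hij

theorem isWA_bound {n : ℕ} {w : ℕ → ℕ} (h : IsWA n w) {i : ℕ} (hi : i < n + 1) :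
    w i ≤ wa n w + 1 := by
  cases i with
  | zero =>
    rw [h.1]
    omega
  | succ i =>
    have h1 := h.2 i (by omega)
    have h2 := wa_mono (show i ≤ n by omega) w
    omega

open scoped Classical in
/-- Allowed values below the maximum, or at most the last entry. -/
noncomputable def HW (n : ℕ) (w : ℕ → ℕ) : Finset ℕ :=
  (range (wa n w + 2)).filter (fun v => Al (n + 1) w v ∧ ((∃ i, i < n + 1 ∧ v < w i) ∨ v ≤ w n))

open scoped Classical in
/-- Allowed values at least the maximum and above the last entry. -/
noncomputable def KW (n : ℕ) (w : ℕ → ℕ) : Finset ℕ :=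
  (range (wa n w + 2)).filter (fun v => (∀ i, i < n + 1 → w i ≤ v) ∧ w n < v)

theorem mem_HW {n : ℕ} {w : ℕ → ℕ} {v : ℕ} :
    v ∈ HW n w ↔ v ≤ wa n w + 1 ∧ Al (n + 1) w v ∧ ((∃ i, i < n + 1 ∧ v < w i) ∨ v ≤ w n) := by
  classical
  unfold HW
  rw [mem_filter, mem_range, Nat.lt_succ_iff]

theorem mem_KW {n : ℕ} {w : ℕ → ℕ} {v : ℕ} :
    v ∈ KW n w ↔ v ≤ wa n w + 1 ∧ (∀ i, i < n + 1 → w i ≤ v) ∧ w n < v := by
  classical
  unfold KW
  rw [mem_filter, mem_range, Nat.lt_succ_iff]

theorem stepW_high {n v : ℕ} {w : ℕ → ℕ} (hv : v ∈ KW n w) :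
    (HW (n + 1) (app (n + 1) v w)).card =
      (HW n w).card + ((KW n w).filter (fun u => u ≤ v)).card ∧
    (KW (n + 1) (app (n + 1) v w)).card =
      (KW n w).card + 1 - ((KW n w).filter (fun u => u ≤ v)).card := by
  rw [mem_KW] at hv
  obtain ⟨hvn, hmax, hlast⟩ := hv
  have hwa : wa (n + 1) (app (n + 1) v w) = wa n w + 1 := by
    rw [wa_app_succ, if_pos hlast.le]
  have hal : ∀ u, Al (n + 2) (app (n + 1) v w) u ↔ Al (n + 1) w u := by
    intro u
    rw [al_app]
    constructor
    · exact fun h => h.1
    · refine fun h => ⟨h, fun i hi h' => ?_⟩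
      have := hmax i hi
      omega
  constructor
  · rw [← card_union_of_disjoint]
    · congr 1
      ext u
      rw [mem_union, mem_filter, mem_HW, mem_HW, mem_KW, hwa, hal, app_self]
      constructor
      · rintro ⟨h1, h2, h3⟩
        have h4 : u ≤ v := by
          rcases h3 with ⟨i, hi, h⟩ | h
          · rcases Nat.lt_succ_iff_lt_or_eq.mp hi with h' | h'
            · rw [app_lt h'] at h
              have := hmax i h'
              omega
            · subst h'
              rw [app_self] at h
              omega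
          · exact h
        by_cases h5 : (∃ i, i < n + 1 ∧ u < w i) ∨ u ≤ w n
        · exact Or.inl ⟨by omega, h2, h5⟩
        · push Not at h5
          exact Or.inr ⟨⟨by omega, h5.1, h5.2⟩, h4⟩
      · rintro (⟨h1, h2, h3⟩ | ⟨⟨h1, h2, h3⟩, h4⟩)
        · refine ⟨by omega, h2, Or.inr ?_⟩
          rcases h3 with ⟨i, hi, h⟩ | h
          · have := hmax i hi
            omega
          · omega
        · exact ⟨by omega, fun i j _ hj _ => h2 j hj, Or.inr h4⟩
    · rw [Finset.disjoint_left]
      intro u hu hu'
      rw [mem_HW] at hu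
      rw [mem_filter, mem_KW] at hu'
      obtain ⟨_, _, h⟩ := hu
      obtain ⟨⟨_, h2, h3⟩, _⟩ := hu'
      rcases h with ⟨i, hi, h⟩ | h
      · have := h2 i hi
        omega
      · omega
  · have h1 : KW (n + 1) (app (n + 1) v w) =
        insert (wa n w + 2) ((KW n w).filter (fun u => ¬ u ≤ v)) := by
      ext u
      rw [mem_insert, mem_filter, mem_KW, mem_KW, hwa, app_self]
      constructor
      · rintro ⟨h1, h2, h3⟩
        by_cases h4 : u = wa n w + 2
        · exact Or.inl h4
        · right
          refine ⟨⟨by omega, fun i hi => ?_, by omega⟩, by omega⟩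
          have := h2 i (by omega)
          rwa [app_lt hi] at this
      · intro h
        have h3 : v < u := by omega
        refine ⟨by omega, fun i hi => ?_, h3⟩
        rcases Nat.lt_succ_iff_lt_or_eq.mp hi with h' | h'
        · rw [app_lt h']
          have := hmax i h'
          omega
        · subst h'
          rw [app_self]
          omega
    have h2 := card_filter_add_card_filter_not (s := KW n w) (fun u => u ≤ v)
    rw [h1, card_insert_of_notMem]
    · omega
    · rw [mem_filter, mem_KW]
      omega

/-- Allowed values below the maximum. -/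
noncomputable def LW (n : ℕ) (w : ℕ → ℕ) : Finset ℕ :=
  open scoped Classical in (HW n w).filter (fun v => ∃ i, i < n + 1 ∧ v < w i)

theorem mem_LW {n : ℕ} {w : ℕ → ℕ} {v : ℕ} :
    v ∈ LW n w ↔ v ∈ HW n w ∧ ∃ i, i < n + 1 ∧ v < w i := by
  classical
  unfold LW
  rw [mem_filter]

theorem stepW_low {n v : ℕ} {w : ℕ → ℕ} (hW : IsWA n w) (hv : v ∈ LW n w) :
    (HW (n + 1) (app (n + 1) v w)).card = ((LW n w).filter (fun u => v ≤ u)).card ∧
    (KW (n + 1) (app (n + 1) v w)).card = (KW n w).card + 1 := by
  rw [mem_LW, mem_HW] at hv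
  obtain ⟨⟨hvn, hav, _⟩, i0, hi0, hvi0⟩ := hv
  have hwa : wa n w ≤ wa (n + 1) (app (n + 1) v w) := by
    rw [wa_app_succ]
    omega
  constructor
  · congr 1
    ext u
    rw [mem_filter, mem_LW, mem_HW, mem_HW, al_app, app_self]
    constructor
    · rintro ⟨h1, ⟨h2, h2'⟩, h3⟩
      have h4 := h2' i0 hi0 hvi0
      have h5 : ∃ i, i < n + 1 ∧ u < w i := by
        rcases h3 with ⟨i, hi, h⟩ | h
        · rcases Nat.lt_succ_iff_lt_or_eq.mp hi with h' | h'
          · rw [app_lt h'] at h
            exact ⟨i, h', h⟩
          · subst h'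
            rw [app_self] at h
            omega
        · exact ⟨i0, hi0, by omega⟩
      obtain ⟨i, hi, h6⟩ := h5
      have h7 := isWA_bound hW hi
      exact ⟨⟨⟨by omega, h2, Or.inl ⟨i, hi, h6⟩⟩, i, hi, h6⟩, h4⟩
    · rintro ⟨⟨⟨h1, h2, h3⟩, i, hi, h4⟩, h5⟩
      refine ⟨by omega, ⟨h2, fun _ _ _ => h5⟩, Or.inl ⟨i, by omega, ?_⟩⟩
      rwa [app_lt hi]
  · by_cases hA : ∀ i, i < n + 1 → w i ≤ w n
    · -- the last entry is the maximum
      have h1 := hA i0 hi0
      have hwa' : wa (n + 1) (app (n + 1) v w) = wa n w := by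
        rw [wa_app_succ, if_neg (by omega), Nat.add_zero]
      have h2 : KW (n + 1) (app (n + 1) v w) = insert (w n) (KW n w) := by
        ext u
        rw [mem_insert, mem_KW, mem_KW, hwa', app_self]
        constructor
        · rintro ⟨h2, h3, h4⟩
          have h5 := h3 n (by omega)
          rw [app_lt (by omega)] at h5
          by_cases h6 : u = w n
          · exact Or.inl h6
          · right
            refine ⟨h2, fun i hi => ?_, by omega⟩
            have := h3 i (by omega)
            rwa [app_lt hi] at this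
        · intro h
          have h3 : w n ≤ u := by
            rcases h with h | h
            · omega
            · exact h.2.1 n (by omega)
          refine ⟨?_, fun i hi => ?_, by omega⟩
          · rcases h with h | h
            · have := isWA_bound hW (show n < n + 1 by omega)
              omega
            · exact h.1
          · rcases Nat.lt_succ_iff_lt_or_eq.mp hi with h' | h'
            · rw [app_lt h']
              have := hA i h'
              omega
            · subst h'
              rw [app_self]
              omega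
      rw [h2, card_insert_of_notMem]
      rw [mem_KW]
      omega
    · push Not at hA
      obtain ⟨i1, hi1, hlt⟩ := hA
      have hi1n : i1 < n := by
        rcases Nat.lt_succ_iff_lt_or_eq.mp hi1 with h' | h'
        · exact h'
        · subst h'
          omega
      have h0 : w n ≤ v := hav i1 n hi1n (by omega) hlt
      have hwa' : wa (n + 1) (app (n + 1) v w) = wa n w + 1 := by
        rw [wa_app_succ, if_pos h0]
      have h2 : KW (n + 1) (app (n + 1) v w) = insert (wa n w + 2) (KW n w) := by
        ext u
        rw [mem_insert, mem_KW, mem_KW, hwa', app_self]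
        constructor
        · rintro ⟨h2, h3, h4⟩
          by_cases h6 : u = wa n w + 2
          · exact Or.inl h6
          · right
            refine ⟨by omega, fun i hi => ?_, by omega⟩
            have := h3 i (by omega)
            rwa [app_lt hi] at this
        · intro h
          have h3 : ∀ i, i < n + 1 → w i ≤ u := by
            intro i hi
            rcases h with h | h
            · have := isWA_bound hW hi
              omega
            · exact h.2.1 i hi
          have h4 := h3 i0 hi0
          refine ⟨by omega, fun i hi => ?_, by omega⟩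
          rcases Nat.lt_succ_iff_lt_or_eq.mp hi with h' | h'
          · rw [app_lt h']
            exact h3 i h'
          · subst h'
            rw [app_self]
            omega
      rw [h2, card_insert_of_notMem]
      rw [mem_KW]
      omega

theorem stepW_top {n : ℕ} {w : ℕ → ℕ} (hW : IsWA n w) (hA : ∀ i, i < n + 1 → w i ≤ w n) :
    (HW (n + 1) (app (n + 1) (w n) w)).card = (HW n w).card ∧
    (KW (n + 1) (app (n + 1) (w n) w)).card = (KW n w).card + 1 := by
  have hwa' : wa (n + 1) (app (n + 1) (w n) w) = wa n w + 1 := by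
    rw [wa_app_succ, if_pos le_rfl]
  have hb := isWA_bound hW (show n < n + 1 by omega)
  constructor
  · congr 1
    ext u
    rw [mem_HW, mem_HW, al_app, app_self, hwa']
    constructor
    · rintro ⟨h1, ⟨h2, h2'⟩, h3⟩
      have h4 : u ≤ w n := by
        rcases h3 with ⟨i, hi, h⟩ | h
        · rcases Nat.lt_succ_iff_lt_or_eq.mp hi with h' | h'
          · rw [app_lt h'] at h
            have := hA i h'
            omega
          · subst h'
            rw [app_self] at h
            omega
        · exact h
      exact ⟨by omega, h2, Or.inr h4⟩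
    · rintro ⟨h1, h2, h3⟩
      have h4 : u ≤ w n := by
        rcases h3 with ⟨i, hi, h⟩ | h
        · have := hA i hi
          omega
        · exact h
      refine ⟨by omega, ⟨h2, fun i hi h => ?_⟩, Or.inr h4⟩
      have := hA i hi
      omega
  · have h2 : KW (n + 1) (app (n + 1) (w n) w) = insert (wa n w + 2) (KW n w) := by
      ext u
      rw [mem_insert, mem_KW, mem_KW, hwa', app_self]
      constructor
      · rintro ⟨h2, h3, h4⟩
        by_cases h6 : u = wa n w + 2
        · exact Or.inl h6
        · right
          refine ⟨by omega, fun i hi => ?_, by omega⟩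
          have := h3 i (by omega)
          rwa [app_lt hi] at this
      · intro h
        have h3 : w n < u := by omega
        refine ⟨by omega, fun i hi => ?_, h3⟩
        rcases Nat.lt_succ_iff_lt_or_eq.mp hi with h' | h'
        · rw [app_lt h']
          have := hA i h'
          omega
        · subst h'
          rw [app_self]
          omega
    rw [h2, card_insert_of_notMem]
    rw [mem_KW]
    omega

theorem sumW_step (n : ℕ) (w : ℕ → ℕ) (hW : IsWA n w) (f : ℕ → ℕ → ℕ) :
    ∑ v ∈ range (n + 2), (open scoped Classical in if v ≤ 1 + wa n w ∧ Al (n + 1) w v then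
      f (HW (n + 1) (app (n + 1) v w)).card (KW (n + 1) (app (n + 1) v w)).card else 0) =
    nxt f (HW n w).card (KW n w).card := by
  classical
  have hn := wa_le n w
  have h1 : (range (n + 2)).filter (fun v => v ≤ 1 + wa n w ∧ Al (n + 1) w v) =
      HW n w ∪ KW n w := by
    ext u
    rw [mem_filter, mem_union, mem_HW, mem_KW, mem_range]
    constructor
    · rintro ⟨h1, h2, h2'⟩
      by_cases h5 : (∃ i, i < n + 1 ∧ u < w i) ∨ u ≤ w n
      · exact Or.inl ⟨by omega, h2', h5⟩
      · push Not at h5
        exact Or.inr ⟨by omega, h5.1, h5.2⟩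
    · rintro (⟨h1, h2, _⟩ | ⟨h1, h2, _⟩)
      · exact ⟨by omega, by omega, h2⟩
      · exact ⟨by omega, by omega, fun i j _ hj _ => h2 j hj⟩
  have h2 : Disjoint (HW n w) (KW n w) := by
    rw [Finset.disjoint_left]
    intro u hu hu'
    rw [mem_HW] at hu
    rw [mem_KW] at hu'
    obtain ⟨_, _, h⟩ := hu
    obtain ⟨_, h2, h3⟩ := hu'
    rcases h with ⟨i, hi, h⟩ | h
    · have := h2 i hi
      omega
    · omega
  rw [← sum_filter, h1, sum_union h2]
  unfold nxt
  congr 1
  · have hL : ∑ v ∈ LW n w, f (HW (n + 1) (app (n + 1) v w)).card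
        (KW (n + 1) (app (n + 1) v w)).card =
        ∑ t ∈ range (LW n w).card, f (t + 1) ((KW n w).card + 1) := by
      rw [← sum_rank_ge (LW n w) (fun t => f t ((KW n w).card + 1))]
      apply sum_congr rfl
      intro v hv
      obtain ⟨h3, h4⟩ := stepW_low hW hv
      rw [h3, h4]
    by_cases hA : ∀ i, i < n + 1 → w i ≤ w n
    · have h3 : HW n w = insert (w n) (LW n w) := by
        ext u
        rw [mem_insert, mem_LW, mem_HW]
        constructor
        · rintro ⟨h3, h4, h5⟩
          by_cases h6 : u = w n
          · exact Or.inl h6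
          · refine Or.inr ⟨⟨h3, h4, h5⟩, ?_⟩
            rcases h5 with h5 | h5
            · exact h5
            · exact ⟨n, by omega, by omega⟩
        · rintro (rfl | h)
          · exact ⟨isWA_bound hW (by omega), fun i j _ hj _ => hA j hj, Or.inr le_rfl⟩
          · exact h.1
      have h4 : w n ∉ LW n w := by
        rw [mem_LW]
        rintro ⟨_, i, hi, h⟩
        have := hA i hi
        omega
      obtain ⟨h5, h6⟩ := stepW_top hW hA
      have h7 : (HW n w).card = (LW n w).card + 1 := by
        rw [h3, card_insert_of_notMem h4]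
      rw [h7, sum_range_succ, ← hL]
      conv_lhs => rw [h3]
      rw [sum_insert h4, h5, h6, h7, add_comm]
    · have h3 : HW n w = LW n w := by
        ext u
        rw [mem_LW, mem_HW]
        constructor
        · rintro ⟨h3, h4, h5⟩
          refine ⟨⟨h3, h4, h5⟩, ?_⟩
          rcases h5 with h5 | h5
          · exact h5
          · push Not at hA
            obtain ⟨i, hi, h6⟩ := hA
            exact ⟨i, hi, by omega⟩
        · exact fun h => h.1
      rw [h3]
      exact hL
  · rw [← sum_rank_le (KW n w) (fun t => f ((HW n w).card + t) ((KW n w).card + 1 - t))]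
    apply sum_congr rfl
    intro v hv
    obtain ⟨h3, h4⟩ := stepW_high hv
    rw [h3, h4]

open scoped Classical in
/-- Weight of a weak ascent sequence of length `n + 1`. -/
noncomputable def WW (n : ℕ) (f : ℕ → ℕ → ℕ) (w : ℕ → ℕ) : ℕ :=
  if IsWA n w ∧ Av210 (n + 1) w then f (HW n w).card (KW n w).card else 0

theorem sumW_succ (n : ℕ) (f : ℕ → ℕ → ℕ) :
    ∑ e ∈ T (n + 2), WW (n + 1) f (ex e) = ∑ e ∈ T (n + 1), WW n (nxt f) (ex e) := by
  classical
  rw [sum_T_succ]
  apply sum_congr rfl
  intro e _
  unfold WW
  by_cases h : IsWA n (ex e) ∧ Av210 (n + 1) (ex e)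
  · rw [if_pos h, ← sumW_step n (ex e) h.1 f]
    apply sum_congr rfl
    intro v _
    simp only [isWA_app, av210_app, h.1, h.2, true_and]
  · rw [if_neg h]
    apply sum_eq_zero
    intro v _
    rw [if_neg]
    rw [isWA_app, av210_app]
    exact fun h' => h ⟨h'.1.1, h'.2.1⟩

theorem sumW_one (f : ℕ → ℕ → ℕ) : ∑ e ∈ T 1, WW 0 f (ex e) = f 1 1 := by
  classical
  have h1 : T 1 = {fun _ => 0} := by
    ext e
    rw [mem_T, mem_singleton]
    constructor
    · intro h
      funext i
      have := h i
      have h2 := i.is_lt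
      show e i = 0
      omega
    · rintro rfl i
      exact Nat.zero_le _
  rw [h1, sum_singleton]
  obtain ⟨w, hw⟩ : ∃ w, w = ex (fun _ : Fin 1 => (0 : ℕ)) := ⟨_, rfl⟩
  rw [← hw]
  have h0 : w 0 = 0 := by
    rw [hw, ex_of_lt _ (by omega)]
  unfold WW
  have h2 : IsWA 0 w ∧ Av210 (0 + 1) w := ⟨⟨h0, fun i hi => by omega⟩, fun i j k _ _ hk => by omega⟩
  rw [if_pos h2]
  have hwa : wa 0 w = 0 := Nat.le_zero.mp (wa_le 0 w)
  have h3 : HW 0 w = {0} := by
    ext u
    rw [mem_HW, mem_singleton, hwa, h0]
    constructor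
    · rintro ⟨_, _, ⟨i, hi, h⟩ | h⟩
      · have : i = 0 := by omega
        subst this
        omega
      · omega
    · rintro rfl
      exact ⟨by omega, fun i j _ hj _ => by omega, Or.inr le_rfl⟩
  have h4 : KW 0 w = {1} := by
    ext u
    rw [mem_KW, mem_singleton, hwa, h0]
    constructor
    · rintro ⟨_, _, h⟩
      omega
    · rintro rfl
      refine ⟨by omega, fun i hi => ?_, by omega⟩
      have : i = 0 := by omega
      subst this
      omega
  rw [h3, h4]
  rfl

theorem sumW_eq (n : ℕ) (f : ℕ → ℕ → ℕ) : ∑ e ∈ T (n + 1), WW n f (ex e) = SB n f := by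
  induction n generalizing f with
  | zero => exact sumW_one f
  | succ n ih =>
    rw [sumW_succ, ih]
    rfl

open scoped Classical in
theorem card_W (n : ℕ) :
    ((T (n + 1)).filter (fun e => IsWA n (ex e) ∧ Av210 (n + 1) (ex e))).card =
      SB n (fun _ _ => 1) := by
  rw [← sumW_eq, card_filter]
  rfl

end Pool.Agent.V11170.SemiBaxter
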