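import Mathlib
import Pool.Agent.V11170.SemiBaxter

set_option autoImplicit false

/-! Occurrence moments for the shaded mesh pattern on 132. -/

namespace Pool.Agent.V11170.Mesh132

open Finset Pool.Agent.V11170.SemiBaxter

/-- Occurrences, read in the positions of decreasing values. -/
def O (n : ℕ) (w : ℕ → ℕ) : Finset ℕ :=
  (range (n - 2)).filter (fun t => (∀ m ∈ range t, w t < w m) ∧ w (t + 1) = w t + 1 ∧
    w (t + 2) < w t)

/-- The word ends with `0, 1`. -/
def E (n : ℕ) (w : ℕ → ℕ) : Prop := 2 ≤ n ∧ w (n - 2) = 0 ∧ w (n - 1) = 1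

instance (n : ℕ) (w : ℕ → ℕ) : Decidable (E n w) := by
  unfold E
  infer_instance

theorem mem_O {n : ℕ} {w : ℕ → ℕ} {t : ℕ} :
    t ∈ O n w ↔ t + 2 < n ∧ (∀ m, m < t → w t < w m) ∧ w (t + 1) = w t + 1 ∧
      w (t + 2) < w t := by
  unfold O
  rw [mem_filter, mem_range]
  simp only [mem_range]
  constructor
  · rintro ⟨h1, h2⟩
    exact ⟨by omega, h2⟩
  · rintro ⟨h1, h2⟩
    exact ⟨by omega, h2⟩

/-- Occurrences after insertion. -/
theorem mem_O_ins {n v : ℕ} {w : ℕ → ℕ} (hp : IsP n w) {t : ℕ} :
    t ∈ O (n + 1) (ins n v w) ↔ (t ∈ O n w ∧ v ≠ w t + 1) ∨ (t + 2 = n ∧ E n w ∧ v = 0) := by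
  rw [mem_O, mem_O]
  by_cases ht : t + 2 < n
  · have e0 := ins_lt (v := v) (w := w) (show t < n by omega)
    have e1 := ins_lt (v := v) (w := w) (show t + 1 < n by omega)
    have e2 := ins_lt (v := v) (w := w) (show t + 2 < n by omega)
    have hm : (∀ m, m < t → ins n v w t < ins n v w m) ↔ ∀ m, m < t → w t < w m := by
      constructor
      · intro h m hmt
        have h1 := h m hmt
        rw [e0, ins_lt (show m < n by omega)] at h1
        split_ifs at h1 <;> omega
      · intro h m hmt
        have h1 := h m hmt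
        rw [e0, ins_lt (show m < n by omega)]
        split_ifs <;> omega
    rw [hm, e0, e1, e2]
    constructor
    · rintro ⟨h1, h2, h3, h4⟩
      left
      split_ifs at h3 h4 <;> (refine ⟨⟨ht, h2, ?_, ?_⟩, ?_⟩ <;> omega)
    · rintro (⟨⟨h1, h2, h3, h4⟩, h5⟩ | ⟨h1, _⟩)
      · refine ⟨by omega, h2, ?_, ?_⟩
        · split_ifs <;> omega
        · split_ifs <;> omega
      · omega
  · by_cases ht2 : t + 2 = n
    · have e0 := ins_lt (v := v) (w := w) (show t < n by omega)
      have e1 := ins_lt (v := v) (w := w) (show t + 1 < n by omega)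
      have e2 : ins n v w (t + 2) = v := by rw [ht2, ins_self]
      have hE : E n w ↔ w t = 0 ∧ w (t + 1) = 1 := by
        unfold E
        have h1 : n - 2 = t := by omega
        have h2 : n - 1 = t + 1 := by omega
        rw [h1, h2]
        constructor
        · exact fun h => h.2
        · exact fun h => ⟨by omega, h⟩
      rw [hE, e0, e1, e2]
      constructor
      · rintro ⟨h1, h2, h3, h4⟩
        right
        have hmin : ∀ m, m < n → w t ≤ w m := by
          intro m hm
          rcases Nat.lt_trichotomy m t with h | h | h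
          · have h5 := h2 m h
            rw [ins_lt (show m < n by omega)] at h5
            split_ifs at h5 <;> omega
          · rw [h]
          · have h6 : m = t + 1 := by omega
            rw [h6]
            split_ifs at h3 <;> omega
        obtain ⟨m, hm, hm0⟩ := hp.2.2 0 (by omega)
        have h7 := hmin m hm
        have h8 : w t = 0 := by omega
        rw [h8] at h3 h4
        split_ifs at h3 h4 <;> (refine ⟨ht2, ⟨h8, ?_⟩, ?_⟩ <;> omega)
      · rintro (⟨⟨h1, _⟩, _⟩ | ⟨_, ⟨h1, h2⟩, rfl⟩)
        · omega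
        · rw [h1, h2]
          refine ⟨by omega, fun m hm => ?_, by simp, by simp⟩
          rw [ins_lt (show m < n by omega)]
          have h3 : w m ≠ w t := fun h => by
            have := hp.2.1 m t (by omega) (by omega) h
            omega
          have h4 : w m ≠ w (t + 1) := fun h => by
            have := hp.2.1 m (t + 1) (by omega) (by omega) h
            omega
          simp only [Nat.not_lt_zero, if_false]
          omega
    · constructor
      · rintro ⟨h1, _⟩
        omega
      · rintro (⟨⟨h1, _⟩, _⟩ | ⟨h1, _⟩)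
        · omega
        · omega

theorem card_O_ins_mem {n : ℕ} {w : ℕ → ℕ} (hp : IsP n w) {t : ℕ} (ht : t ∈ O n w) :
    (O (n + 1) (ins n (w t + 1) w)).card = (O n w).card - 1 := by
  rw [← card_erase_of_mem ht]
  congr 1
  ext s
  rw [mem_O_ins hp, mem_erase]
  constructor
  · rintro (⟨h1, h2⟩ | ⟨_, _, h⟩)
    · exact ⟨fun h => h2 (by rw [h]), h1⟩
    · omega
  · rintro ⟨h1, h2⟩
    refine Or.inl ⟨h2, fun h => h1 ?_⟩
    have h3 := (mem_O.mp ht).1
    have h4 := (mem_O.mp h2).1
    exact hp.2.1 s t (by omega) (by omega) (by omega)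

theorem card_O_ins_zero {n : ℕ} {w : ℕ → ℕ} (hp : IsP n w) :
    (O (n + 1) (ins n 0 w)).card = (O n w).card + if E n w then 1 else 0 := by
  by_cases hE : E n w
  · rw [if_pos hE]
    have h1 : O (n + 1) (ins n 0 w) = insert (n - 2) (O n w) := by
      ext s
      rw [mem_O_ins hp, mem_insert]
      have h2 := hE.1
      constructor
      · rintro (⟨h3, _⟩ | ⟨h3, _⟩)
        · exact Or.inr h3
        · left
          omega
      · rintro (rfl | h3)
        · exact Or.inr ⟨by omega, hE, rfl⟩
        · exact Or.inl ⟨h3, by omega⟩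
    rw [h1, card_insert_of_notMem]
    rw [mem_O]
    have := hE.1
    omega
  · rw [if_neg hE]
    have h1 : O (n + 1) (ins n 0 w) = O n w := by
      ext s
      rw [mem_O_ins hp]
      constructor
      · rintro (⟨h3, _⟩ | ⟨_, h, _⟩)
        · exact h3
        · exact absurd h hE
      · exact fun h => Or.inl ⟨h, by omega⟩
    rw [h1]
    rfl

theorem card_O_ins_other {n v : ℕ} {w : ℕ → ℕ} (hp : IsP n w) (h0 : v ≠ 0)
    (hv : ∀ t ∈ O n w, v ≠ w t + 1) : (O (n + 1) (ins n v w)).card = (O n w).card := by
  congr 1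
  ext s
  rw [mem_O_ins hp]
  constructor
  · rintro (⟨h3, _⟩ | ⟨_, _, h⟩)
    · exact h3
    · exact absurd h h0
  · exact fun h => Or.inl ⟨h, hv s h⟩

theorem sum_ins {n : ℕ} {w : ℕ → ℕ} (hp : IsP n w) (F : ℕ → ℕ) :
    ∑ v ∈ range (n + 1), F (O (n + 1) (ins n v w)).card =
      (O n w).card * F ((O n w).card - 1) + (n - (O n w).card) * F (O n w).card +
        F ((O n w).card + if E n w then 1 else 0) := by
  obtain ⟨V, hV⟩ : ∃ V, V = (O n w).image (fun t => w t + 1) := ⟨_, rfl⟩
  have hVc : V.card = (O n w).card := by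
    rw [hV]
    apply card_image_of_injOn
    intro s hs t ht h
    have h3 := (mem_O.mp hs).1
    have h4 := (mem_O.mp ht).1
    simp only at h
    exact hp.2.1 s t (by omega) (by omega) (by omega)
  have hVsub : V ⊆ (range (n + 1)).erase 0 := by
    intro v hv
    rw [hV, mem_image] at hv
    obtain ⟨t, ht, rfl⟩ := hv
    have h3 := (mem_O.mp ht).1
    have h4 := hp.1 t (by omega)
    rw [mem_erase, mem_range]
    omega
  have h1 : (range (n + 1)) = insert 0 ((range (n + 1)).erase 0) := by
    rw [insert_erase]
    rw [mem_range]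
    omega
  have h2 : ((range (n + 1)).erase 0).card = n := by
    rw [card_erase_of_mem (by rw [mem_range]; omega), card_range]
    omega
  have h3 : ((range (n + 1)).erase 0 \ V).card = n - (O n w).card := by
    rw [card_sdiff_of_subset hVsub, h2, hVc]
  rw [h1, sum_insert (by simp), card_O_ins_zero hp, ← sum_sdiff hVsub]
  have h4 : ∑ v ∈ V, F (O (n + 1) (ins n v w)).card = (O n w).card * F ((O n w).card - 1) := by
    rw [← hVc, ← smul_eq_mul, ← sum_const]
    apply sum_congr rfl
    intro v hv
    rw [hV, mem_image] at hv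
    obtain ⟨t, ht, rfl⟩ := hv
    rw [card_O_ins_mem hp ht, hVc]
  have h5 : ∑ v ∈ (range (n + 1)).erase 0 \ V, F (O (n + 1) (ins n v w)).card =
      (n - (O n w).card) * F (O n w).card := by
    rw [← h3, ← smul_eq_mul, ← sum_const]
    apply sum_congr rfl
    intro v hv
    rw [mem_sdiff, mem_erase, hV, mem_image] at hv
    rw [card_O_ins_other hp hv.1.1]
    intro t ht h
    exact hv.2 ⟨t, ht, h.symm⟩
  rw [h4, h5]
  omega

/-- Occurrence moments. -/
def alpha (n R : ℕ) : ℕ := ∑ σ : Equiv.Perm (Fin n), (O n (exP σ)).card.choose R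

/-- Occurrence moments over the words ending with `0, 1`. -/
def beta (n R : ℕ) : ℕ :=
  ∑ σ : Equiv.Perm (Fin n), if E n (exP σ) then (O n (exP σ)).card.choose R else 0

theorem card_O_le {n : ℕ} (w : ℕ → ℕ) : (O n w).card ≤ n := by
  unfold O
  exact (card_filter_le _ _).trans (by rw [card_range]; omega)

theorem alpha_zero_right (n : ℕ) : alpha n 0 = n.factorial := by
  unfold alpha
  simp [Fintype.card_perm]

theorem alpha_succ (n R : ℕ) :
    alpha (n + 1) (R + 1) + (R + 1) * alpha n (R + 1) = (n + 1) * alpha n (R + 1) + beta n R := by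
  unfold alpha beta
  rw [sum_perm_succ n (fun w => (O (n + 1) w).card.choose (R + 1)), mul_sum, mul_sum,
    ← sum_add_distrib, ← sum_add_distrib]
  apply sum_congr rfl
  intro σ _
  rw [sum_ins (isP_exP σ) (fun k => k.choose (R + 1))]
  obtain ⟨k, hk⟩ : ∃ k, k = (O n (exP σ)).card := ⟨_, rfl⟩
  have hkn : k ≤ n := by rw [hk]; exact card_O_le _
  rw [← hk]
  have h1 : (k + if E n (exP σ) then 1 else 0).choose (R + 1) =
      k.choose (R + 1) + if E n (exP σ) then k.choose R else 0 := by
    split_ifs
    · rw [Nat.choose_succ_succ, add_comm]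
    · rfl
  rw [h1]
  have h2 : k * (k - 1).choose (R + 1) + (R + 1) * k.choose (R + 1) = k * k.choose (R + 1) := by
    cases k with
    | zero => simp
    | succ k =>
      rw [Nat.add_sub_cancel, mul_comm (R + 1) ((k + 1).choose (R + 1)),
        ← Nat.add_one_mul_choose_eq, ← mul_add, Nat.choose_succ_succ k R]
      ring
  have h3 : (n - k) * k.choose (R + 1) + k * k.choose (R + 1) = n * k.choose (R + 1) := by
    rw [← add_mul, Nat.sub_add_cancel hkn]
  have h4 : (n + 1) * k.choose (R + 1) = n * k.choose (R + 1) + k.choose (R + 1) := by ring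
  omega

theorem sum_E_succ (n : ℕ) (F : ℕ → ℕ) :
    ∑ σ : Equiv.Perm (Fin (n + 2)), (if E (n + 2) (exP σ) then F (O (n + 2) (exP σ)).card else 0) =
      ∑ σ : Equiv.Perm (Fin n), F ((O n (exP σ)).card + if E n (exP σ) then 1 else 0) := by
  rw [sum_perm_succ (n + 1) (fun w => if E (n + 2) w then F (O (n + 2) w).card else 0),
    sum_perm_succ n (fun w => ∑ v ∈ range (n + 1 + 1), if E (n + 2) (ins (n + 1) v w) then
      F (O (n + 2) (ins (n + 1) v w)).card else 0)]
  apply sum_congr rfl
  intro σ _
  have hE : ∀ v u, E (n + 2) (ins (n + 1) u (ins n v (exP σ))) ↔ v = 0 ∧ u = 1 := by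
    intro v u
    unfold E
    have h1 : n + 2 - 2 = n := by omega
    have h2 : n + 2 - 1 = n + 1 := by omega
    rw [h1, h2, ins_self, ins_lt (show n < n + 1 by omega), ins_self]
    constructor
    · rintro ⟨_, h3, h4⟩
      split_ifs at h3 <;> omega
    · rintro ⟨rfl, rfl⟩
      simp
  rw [sum_eq_single 0, sum_eq_single 1]
  · rw [if_pos ((hE 0 1).mpr ⟨rfl, rfl⟩)]
    congr 1
    rw [← card_O_ins_zero (isP_exP σ)]
    rw [card_O_ins_other]
    · have := isP_exP (insPerm (0 : Fin (n + 1)) σ)
      rw [exP_insPerm] at this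
      exact this
    · omega
    · intro t ht h
      have h1 := mem_O.mp ht
      omega
  · intro u _ hu
    rw [if_neg]
    rw [hE]
    omega
  · intro h
    rw [mem_range] at h
    omega
  · intro v _ hv
    apply sum_eq_zero
    intro u _
    rw [if_neg]
    rw [hE]
    omega
  · intro h
    rw [mem_range] at h
    omega

theorem beta_succ_zero (n : ℕ) : beta (n + 2) 0 = n.factorial := by
  unfold beta
  rw [sum_E_succ n (fun k => k.choose 0)]
  simp [Fintype.card_perm]

theorem beta_succ (n R : ℕ) : beta (n + 2) (R + 1) = alpha n (R + 1) + beta n R := by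
  unfold beta alpha
  rw [sum_E_succ n (fun k => k.choose (R + 1)), ← sum_add_distrib]
  apply sum_congr rfl
  intro σ _
  split_ifs
  · rw [Nat.choose_succ_succ, add_comm]
  · rfl

theorem beta_small (n R : ℕ) (hn : n < 2) : beta n R = 0 := by
  unfold beta
  apply sum_eq_zero
  intro σ _
  rw [if_neg]
  intro h
  have := h.1
  omega

/-! ### closed forms -/

theorem vanish : ∀ n, (∀ R, n < 2 * R → alpha n R = 0) ∧ ∀ R, n < 2 * R + 2 → beta n R = 0 := by
  intro n
  induction n using Nat.strong_induction_on with
  | _ n ih =>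
    constructor
    · intro R hR
      cases R with
      | zero => omega
      | succ R =>
        cases n with
        | zero =>
          unfold alpha
          apply sum_eq_zero
          intro σ _
          have h1 : (O 0 (exP σ)).card = 0 := Nat.le_zero.mp (card_O_le _)
          rw [h1]
          rfl
        | succ n =>
          have h1 := alpha_succ n R
          rw [(ih n (by omega)).1 (R + 1) (by omega), (ih n (by omega)).2 R (by omega)] at h1
          simpa using h1
    · intro R hR
      by_cases hn : n < 2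
      · exact beta_small n R hn
      · obtain ⟨m, rfl⟩ : ∃ m, n = m + 2 := ⟨n - 2, by omega⟩
        cases R with
        | zero => omega
        | succ R =>
          rw [beta_succ, (ih m (by omega)).1 (R + 1) (by omega),
            (ih m (by omega)).2 R (by omega)]

theorem closed : ∀ R m, alpha (m + 2 * R) R = m.factorial * (m + R - 1).choose R ∧
    beta (m + 2 * R + 2) R = m.factorial * (m + R).choose R := by
  intro R
  induction R with
  | zero =>
    intro m
    constructor
    · rw [Nat.mul_zero, Nat.add_zero, alpha_zero_right]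
      simp
    · rw [Nat.mul_zero, Nat.add_zero, beta_succ_zero]
      simp
  | succ R ih =>
    have hb : ∀ m, beta (m + 2 * (R + 1)) R = m.factorial * (m + R).choose R := by
      intro m
      have := (ih m).2
      rwa [show m + 2 * R + 2 = m + 2 * (R + 1) by ring] at this
    have ha : ∀ m, alpha (m + 2 * (R + 1)) (R + 1) = m.factorial * (m + R).choose (R + 1) := by
      intro m
      induction m with
      | zero =>
        have h1 := alpha_succ (2 * R + 1) R
        rw [(vanish (2 * R + 1)).1 (R + 1) (by omega), (vanish (2 * R + 1)).2 R (by omega)] at h1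
        rw [show 0 + 2 * (R + 1) = 2 * R + 1 + 1 by ring]
        simpa using h1
      | succ m ihm =>
        have h1 := alpha_succ (m + 2 * (R + 1)) R
        rw [ihm, hb m] at h1
        rw [show m + 1 + 2 * (R + 1) = m + 2 * (R + 1) + 1 by ring]
        have h2 : (m + 1 + R).choose (R + 1) = (m + R).choose R + (m + R).choose (R + 1) := by
          rw [show m + 1 + R = m + R + 1 by ring, Nat.choose_succ_succ]
        have h3 : (m + R).choose (R + 1) * (R + 1) = (m + R).choose R * m := by
          have := Nat.choose_succ_right_eq (m + R) R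
          rwa [show m + R - R = m by omega] at this
        rw [h2, Nat.factorial_succ]
        obtain ⟨a, hae⟩ : ∃ a, a = (m + R).choose (R + 1) := ⟨_, rfl⟩
        obtain ⟨b, hbe⟩ : ∃ b, b = (m + R).choose R := ⟨_, rfl⟩
        obtain ⟨c, hce⟩ : ∃ c, c = m.factorial := ⟨_, rfl⟩
        rw [← hae, ← hbe] at h3
        rw [← hae, ← hbe, ← hce] at h1 ⊢
        have h4 : c * (a * (R + 1)) = c * (b * m) := by rw [h3]
        have h5 : (R + 1) * (c * a) = c * (a * (R + 1)) := by ring
        have h6 : (m + 2 * (R + 1) + 1) * (c * a) =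
            (m + 1) * (c * a) + c * (a * (R + 1)) + (R + 1) * (c * a) := by ring
        have h7 : (m + 1) * c * (b + a) = (m + 1) * (c * a) + c * (b * m) + c * b := by ring
        omega
    intro m
    constructor
    · rw [ha m]
      rfl
    · rw [beta_succ, ha m, hb m, ← mul_add, add_comm, show m + (R + 1) = m + R + 1 by ring,
        Nat.choose_succ_succ (m + R) R]

/-- The number of words without occurrence. -/
def avoid (n : ℕ) : ℕ :=
  ((univ : Finset (Equiv.Perm (Fin n))).filter (fun σ => O n (exP σ) = ∅)).card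

theorem avoid_eq (n : ℕ) :
    (avoid n : ℤ) = ∑ R ∈ range (n + 1), (-1) ^ R * (alpha n R : ℤ) := by
  unfold avoid alpha
  rw [card_filter]
  push_cast
  simp only [mul_sum]
  rw [sum_comm]
  apply sum_congr rfl
  intro σ _
  obtain ⟨k, hk⟩ : ∃ k, k = (O n (exP σ)).card := ⟨_, rfl⟩
  have hkn : k ≤ n := by rw [hk]; exact card_O_le _
  have h1 : (∑ R ∈ range (n + 1), (-1 : ℤ) ^ R * (k.choose R : ℤ)) = if k = 0 then 1 else 0 := by
    rw [← Int.alternating_sum_range_choose]
    symm
    apply sum_subset
    · intro x hx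
      rw [mem_range] at hx ⊢
      omega
    · intro x _ hx
      rw [mem_range] at hx
      rw [Nat.choose_eq_zero_of_lt (by omega)]
      simp
  rw [← hk, h1, hk]
  simp only [card_eq_zero]

theorem avoid_formula (n : ℕ) : (avoid n : ℤ) = ∑ R ∈ range (n + 1),
    if 2 * R ≤ n then (-1) ^ R * (((n - 2 * R).factorial * (n - R - 1).choose R : ℕ) : ℤ)
      else 0 := by
  rw [avoid_eq]
  apply sum_congr rfl
  intro R _
  split_ifs with h
  · obtain ⟨m, hm⟩ : ∃ m, n = m + 2 * R := ⟨n - 2 * R, by omega⟩
    have h1 := (closed R m).1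
    rw [← hm, show m = n - 2 * R by omega, show n - 2 * R + R - 1 = n - R - 1 by omega] at h1
    rw [h1]
  · rw [(vanish n).1 R (by omega)]
    simp

end Pool.Agent.V11170.Mesh132
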